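import Pool.Agent.NegLim.State
import Pool.Agent.NegLim.Abstract

/-!
# Monotone programs as circuits without NOT gates; a circuit near an input
-/

namespace Pool.Agent.NTR

open Pool.Agent.NegLim Finset

set_option linter.unusedSectionVars false

variable {V : Type} [Fintype V] [DecidableEq V]

/-- The wire refers to one of the first `n` gates or to no gate. -/
def WireBelow (n : ℕ) : Wire V → Prop
  | .gate i => i < n
  | _ => True

omit [Fintype V] [DecidableEq V] in
lemma gateVals_snoc (x : V → Bool) (C : Circuit V) (g : Gate V) (vals : List Bool) :
    gateVals x (C ++ [g]) vals = gateVals x C vals ++ [g.val x (gateVals x C vals)] := by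
  rw [gateVals_append]
  rfl

omit [Fintype V] [DecidableEq V] in
lemma wireVal_append (x : V → Bool) (l l' : List Bool) (a : Wire V) (h : WireBelow l.length a) :
    a.val x (l ++ l') = a.val x l := by
  cases a with
  | var v => rfl
  | const b => rfl
  | gate i =>
    simp only [WireBelow] at h
    simp only [Wire.val]
    rw [List.getD_eq_getElem _ _ h, List.getD_eq_getElem _ _ (by rw [List.length_append]; omega),
      List.getElem_append_left h]

/-- A monotone program is a circuit without NOT gates. -/
lemma monComp_circuit {s : ℕ} {D : Set (Set (Finset V))} (hD : MonComp s D) :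
    ∃ M : Circuit V, M.length = s ∧ Circuit.negs M = 0 ∧
      ∀ f ∈ D, ∃ o : Wire V, WireBelow s o ∧ ∀ z : Finset V,
        (Circuit.val M (chi z) o = true ↔ z ∈ f) := by
  induction hD with
  | base =>
    refine ⟨[], rfl, by simp [Circuit.negs], ?_⟩
    rintro f (⟨v, rfl⟩ | rfl | rfl)
    · exact ⟨.var v, trivial, fun z => by simp [Circuit.val, Wire.val, chi]⟩
    · exact ⟨.const true, trivial, fun z => by simp [Circuit.val, Wire.val]⟩
    · exact ⟨.const false, trivial, fun z => by simp [Circuit.val, Wire.val]⟩
  | @and s C f g _ hf hg ih =>
    obtain ⟨M, hlen, hneg, hM⟩ := ih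
    obtain ⟨a, ha, hav⟩ := hM f hf
    obtain ⟨b, hb, hbv⟩ := hM g hg
    refine ⟨M ++ [Gate.and a b], by simp [hlen], ?_, ?_⟩
    · unfold Circuit.negs at hneg ⊢
      rw [List.countP_append, hneg]
      simp [Gate.isNot]
    · rintro f' (rfl | hf')
      · refine ⟨.gate s, Nat.lt_succ_self s, fun z => ?_⟩
        have h1 := hav z
        have h2 := hbv z
        unfold Circuit.val at h1 h2 ⊢
        rw [gateVals_snoc]
        have hl : (gateVals (chi z) M []).length = s := by rw [gateVals_length, hlen]; simp
        simp only [Wire.val]
        rw [List.getD_eq_getElem _ _ (by rw [List.length_append, hl]; simp),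
          List.getElem_append_right (by rw [hl])]
        simp only [hl, Nat.sub_self, List.getElem_cons_zero, Gate.val, Bool.and_eq_true]
        rw [h1, h2]
        rfl
      · obtain ⟨c, hc, hcv⟩ := hM f' hf'
        refine ⟨c, ?_, fun z => ?_⟩
        · cases c with
          | gate i => simp only [WireBelow] at hc ⊢; omega
          | var v => trivial
          | const b => trivial
        · rw [← hcv z]
          unfold Circuit.val
          rw [gateVals_snoc, wireVal_append]
          rw [gateVals_length, hlen]
          simpa using hc
  | @or s C f g _ hf hg ih =>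
    obtain ⟨M, hlen, hneg, hM⟩ := ih
    obtain ⟨a, ha, hav⟩ := hM f hf
    obtain ⟨b, hb, hbv⟩ := hM g hg
    refine ⟨M ++ [Gate.or a b], by simp [hlen], ?_, ?_⟩
    · unfold Circuit.negs at hneg ⊢
      rw [List.countP_append, hneg]
      simp [Gate.isNot]
    · rintro f' (rfl | hf')
      · refine ⟨.gate s, Nat.lt_succ_self s, fun z => ?_⟩
        have h1 := hav z
        have h2 := hbv z
        unfold Circuit.val at h1 h2 ⊢
        rw [gateVals_snoc]
        have hl : (gateVals (chi z) M []).length = s := by rw [gateVals_length, hlen]; simp
        simp only [Wire.val]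
        rw [List.getD_eq_getElem _ _ (by rw [List.length_append, hl]; simp),
          List.getElem_append_right (by rw [hl])]
        simp only [hl, Nat.sub_self, List.getElem_cons_zero, Gate.val, Bool.or_eq_true]
        rw [h1, h2]
        rfl
      · obtain ⟨c, hc, hcv⟩ := hM f' hf'
        refine ⟨c, ?_, fun z => ?_⟩
        · cases c with
          | gate i => simp only [WireBelow] at hc ⊢; omega
          | var v => trivial
          | const b => trivial
        · rw [← hcv z]
          unfold Circuit.val
          rw [gateVals_snoc, wireVal_append]
          rw [gateVals_length, hlen]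
          simpa using hc

/-- **Key lemma.** Let `x` be an input of the circuit `C`. For the inputs `z ≥ x` the statement
the values of the NOT gates at `z` and at `x` differ, or the output at `z` is true is computed
by a circuit without NOT gates with at most one gate more than `C`. -/
lemma key (C : Circuit V) (out : Wire V) (x : V → Bool) :
    ∃ (M : Circuit V) (o : Wire V), Circuit.negs M = 0 ∧ Circuit.size M ≤ Circuit.size C + 1 ∧
      ∀ z : V → Bool, x ≤ z → (Circuit.val M z o = true ↔
        (Circuit.notVals C z ≠ Circuit.notVals C x ∨ Circuit.val C z out = true)) := by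
  classical
  let S : (V → Bool) → Finset V := fun y => univ.filter fun v => y v = true
  have hS : ∀ y, chi (S y) = y := by
    intro y
    funext v
    unfold chi
    rw [Bool.eq_iff_iff, decide_eq_true_iff]
    simp [S]
  have hmono : ∀ y z : V → Bool, y ≤ z → S y ⊆ S z := by
    intro y z h v hv
    simp only [S, mem_filter, mem_univ, true_and] at hv ⊢
    have h2 := h v
    rw [hv] at h2
    exact top_le_iff.mp h2
  by_cases hx : Circuit.val C x out = true
  · refine ⟨[], .const true, by simp [Circuit.negs], by simp [Circuit.size], fun z hz => ?_⟩
    constructor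
    · intro _
      by_cases hn : Circuit.notVals C z = Circuit.notVals C x
      · right
        have := val_mono_of_notVals C (hmono x z hz) (by rw [hS, hS]; exact hn) out
          (by rw [hS]; exact hx)
        rwa [hS] at this
      · exact Or.inl hn
    · intro _
      simp [Circuit.val, Wire.val]
  · obtain ⟨s, D, fs, F, hs, hD, hfs, hF, hmem, hval⟩ := local_fam_out C (S x) [out]
    obtain ⟨M, hlen, hneg, hM⟩ := monComp_circuit hD
    obtain ⟨o, ho, hov⟩ := hM F hF
    refine ⟨M, o, hneg, ?_, fun z hz => ?_⟩
    · unfold Circuit.size at hs ⊢
      rw [hlen]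
      simpa using hs
    · have h1 := hov (S z)
      rw [hS] at h1
      rw [h1, hmem (S z) (hmono x z hz), hS, hS]
      have hx' : Circuit.val C x out = false := by simpa using hx
      simp [hx']

end Pool.Agent.NTR
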