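import Pool.Agent.NTR.FullDefs
import Pool.Agent.NTR.Mon

set_option autoImplicit false

/-!
# Few NOT gates which depend on `U` change rarely on `U`
-/

namespace Pool.Agent.NTR

open Pool.Agent.NegLim Finset

lemma wire_le {V : Type} {x y : V → Bool} (h : x ≤ y) {l l' : List Bool}
    (hl : List.Forall₂ (· ≤ ·) l l') (a : Wire V) : a.val x l ≤ a.val y l' := by
  cases a with
  | var v => exact h v
  | const b => exact le_refl _
  | gate i =>
    show l.getD i false ≤ l'.getD i false
    by_cases hi : i < l.length
    · have hi' : i < l'.length := by rw [← hl.length_eq]; exact hi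
      rw [List.getD_eq_getElem _ _ hi, List.getD_eq_getElem _ _ hi']
      exact (List.forall₂_iff_get.1 hl).2 i hi hi'
    · rw [List.getD_eq_default _ _ (not_lt.mp hi)]
      exact Bool.false_le _

/-- The first NOT gate whose value differs at `x ≤ y` goes from `1` to `0`. -/
theorem notVals_first {V : Type} (C : Circuit V) {x y : V → Bool} (h : x ≤ y) :
    (Circuit.notVals C x = Circuit.notVals C y ∧ List.Forall₂ (· ≤ ·) (gateVals x C []) (gateVals y C [])) ∨
    ∃ i : ℕ, (∀ j : ℕ, j < i → (Circuit.notVals C x)[j]? = (Circuit.notVals C y)[j]?) ∧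
      (Circuit.notVals C x)[i]? = some true ∧ (Circuit.notVals C y)[i]? = some false := by
  induction C using List.reverseRecOn with
  | nil => exact Or.inl ⟨rfl, List.Forall₂.nil⟩
  | append_singleton C a ih =>
    rcases ih with ⟨h1, h2⟩ | ⟨i, h1, h2, h3⟩
    · have hg : ∀ z : V → Bool, gateVals z (C ++ [a]) [] =
          gateVals z C [] ++ [a.val z (gateVals z C [])] := fun z => gateVals_snoc z C a []
      cases a with
      | and b c =>
        refine Or.inl ⟨?_, ?_⟩
        · rw [notVals_snoc, notVals_snoc, h1]
          simp [Gate.isNot]
        · rw [hg, hg]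
          refine List.rel_append h2 (List.Forall₂.cons ?_ List.Forall₂.nil)
          have hb := wire_le h h2 b
          have hc := wire_le h h2 c
          simp only [Gate.val]
          exact inf_le_inf hb hc
      | or b c =>
        refine Or.inl ⟨?_, ?_⟩
        · rw [notVals_snoc, notVals_snoc, h1]
          simp [Gate.isNot]
        · rw [hg, hg]
          refine List.rel_append h2 (List.Forall₂.cons ?_ List.Forall₂.nil)
          have hb := wire_le h h2 b
          have hc := wire_le h h2 c
          simp only [Gate.val]
          exact sup_le_sup hb hc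
      | not b =>
        have hb := wire_le h h2 b
        by_cases he : b.val x (gateVals x C []) = b.val y (gateVals y C [])
        · refine Or.inl ⟨?_, ?_⟩
          · rw [notVals_snoc, notVals_snoc, h1]
            simp [Gate.isNot, Gate.val, he]
          · rw [hg, hg]
            refine List.rel_append h2 (List.Forall₂.cons ?_ List.Forall₂.nil)
            simp only [Gate.val, he]
            exact le_refl _
        · have hx : b.val x (gateVals x C []) = false := by
            cases hx : b.val x (gateVals x C [])
            · rfl
            · rw [hx] at hb he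
              exact absurd (top_le_iff.mp hb).symm he
          have hy : b.val y (gateVals y C []) = true := by
            cases hy : b.val y (gateVals y C [])
            · rw [hx, hy] at he
              exact absurd rfl he
            · rfl
          refine Or.inr ⟨(Circuit.notVals C x).length, ?_, ?_, ?_⟩
          · intro j hj
            rw [notVals_snoc, notVals_snoc, h1]
            rw [h1] at hj
            rw [List.getElem?_append_left hj, List.getElem?_append_left hj]
          · rw [notVals_snoc]
            simp [Gate.isNot, Gate.val, hx]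
          · rw [notVals_snoc, ← h1]
            simp [Gate.isNot, Gate.val, hy]
    · refine Or.inr ⟨i, ?_, ?_, ?_⟩
      · intro j hj
        have hix : i < (Circuit.notVals C x).length := (List.getElem?_eq_some_iff.1 h2).1
        have hiy : i < (Circuit.notVals C y).length := (List.getElem?_eq_some_iff.1 h3).1
        rw [notVals_snoc, notVals_snoc, List.getElem?_append_left (hj.trans hix),
          List.getElem?_append_left (hj.trans hiy)]
        exact h1 j hj
      · rw [notVals_snoc, List.getElem?_append_left (List.getElem?_eq_some_iff.1 h2).1]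
        exact h2
      · rw [notVals_snoc, List.getElem?_append_left (List.getElem?_eq_some_iff.1 h3).1]
        exact h3

/-- The weights `2 ^ #{j' ∈ J, j < j'}` of the elements of `J` have the sum `2 ^ |J| - 1`. -/
lemma sum_weights (J : Finset ℕ) : (∑ j ∈ J, 2 ^ (J.filter fun j' => j < j').card) + 1 = 2 ^ J.card := by
  induction J using Finset.induction_on_min with
  | empty => simp
  | insert a s ha ih =>
    have has : a ∉ s := fun h => lt_irrefl _ (ha a h)
    rw [Finset.sum_insert has, Finset.card_insert_of_notMem has]
    have h1 : ((insert a s).filter fun j' => a < j') = s := by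
      ext j
      rw [Finset.mem_filter, Finset.mem_insert]
      constructor
      · rintro ⟨h | h, h'⟩
        · omega
        · exact h
      · exact fun h => ⟨Or.inr h, ha j h⟩
    have h2 : ∑ j ∈ s, 2 ^ ((insert a s).filter fun j' => j < j').card =
        ∑ j ∈ s, 2 ^ (s.filter fun j' => j < j').card := by
      refine Finset.sum_congr rfl fun j hj => ?_
      congr 2
      ext j'
      rw [Finset.mem_filter, Finset.mem_filter, Finset.mem_insert]
      constructor
      · rintro ⟨h | h, h'⟩
        · have := ha j hj
          omega
        · exact ⟨h, h'⟩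
      · exact fun h => ⟨Or.inr h.1, h.2⟩
    rw [h1, h2, pow_succ]
    omega

/-- Lexicographic value of the bits in `J`. -/
def pot (J : Finset ℕ) (v : ℕ → Bool) : ℕ :=
  ∑ j ∈ J, if v j = true then 2 ^ (J.filter fun j' => j < j').card else 0

lemma pot_lt (J : Finset ℕ) (v : ℕ → Bool) : pot J v < 2 ^ J.card := by
  rw [← sum_weights J]
  refine Nat.lt_succ_of_le (Finset.sum_le_sum fun j _ => ?_)
  split_ifs
  · exact le_refl _
  · exact Nat.zero_le _

lemma pot_step (J : Finset ℕ) (v w : ℕ → Bool) (i : ℕ) (hi : i ∈ J) (hlow : ∀ j < i, v j = w j)
    (hv : v i = true) (hw : w i = false) : pot J w < pot J v := by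
  classical
  unfold pot
  rw [← Finset.sum_filter_add_sum_filter_not J (fun j => j < i),
    ← Finset.sum_filter_add_sum_filter_not J (fun j => j < i) (fun j => if v j = true then _ else 0)]
  have h1 : ∑ j ∈ J with j < i, (if w j = true then 2 ^ (J.filter fun j' => j < j').card else 0) =
      ∑ j ∈ J with j < i, (if v j = true then 2 ^ (J.filter fun j' => j < j').card else 0) := by
    refine Finset.sum_congr rfl fun j hj => ?_
    rw [hlow j (Finset.mem_filter.1 hj).2]
  rw [h1]
  refine Nat.add_lt_add_left ?_ _
  have hK : (J.filter fun j => ¬ j < i) = insert i (J.filter fun j => i < j) := by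
    ext j
    simp only [Finset.mem_filter, Finset.mem_insert, not_lt]
    constructor
    · rintro ⟨h2, h3⟩
      rcases Nat.lt_or_ge i j with h4 | h4
      · exact Or.inr ⟨h2, h4⟩
      · exact Or.inl (le_antisymm h4 h3)
    · rintro (rfl | h2)
      · exact ⟨hi, le_refl _⟩
      · exact ⟨h2.1, h2.2.le⟩
  have hni : i ∉ (J.filter fun j => i < j) := by simp
  rw [hK, Finset.sum_insert hni, Finset.sum_insert hni, hv, hw]
  simp only [Bool.false_eq_true, if_false, if_true, zero_add]
  set K := J.filter fun j => i < j with hKd
  have h2 : ∑ j ∈ K, (if w j = true then 2 ^ (J.filter fun j' => j < j').card else 0) <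
      2 ^ K.card := by
    rw [← sum_weights K]
    refine Nat.lt_succ_of_le (Finset.sum_le_sum fun j hj => ?_)
    have h3 : (J.filter fun j' => j < j') = K.filter fun j' => j < j' := by
      ext j'
      simp only [hKd, Finset.mem_filter]
      have h4 := (Finset.mem_filter.1 hj).2
      constructor
      · rintro ⟨h5, h6⟩
        exact ⟨⟨h5, h4.trans h6⟩, h6⟩
      · rintro ⟨⟨h5, _⟩, h6⟩
        exact ⟨h5, h6⟩
    rw [h3]
    split_ifs
    · exact le_refl _
    · exact Nat.zero_le _
  exact h2.trans_le (Nat.le_add_right _ _)

/-- If all NOT gates but the ones numbered by `J` do not depend on the variables in `U`, and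
`2 ^ |J| ≤ r`, then the values of the NOT gates change fewer than `r` times along every increasing
sequence of inputs which agree outside `U`. -/
theorem changesOn_free {V : Type} (C : Circuit V) (U : Finset V) (J : Finset ℕ)
    (hJ : ∀ i, i ∉ J → ∀ x y : V → Bool, (∀ v, v ∉ U → x v = y v) →
      (Circuit.notVals C x)[i]? = (Circuit.notVals C y)[i]?) {r : ℕ} (hr : 2 ^ J.card ≤ r) :
    ChangesOn U (fun x => Circuit.notVals C x) r := by
  classical
  intro x hx hU n
  set P : ℕ → ℕ := fun k => pot J fun i => ((Circuit.notVals C (x k))[i]?).getD false with hP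
  have hagree : ∀ k l v, v ∉ U → x k v = x l v := fun k l v hv => (hU k v hv).trans (hU l v hv).symm
  have hstep : ∀ k, P (k + 1) ≤ P k ∧ (Circuit.notVals C (x k) ≠ Circuit.notVals C (x (k + 1)) → P (k + 1) < P k) := by
    intro k
    rcases notVals_first C (hx (Nat.le_succ k)) with ⟨h1, -⟩ | ⟨i, h1, h2, h3⟩
    · refine ⟨?_, fun h => absurd h1 h⟩
      simp only [hP]
      rw [h1]
    · have hiJ : i ∈ J := by
        by_contra hi
        have := hJ i hi (x k) (x (k + 1)) (fun v hv => hagree k (k + 1) v hv)
        rw [h2, h3] at this
        exact absurd this (by simp)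
      have hlt : P (k + 1) < P k := by
        refine pot_step J _ _ i hiJ (fun j hj => ?_) ?_ ?_
        · rw [h1 j hj]
        · rw [h2]; rfl
        · rw [h3]; rfl
      exact ⟨hlt.le, fun _ => hlt⟩
  have key : ∀ m, {k | k < m ∧ Circuit.notVals C (x k) ≠ Circuit.notVals C (x (k + 1))}.ncard + P m ≤ P 0 := by
    intro m
    induction m with
    | zero => simp
    | succ m ih =>
      by_cases hm : C.notVals (x m) ≠ C.notVals (x (m + 1))
      · have h1 : {k | k < m + 1 ∧ Circuit.notVals C (x k) ≠ Circuit.notVals C (x (k + 1))} =
            insert m {k | k < m ∧ Circuit.notVals C (x k) ≠ Circuit.notVals C (x (k + 1))} := by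
          ext k
          simp only [Set.mem_ofPred_eq, Set.mem_insert_iff]
          constructor
          · rintro ⟨h2, h3⟩
            rcases Nat.lt_succ_iff_lt_or_eq.1 h2 with h4 | h4
            · exact Or.inr ⟨h4, h3⟩
            · exact Or.inl h4
          · rintro (rfl | h2)
            · exact ⟨Nat.lt_succ_self _, hm⟩
            · exact ⟨h2.1.trans (Nat.lt_succ_self _), h2.2⟩
        have h2 := Set.ncard_insert_le m {k | k < m ∧ Circuit.notVals C (x k) ≠ Circuit.notVals C (x (k + 1))}
        rw [← h1] at h2
        have h3 := (hstep m).2 hm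
        omega
      · have h1 : {k | k < m + 1 ∧ Circuit.notVals C (x k) ≠ Circuit.notVals C (x (k + 1))} =
            {k | k < m ∧ Circuit.notVals C (x k) ≠ Circuit.notVals C (x (k + 1))} := by
          ext k
          simp only [Set.mem_ofPred_eq]
          constructor
          · rintro ⟨h2, h3⟩
            rcases Nat.lt_succ_iff_lt_or_eq.1 h2 with h4 | h4
            · exact ⟨h4, h3⟩
            · rw [h4] at h3
              exact absurd h3 hm
          · rintro ⟨h2, h3⟩
            exact ⟨h2.trans (Nat.lt_succ_self _), h3⟩
        rw [h1]
        have h3 := (hstep m).1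
        omega
  have h1 := key n
  have h2 := pot_lt J fun i => ((Circuit.notVals C (x 0))[i]?).getD false
  have h3 : P 0 < 2 ^ J.card := h2
  show {k | k < n ∧ Circuit.notVals C (x k) ≠ Circuit.notVals C (x (k + 1))}.ncard < r
  omega

end Pool.Agent.NTR
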