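import Pool.Agent.TeleNeg.DirDefs

/-!
# The disjunction of monotone networks is a monotone network

For `K` networks with `S` nodes the disjunction of the functions computed is computed by a network with `K S + 2` nodes,
for networks with undirected contacts and for networks with directed contacts.
-/

set_option autoImplicit false

namespace Pool.Agent.NTR

open Pool.Agent.TeleNeg Relation

/-- the node `a` of the `k`-th network -/
def nd {S K : ℕ} (k : Fin K) (a : Fin S) : Fin (K * S + 2) := Fin.castAdd 2 (finProdFinEquiv (k, a))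

/-- the source of the disjunction -/
def nSrc (S K : ℕ) : Fin (K * S + 2) := Fin.natAdd (K * S) 0

/-- the target of the disjunction -/
def nTgt (S K : ℕ) : Fin (K * S + 2) := Fin.natAdd (K * S) 1

theorem nd_inj {S K : ℕ} {k k' : Fin K} {a a' : Fin S} (h : nd k a = nd k' a') : k = k' ∧ a = a' := by
  have h1 := finProdFinEquiv.injective (Fin.castAdd_injective (K * S) 2 h)
  exact ⟨congrArg Prod.fst h1, congrArg Prod.snd h1⟩

theorem nd_ne_src {S K : ℕ} (k : Fin K) (a : Fin S) : nd k a ≠ nSrc S K := by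
  intro h
  have h1 := congrArg Fin.val h
  simp only [nd, nSrc, Fin.val_castAdd, Fin.val_natAdd, Fin.val_zero] at h1
  have := (finProdFinEquiv (k, a)).isLt
  omega

theorem nd_ne_tgt {S K : ℕ} (k : Fin K) (a : Fin S) : nd k a ≠ nTgt S K := by
  intro h
  have h1 := congrArg Fin.val h
  simp only [nd, nTgt, Fin.val_castAdd, Fin.val_natAdd, Fin.val_one] at h1
  have := (finProdFinEquiv (k, a)).isLt
  omega

theorem src_ne_tgt (S K : ℕ) : nSrc S K ≠ nTgt S K := by
  intro h
  have h1 := congrArg Fin.val h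
  simp only [nSrc, nTgt, Fin.val_natAdd, Fin.val_zero, Fin.val_one] at h1
  omega

/-- the network of the disjunction -/
def orNet {ι : Type} {S K : ℕ} (N : Fin K → Net ι S) : Net ι (K * S + 2) where
  contacts := {c | (∃ k a b, c.1 = nd k a ∧ c.2.1 = nd k b ∧ (a, b, c.2.2) ∈ (N k).contacts) ∨
    (∃ k, c.1 = nSrc S K ∧ c.2.1 = nd k (N k).src ∧ c.2.2 = none) ∨
    ∃ k, c.1 = nd k (N k).tgt ∧ c.2.1 = nTgt S K ∧ c.2.2 = none}
  src := nSrc S K
  tgt := nTgt S K

theorem orNet_daccepts {ι : Type} {S K : ℕ} (N : Fin K → Net ι S) (x : ι → Bool) :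
    (orNet N).DAccepts x ↔ ∃ k, (N k).DAccepts x := by
  constructor
  · intro h
    by_contra hcon
    push Not at hcon
    have inv : ∀ q, ReflTransGen ((orNet N).Step x) (nSrc S K) q →
        q = nSrc S K ∨ ∃ k a, q = nd k a ∧ ReflTransGen ((N k).Step x) (N k).src a := by
      intro q hq
      induction hq with
      | refl => exact Or.inl rfl
      | tail _ hs ih =>
        obtain ⟨l, hl, hx⟩ := hs
        rcases hl with ⟨k, a, b, h1, h2, h3⟩ | ⟨k, h1, h2, h3⟩ | ⟨k, h1, h2, h3⟩
        · simp only at h1 h2 h3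
          rcases ih with ih | ⟨k', a', ih, ih2⟩
          · exact absurd (h1.symm.trans ih) (nd_ne_src k a)
          · obtain ⟨rfl, rfl⟩ := nd_inj (h1.symm.trans ih)
            exact Or.inr ⟨k, b, h2, ih2.tail ⟨l, h3, hx⟩⟩
        · exact Or.inr ⟨k, _, h2, ReflTransGen.refl⟩
        · simp only at h1 h2 h3
          rcases ih with ih | ⟨k', a', ih, ih2⟩
          · exact absurd (h1.symm.trans ih) (nd_ne_src k _)
          · obtain ⟨rfl, rfl⟩ := nd_inj (h1.symm.trans ih)
            exact absurd ih2 (hcon k)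
    rcases inv _ h with h1 | ⟨k, a, h1, _⟩
    · exact src_ne_tgt S K h1.symm
    · exact nd_ne_tgt k a h1.symm
  · rintro ⟨k, hk⟩
    have h1 : ∀ a, ReflTransGen ((N k).Step x) (N k).src a →
        ReflTransGen ((orNet N).Step x) (nSrc S K) (nd k a) := by
      intro a ha
      induction ha with
      | refl => exact ReflTransGen.single ⟨none, Or.inr (Or.inl ⟨k, rfl, rfl, rfl⟩), by simp⟩
      | tail _ hs ih =>
        obtain ⟨l, hl, hx⟩ := hs
        exact ih.tail ⟨l, Or.inl ⟨k, _, _, rfl, rfl, hl⟩, hx⟩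
    exact (h1 _ hk).tail ⟨none, Or.inr (Or.inr ⟨k, rfl, rfl, rfl⟩), by simp⟩

theorem orNet_accepts {ι : Type} {S K : ℕ} (N : Fin K → Net ι S) (x : ι → Bool) :
    (orNet N).Accepts x ↔ ∃ k, (N k).Accepts x := by
  constructor
  · intro h
    by_contra hcon
    push Not at hcon
    have inv : ∀ q, ReflTransGen ((orNet N).Linked x) (nSrc S K) q →
        q = nSrc S K ∨ ∃ k a, q = nd k a ∧ ReflTransGen ((N k).Linked x) (N k).src a := by
      intro q hq
      induction hq with
      | refl => exact Or.inl rfl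
      | tail _ hs ih =>
        obtain ⟨l, hl, hx⟩ := hs
        rcases hl with (⟨k, a, b, h1, h2, h3⟩ | ⟨k, h1, h2, h3⟩ | ⟨k, h1, h2, h3⟩) |
          (⟨k, a, b, h1, h2, h3⟩ | ⟨k, h1, h2, h3⟩ | ⟨k, h1, h2, h3⟩)
        · simp only at h1 h2 h3
          rcases ih with ih | ⟨k', a', ih, ih2⟩
          · exact absurd (h1.symm.trans ih) (nd_ne_src k a)
          · obtain ⟨rfl, rfl⟩ := nd_inj (h1.symm.trans ih)
            exact Or.inr ⟨k, b, h2, ih2.tail ⟨l, Or.inl h3, hx⟩⟩
        · exact Or.inr ⟨k, _, h2, ReflTransGen.refl⟩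
        · simp only at h1 h2 h3
          rcases ih with ih | ⟨k', a', ih, ih2⟩
          · exact absurd (h1.symm.trans ih) (nd_ne_src k _)
          · obtain ⟨rfl, rfl⟩ := nd_inj (h1.symm.trans ih)
            exact absurd ih2 (hcon k)
        · simp only at h1 h2 h3
          rcases ih with ih | ⟨k', a', ih, ih2⟩
          · exact absurd (h2.symm.trans ih) (nd_ne_src k b)
          · obtain ⟨rfl, rfl⟩ := nd_inj (h2.symm.trans ih)
            exact Or.inr ⟨k, a, h1, ih2.tail ⟨l, Or.inr h3, hx⟩⟩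
        · exact Or.inl h1
        · simp only at h1 h2 h3
          rcases ih with ih | ⟨k', a', ih, ih2⟩
          · exact absurd (h2.symm.trans ih).symm (src_ne_tgt S K)
          · exact absurd (h2.symm.trans ih).symm (nd_ne_tgt k' a')
    rcases inv _ h with h1 | ⟨k, a, h1, _⟩
    · exact src_ne_tgt S K h1.symm
    · exact nd_ne_tgt k a h1.symm
  · rintro ⟨k, hk⟩
    have h1 : ∀ a, ReflTransGen ((N k).Linked x) (N k).src a →
        ReflTransGen ((orNet N).Linked x) (nSrc S K) (nd k a) := by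
      intro a ha
      induction ha with
      | refl => exact ReflTransGen.single ⟨none, Or.inl (Or.inr (Or.inl ⟨k, rfl, rfl, rfl⟩)), by simp⟩
      | tail _ hs ih =>
        obtain ⟨l, hl, hx⟩ := hs
        rcases hl with hl | hl
        · exact ih.tail ⟨l, Or.inl (Or.inl ⟨k, _, _, rfl, rfl, hl⟩), hx⟩
        · exact ih.tail ⟨l, Or.inr (Or.inl ⟨k, _, _, rfl, rfl, hl⟩), hx⟩
    exact (h1 _ hk).tail ⟨none, Or.inl (Or.inr (Or.inr ⟨k, rfl, rfl, rfl⟩)), by simp⟩

/-- **The disjunction of `K` networks with `S` nodes** is a network with `K S + 2` nodes. -/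
theorem exists_orNet {ι : Type} {S K : ℕ} (N : Fin K → Net ι S) :
    ∃ M : Net ι (K * S + 2), (∀ x, M.val x = true ↔ ∃ k, (N k).val x = true) ∧
      ∀ x, M.dval x = true ↔ ∃ k, (N k).dval x = true := by
  refine ⟨orNet N, fun x => ?_, fun x => ?_⟩
  · simp only [Net.val, decide_eq_true_eq]
    exact orNet_accepts N x
  · simp only [Net.dval, decide_eq_true_eq]
    exact orNet_daccepts N x

/-- the labels of a network are changed: variables may be replaced by variables or constants -/
def mapNet {ι κ : Type} {S : ℕ} (σ : ι → κ ⊕ Bool) (N : Net ι S) : Net κ S where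
  contacts := {c | ∃ l : Option ι, (c.1, c.2.1, l) ∈ N.contacts ∧
    ((l = none ∧ c.2.2 = none) ∨ (∃ e, l = some e ∧ σ e = Sum.inr true ∧ c.2.2 = none) ∨
      ∃ e e', l = some e ∧ σ e = Sum.inl e' ∧ c.2.2 = some e')}
  src := N.src
  tgt := N.tgt

/-- the input seen after the replacement -/
def sub {ι κ : Type} (σ : ι → κ ⊕ Bool) (x : κ → Bool) : ι → Bool := fun e => Sum.elim x id (σ e)

theorem mapNet_step {ι κ : Type} {S : ℕ} (σ : ι → κ ⊕ Bool) (N : Net ι S) (x : κ → Bool) (a b : Fin S) :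
    (mapNet σ N).Step x a b ↔ N.Step (sub σ x) a b := by
  constructor
  · rintro ⟨l, ⟨l', h3, h4⟩, h2⟩
    refine ⟨l', h3, ?_⟩
    rcases h4 with ⟨rfl, _⟩ | ⟨e, rfl, h5, _⟩ | ⟨e, e', rfl, h5, h6⟩
    · simp
    · intro e' he'
      rw [Option.mem_def, Option.some.injEq] at he'
      subst he'
      simp [sub, h5]
    · intro e'' he'
      rw [Option.mem_def, Option.some.injEq] at he'
      subst he'
      simp only at h6
      have h7 := h2 e' (by rw [h6]; rfl)
      simp [sub, h5, h7]
  · rintro ⟨l', h1, h2⟩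
    rcases l' with _ | e
    · exact ⟨none, ⟨none, h1, Or.inl ⟨rfl, rfl⟩⟩, by simp⟩
    · have he : sub σ x e = true := h2 e rfl
      cases hσ : σ e with
      | inl e' =>
        refine ⟨some e', ⟨_, h1, Or.inr (Or.inr ⟨e, e', rfl, hσ, rfl⟩)⟩, ?_⟩
        intro e'' he''
        rw [Option.mem_def, Option.some.injEq] at he''
        subst he''
        simpa [sub, hσ] using he
      | inr c =>
        have hc : c = true := by simpa [sub, hσ] using he
        subst hc
        exact ⟨none, ⟨_, h1, Or.inr (Or.inl ⟨e, rfl, hσ, rfl⟩)⟩, by simp⟩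

theorem linked_iff_step {ι : Type} {S : ℕ} (N : Net ι S) (x : ι → Bool) (a b : Fin S) :
    N.Linked x a b ↔ N.Step x a b ∨ N.Step x b a := by
  constructor
  · rintro ⟨l, h1 | h1, h2⟩
    · exact Or.inl ⟨l, h1, h2⟩
    · exact Or.inr ⟨l, h1, h2⟩
  · rintro (⟨l, h1, h2⟩ | ⟨l, h1, h2⟩)
    · exact ⟨l, Or.inl h1, h2⟩
    · exact ⟨l, Or.inr h1, h2⟩

theorem mapNet_dval {ι κ : Type} {S : ℕ} (σ : ι → κ ⊕ Bool) (N : Net ι S) (x : κ → Bool) :
    (mapNet σ N).dval x = N.dval (sub σ x) := by
  unfold Net.dval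
  refine decide_eq_decide.mpr ?_
  unfold Net.DAccepts
  have : (mapNet σ N).Step x = N.Step (sub σ x) := by
    funext a b; exact propext (mapNet_step σ N x a b)
  rw [this]; rfl

theorem mapNet_val {ι κ : Type} {S : ℕ} (σ : ι → κ ⊕ Bool) (N : Net ι S) (x : κ → Bool) :
    (mapNet σ N).val x = N.val (sub σ x) := by
  unfold Net.val
  refine decide_eq_decide.mpr ?_
  unfold Net.Accepts
  have : (mapNet σ N).Linked x = N.Linked (sub σ x) := by
    funext a b
    refine propext ?_
    rw [linked_iff_step, linked_iff_step, mapNet_step, mapNet_step]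
  rw [this]; rfl

end Pool.Agent.NTR
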