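import Pool.Agent.NTR.GenOut
import Pool.Agent.NTR.OrNet
import Pool.Agent.TeleNeg.PathFinal

/-!
# The functions computed by monotone networks with `S` nodes form a class; directed connectivity
-/

namespace Pool.Agent.NTR.Gen

open Pool.Agent.TeleNeg Finset

/-- The functions computed by monotone switching networks (undirected contacts) with `S` nodes. -/
def netClass (S : ℕ) : MonoClass where
  mem ι F := ∃ N : Net ι S, ∀ x, N.val x = F x
  mono := by
    rintro ι F ⟨N, hN⟩ x y hxy
    rw [← hN, ← hN]
    cases h : N.val x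
    · exact Bool.false_le _
    · have h1 : N.Accepts x := by simpa [Net.val] using h
      have h2 : N.Accepts y := N.accepts_mono (fun e he => by
        have := hxy e
        rw [he] at this
        exact top_le_iff.1 this) h1
      simp [Net.val, h2]
  subst := by
    rintro ι κ F φ ⟨N, hN⟩
    refine ⟨mapNet φ N, fun y => ?_⟩
    rw [mapNet_val, hN]
    rfl

/-- The functions computed by directed monotone networks with `S` nodes. -/
def dnetClass (S : ℕ) : MonoClass where
  mem ι F := ∃ N : Net ι S, ∀ x, N.dval x = F x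
  mono := by
    rintro ι F ⟨N, hN⟩ x y hxy
    rw [← hN, ← hN]
    cases h : N.dval x
    · exact Bool.false_le _
    · have h1 : N.DAccepts x := by simpa [Net.dval] using h
      have h2 : N.DAccepts y := by
        have h3 : ∀ a b, N.Step x a b → N.Step y a b := by
          rintro a b ⟨l, hl, hx⟩
          refine ⟨l, hl, fun e he => ?_⟩
          have := hxy e
          rw [hx e he] at this
          exact top_le_iff.1 this
        exact Relation.ReflTransGen.lift id h3 _ _ h1
      simp [Net.dval, h2]
  subst := by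
    rintro ι κ F φ ⟨N, hN⟩
    refine ⟨mapNet φ N, fun y => ?_⟩
    rw [mapNet_dval, hN]
    rfl

/-- A network over the variables is a network over variables and NOT outputs. -/
theorem labels_nil_sub {ι : Type} (x : ι → Bool) :
    NTR.sub (fun e : ι => (Sum.inl (Sum.inl e) : (ι ⊕ ℕ) ⊕ Bool)) (labels x []) = x := by
  funext e
  rfl

/-- **One block, switching networks.** If `K` monotone switching networks with `S` nodes compute
together (by their OR) directed connectivity in six parallel layered digraphs with `2 ^ p` layers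
of `2 ^ (5 p)` vertices, then `2 ^ (2 p ^ 2) ≤ 2 ^ (4 p + 6) * (6 * (K * S + 2))`. -/
theorem reach_lower {p S K : ℕ} (N : Fin K → Net (Arc 6 (2 ^ p - 1) (2 ^ (5 * p))) S)
    (h : ∀ x, (∃ k, (N k).val x = true) ↔ Reach x) :
    2 ^ (2 * p ^ 2) ≤ 2 ^ (4 * p + 6) * (6 * (K * S + 2)) := by
  obtain ⟨M, hM, -⟩ := exists_orNet N
  let D : Device (Arc 6 (2 ^ p - 1) (2 ^ (5 * p))) (K * S + 2) 1 :=
    { levels := []
      outs := fun _ => mapNet (fun e => Sum.inl (Sum.inl e)) M }
  refine path_final 6 p (K * S + 2) 1 D (fun v => v 0) (fun x => ?_) ?_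
  · show (mapNet (fun e => Sum.inl (Sum.inl e)) M).val (labels x []) = true ↔ Reach x
    rw [mapNet_val, labels_nil_sub, hM]
    exact h x
  · simp [D, Device.weight]

/-- **Directed connectivity with NOT gates fed by switching networks.** -/
theorem transfer_reach {p S r a : ℕ}
    (ls : List (List ((Fin r × Arc 6 (2 ^ p - 1) (2 ^ (5 * p)) ⊕ ℕ → Bool) → Bool)))
    (hls : ∀ l ∈ ls, ∀ F ∈ l, (netClass S).mem _ F)
    (P : List Bool → (Fin r × Arc 6 (2 ^ p - 1) (2 ^ (5 * p)) → Bool) → Bool)
    (hP : ∀ v, (netClass S).mem _ (P v)) (har : a < r) (ha : ChangesLe (fun x => nots x ls []) a)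
    (hf : ∀ x, P (nots x ls []) x = true ↔ ∃ i, Reach (fun e => x (i, e))) :
    2 ^ (2 * p ^ 2) ≤ 2 ^ (4 * p + 6) * (6 * (((ls.map List.length).sum + 1) * S + 2)) := by
  classical
  have h0 : ¬ Reach (fun _ : Arc 6 (2 ^ p - 1) (2 ^ (5 * p)) => false) := by
    have := not_reach_of_cuts (∅ : Set (Arc 6 (2 ^ p - 1) (2 ^ (5 * p)))) (fun _ => ∅)
      (fun e he => absurd he (Set.notMem_empty _))
    intro hR
    apply this
    have he : (inp (∅ : Set (Arc 6 (2 ^ p - 1) (2 ^ (5 * p))))) = fun _ => false := by
      funext e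
      simp [inp]
    rw [he]
    exact hR
  obtain ⟨Gs, hlen, hmem, hG⟩ := transfer (netClass S)
    (fun x : Arc 6 (2 ^ p - 1) (2 ^ (5 * p)) → Bool => decide (Reach x)) (by simpa using h0) ls hls
    P hP har ha (fun x => by rw [hf]; simp)
  choose N hN using fun k : Fin Gs.length => hmem (Gs.get k) (List.get_mem _ _)
  have h1 := reach_lower N (fun x => by
    have h2 := hG x
    simp only [decide_eq_true_eq] at h2
    rw [h2]
    constructor
    · rintro ⟨k, hk⟩
      exact ⟨Gs.get k, List.get_mem _ _, by rw [← hN k]; exact hk⟩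
    · rintro ⟨G, hG, hGx⟩
      obtain ⟨k, rfl⟩ := List.get_of_mem hG
      exact ⟨k, by rw [hN k]; exact hGx⟩)
  refine h1.trans ?_
  gcongr

end Pool.Agent.NTR.Gen
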