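import Pool.Agent.NTR.Has

/-!
# Thresholds of functions computed by circuits without NOT gates
-/

set_option autoImplicit false

namespace Pool.Agent.NTR

open Pool.Agent.NegLim

/-- All functions computed at the wires of a circuit without NOT gates can be added. -/
lemma has_circuit {V : Type} (M : Circuit V) (hneg : M.negs = 0) {n : ℕ}
    {Φ : Set ((V → Bool) → Prop)} (hb : bas V ⊆ Φ) (h : Has n Φ) :
    ∃ Ψ : Set ((V → Bool) → Prop), Φ ⊆ Ψ ∧ Has (n + M.length) Ψ ∧
      ∀ w : Wire V, (fun x => M.val x w = true) ∈ Ψ := by
  induction M using List.reverseRecOn with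
  | nil =>
    refine ⟨Φ, Set.Subset.refl _, h, fun w => hb ?_⟩
    cases w with
    | var v => exact Or.inl ⟨v, by funext x; simp [Circuit.val, Wire.val]⟩
    | const b =>
      cases b with
      | true => exact Or.inr (Or.inl (by funext x; simp [Circuit.val, Wire.val]))
      | false => exact Or.inr (Or.inr (by funext x; simp [Circuit.val, Wire.val]))
    | gate i => exact Or.inr (Or.inr (by funext x; simp [Circuit.val, Wire.val, gateVals]))
  | append_singleton M a ih =>
    have hneg' : Circuit.negs M = 0 ∧ a.isNot = false := by
      unfold Circuit.negs at hneg ⊢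
      rw [List.countP_append] at hneg
      refine ⟨by omega, ?_⟩
      by_contra hcon
      have h1 : a.isNot = true := by simpa using hcon
      have h2 : List.countP Gate.isNot [a] = 1 := by simp [h1]
      omega
    obtain ⟨Ψ, hΨ, hHas, hw⟩ := ih hneg'.1
    -- the function of the new gate
    obtain ⟨E, hE, hEv⟩ : ∃ E : (V → Bool) → Prop, Has (n + M.length + 1) (insert E Ψ) ∧
        ∀ x, a.val x (gateVals x M []) = true ↔ E x := by
      cases a with
      | and a b =>
        refine ⟨_, hHas.and (hw a) (hw b), fun x => ?_⟩
        rw [Gate.val, Bool.and_eq_true]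
        rfl
      | or a b =>
        refine ⟨_, hHas.or (hw a) (hw b), fun x => ?_⟩
        rw [Gate.val, Bool.or_eq_true]
        rfl
      | not a => exact absurd hneg'.2 (by simp [Gate.isNot])
    refine ⟨insert E Ψ, hΨ.trans (Set.subset_insert _ _), ?_, fun w => ?_⟩
    · exact hE.mono (by rw [List.length_append, List.length_singleton]; omega)
        (Set.Subset.refl _)
    · cases w with
      | var v =>
        refine Or.inr (hΨ (hb (Or.inl ⟨v, ?_⟩)))
        funext x; simp [Circuit.val, Wire.val]
      | const b =>
        refine Or.inr (hΨ (hb (Or.inr ?_)))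
        cases b with
        | true => exact Or.inl (by funext x; simp [Circuit.val, Wire.val])
        | false => exact Or.inr (by funext x; simp [Circuit.val, Wire.val])
      | gate i =>
        rcases lt_trichotomy i M.length with hi | hi | hi
        · refine Or.inr ?_
          have : (fun x => Circuit.val (M ++ [a]) x (.gate i) = true)
              = fun x => Circuit.val M x (.gate i) = true := by
            funext x
            unfold Circuit.val
            rw [gv_snoc, wv_append]
            rw [gv_length]
            simpa [Bel] using hi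
          rw [this]
          exact hw _
        · refine Or.inl ?_
          funext x
          refine propext ?_
          rw [← hEv x]
          have hl : (gateVals x M []).length = M.length := by rw [gv_length]; simp
          unfold Circuit.val
          rw [gv_snoc]
          simp only [Wire.val]
          rw [List.getD_eq_getElem _ _ (by rw [List.length_append, hl, hi]; simp),
            List.getElem_append_right (by rw [hl, hi])]
          simp [hl, hi]
        · refine Or.inr (hΨ (hb (Or.inr (Or.inr ?_))))
          funext x
          have hl : (gateVals x M []).length = M.length := by rw [gv_length]; simp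
          unfold Circuit.val
          rw [gv_snoc]
          simp only [Wire.val]
          rw [List.getD_eq_default _ _ (by rw [List.length_append, hl]; simp; omega)]
          simp

/-- At least `j` of the functions in `L` are true. -/
def Thr {V : Type} (L : List ((V → Bool) → Bool)) (j : ℕ) (x : V → Bool) : Prop :=
  j ≤ L.countP fun H => H x

lemma thr_cons {V : Type} (H : (V → Bool) → Bool) (L : List ((V → Bool) → Bool)) (j : ℕ)
    (x : V → Bool) : Thr (H :: L) (j + 1) x ↔ Thr L (j + 1) x ∨ (Thr L j x ∧ H x = true) := by
  unfold Thr
  rw [List.countP_cons]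
  cases H x
  · simp
  · simp
    omega

lemma has_thresh {V : Type} (k : ℕ) (L : List ((V → Bool) → Bool)) {n : ℕ}
    {Φ : Set ((V → Bool) → Prop)} (hb : bas V ⊆ Φ) (h : Has n Φ)
    (hL : ∀ H ∈ L, (fun x => H x = true) ∈ Φ) :
    Has (n + 2 * k * L.length) (Φ ∪ {F | ∃ j ≤ k, F = Thr L j}) := by
  induction L with
  | nil =>
    refine h.mono (by simp) ?_
    rintro E (hE | ⟨j, hj, rfl⟩)
    · exact hE
    · refine hb (Or.inr ?_)
      cases j with
      | zero => exact Or.inl (by funext x; simp [Thr])
      | succ j => exact Or.inr (by funext x; simp [Thr])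
  | cons H L ih =>
    have ih' := ih fun G hG => hL G (List.mem_cons_of_mem _ hG)
    have h1 := ih'.family (c := 2) (Finset.range k) (fun j => Thr (H :: L) (j + 1)) (by
      intro j hj m Ψ hΨ hm
      have hj' : j < k := Finset.mem_range.mp hj
      have e1 : Thr L j ∈ Ψ := hΨ (Or.inr ⟨j, hj'.le, rfl⟩)
      have e2 : Thr L (j + 1) ∈ Ψ := hΨ (Or.inr ⟨j + 1, hj', rfl⟩)
      have e3 : (fun x => H x = true) ∈ Ψ := hΨ (Or.inl (hL H (by simp)))
      have h2 := (hm.and e1 e3).or (Or.inr e2) (Or.inl rfl)
      refine h2.mono (by omega) ?_
      rintro E (rfl | hE)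
      · refine Or.inl ?_
        funext x
        exact propext (thr_cons H L j x)
      · exact Or.inr (Or.inr hE))
    refine h1.mono ?_ ?_
    · rw [Finset.card_range, List.length_cons]
      ring_nf
      omega
    · rintro E (hE | ⟨j, hj, rfl⟩)
      · exact Or.inl (Or.inl hE)
      · cases j with
        | zero =>
          refine Or.inl (Or.inl (hb (Or.inr (Or.inl ?_))))
          funext x
          simp [Thr]
        | succ j => exact Or.inr ⟨j, Finset.mem_range.mpr (by omega), rfl⟩

/-- **Thresholds.** A threshold of `k` functions computed by circuits without NOT gates of size at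
most `s` is computed by a circuit without NOT gates with at most `k (s + 2 k)` gates. -/
theorem thresh_circuit {V : Type} (g : (V → Bool) → Bool) (L : List ((V → Bool) → Bool))
    (s θ : ℕ) (hL : ∀ H ∈ L, ∃ (M : Circuit V) (o : Wire V), M.negs = 0 ∧ M.size ≤ s ∧
      ∀ u, M.val u o = H u) (hg : ∀ u, g u = true ↔ θ ≤ L.countP fun H => H u) :
    ∃ (M : Circuit V) (o : Wire V), M.negs = 0 ∧ M.size ≤ L.length * (s + 2 * L.length) ∧
      ∀ u, M.val u o = g u := by
  have h1 : ∀ L : List ((V → Bool) → Bool), (∀ H ∈ L, ∃ (M : Circuit V) (o : Wire V),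
      M.negs = 0 ∧ M.size ≤ s ∧ ∀ u, M.val u o = H u) →
      ∃ Φ : Set ((V → Bool) → Prop), bas V ⊆ Φ ∧ Has (s * L.length) Φ ∧
        ∀ H ∈ L, (fun x => H x = true) ∈ Φ := by
    intro L
    induction L with
    | nil => exact fun _ => ⟨bas V, Set.Subset.refl _, (has_bas V).mono (by simp)
        (Set.Subset.refl _), by simp⟩
    | cons H L ih =>
      intro hL
      obtain ⟨Φ, hb, hH, hmem⟩ := ih fun G hG => hL G (List.mem_cons_of_mem _ hG)
      obtain ⟨M, o, hneg, hsz, hM⟩ := hL H (by simp)
      obtain ⟨Ψ, hΨ, hHas, hw⟩ := has_circuit M hneg hb hH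
      refine ⟨Ψ, hb.trans hΨ, hHas.mono ?_ (Set.Subset.refl _), ?_⟩
      · rw [List.length_cons]
        have : M.length ≤ s := hsz
        calc s * L.length + M.length ≤ s * L.length + s := by omega
          _ = s * (L.length + 1) := by ring
      · intro G hG
        rcases List.mem_cons.mp hG with rfl | hG
        · have h2 := hw o
          have h3 : (fun x => Circuit.val M x o = true) = fun x => G x = true := by
            funext x
            rw [hM]
          rwa [h3] at h2
        · exact hΨ (hmem G hG)
  obtain ⟨Φ, hb, hH, hmem⟩ := h1 L hL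
  rcases Nat.lt_or_ge L.length θ with hθ | hθ
  · refine ⟨[], .const false, by simp [Circuit.negs], by simp [Circuit.size], fun u => ?_⟩
    have h2 : ¬ g u = true := by
      rw [hg u]
      have := List.countP_le_length (p := fun H => H u) (l := L)
      omega
    have h3 : g u = false := by simpa using h2
    rw [h3]
    rfl
  · obtain ⟨C, hneg, hsz, hC⟩ := has_thresh L.length L hb hH hmem
    obtain ⟨o, -, ho⟩ := hC (Thr L θ) (Or.inr ⟨θ, hθ, rfl⟩)
    refine ⟨C, o, hneg, hsz.trans ?_, fun u => ?_⟩
    · apply le_of_eq
      ring
    · rw [Bool.eq_iff_iff, ho u, hg u]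
      rfl

end Pool.Agent.NTR
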