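import Pool.Agent.NTR.Boost
import Pool.Agent.NTR.Thresh

/-!
# Hard distributions from worst-case hardness without NOT gates
-/

namespace Pool.Agent.NTR

open Pool.Agent.NegLim Finset
open scoped BigOperators

lemma sum_filter_bv {X : Type} [Fintype X] (D : X → ℝ) (H : X → Bool) :
    ∑ u with H u = true, D u = ∑ u, D u * bv (H u) := by
  rw [Finset.sum_filter]
  refine Finset.sum_congr rfl fun u _ => ?_
  cases H u <;> simp [bv]

open Classical in
/-- **Hard distributions.** If circuits without NOT gates for `g` have more than `k (s + 2 k)`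
gates, `k ≥ 3 b / δ²`, then some distributions on the zeros and on the ones of `g` are
indistinguishable, up to `δ`, for circuits without NOT gates with at most `s` gates. -/
theorem hard_dist {β : Type} [Fintype β] (g : (β → Bool) → Bool) {δ : ℝ} (h0 : 0 < δ)
    (h1 : δ < 1) (k s : ℕ) (hk : 3 * (Fintype.card β : ℝ) ≤ k * δ ^ 2)
    (hM : ∀ (M : Circuit β) (o : Wire β), M.negs = 0 → (∀ u, M.val u o = g u) →
      k * (s + 2 * k) < M.size) :
    ∃ D₀ D₁ : (β → Bool) → ℝ, (∀ u, 0 ≤ D₀ u) ∧ ∑ u, D₀ u = 1 ∧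
      (∀ u, D₀ u ≠ 0 → g u = false) ∧ (∀ u, 0 ≤ D₁ u) ∧ ∑ u, D₁ u = 1 ∧
      (∀ u, D₁ u ≠ 0 → g u = true) ∧
      ∀ (M : Circuit β) (o : Wire β), M.negs = 0 → M.size ≤ s →
        ∑ u with M.val u o = true, D₁ u ≤ ∑ u with M.val u o = true, D₀ u + δ := by
  by_contra hcon
  push Not at hcon
  set S : Set ((β → Bool) → Bool) := {H | ∃ (M : Circuit β) (o : Wire β), M.negs = 0 ∧
    M.size ≤ s ∧ ∀ u, M.val u o = H u} with hS
  have hAdv : Adv g S δ := by
    intro D₀ D₁ e1 e2 e3 e4 e5 e6
    obtain ⟨M, o, e7, e8, e9⟩ := hcon D₀ D₁ e1 e2 e3 e4 e5 e6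
    refine ⟨fun u => M.val u o, ⟨M, o, e7, e8, fun u => rfl⟩, ?_⟩
    rw [← sum_filter_bv, ← sum_filter_bv]
    exact e9
  have hne : (prs g).Nonempty := by
    by_contra hemp
    rw [Finset.not_nonempty_iff_eq_empty] at hemp
    have h2 : ∀ Y Z, ¬ (g Y = true ∧ g Z = false) := by
      intro Y Z hYZ
      have : (Y, Z) ∈ prs g := mem_prs.mpr hYZ
      rw [hemp] at this
      exact absurd this (Finset.notMem_empty _)
    by_cases h3 : g (fun _ => false) = true
    · have h4 := hM [] (.const true) (by simp [Circuit.negs]) (fun u => by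
        have h5 := h2 (fun _ => false) u
        have h6 : g u = true := by
          by_contra h7
          exact h5 ⟨h3, by simpa using h7⟩
        rw [h6]; rfl)
      exact absurd h4 (by simp [Circuit.size])
    · have h4 := hM [] (.const false) (by simp [Circuit.negs]) (fun u => by
        have h5 := h2 u (fun _ => false)
        have h6 : g u = false := by
          by_contra h7
          exact h5 ⟨by simpa using h7, by simpa using h3⟩
        rw [h6]; rfl)
      exact absurd h4 (by simp [Circuit.size])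
  obtain ⟨L, θ, hL, hLS, hg⟩ := boosting h0 h1 hAdv hne k (boost_number g hne h0 h1 k hk)
  obtain ⟨M, o, e1, e2, e3⟩ := thresh_circuit g L s θ (fun H hH => hLS H hH) hg
  have e4 := hM M o e1 e3
  rw [hL] at e2
  exact absurd e2 (not_le.mpr e4)

end Pool.Agent.NTR
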