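import Pool.Agent.NTR.Self

set_option autoImplicit false

/-!
# Self-addressing selectors: restriction to a conjunction of copies

`SelfAnd`: in one of the two halves all `r` copies of `g`, whose variables are the values of the
self-addressing selectors, are `1`. For every set `U` of variables, `r' = |U| / (4 |B| L)`: the
variables outside `U` can be made constant such that the function becomes the conjunction of `r'`
copies of `g`.
-/

namespace Pool.Agent.NTR

/-- In one of the two halves all `r` copies of `g` are `1`; the variables of the copies are the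
values of the self-addressing selectors: each reads one of all the variables. -/
def SelfAnd {r L : ℕ} {β : Type} (code : SelfVar r L β → Fin L → Bool) (g : (β → Bool) → Bool)
    (x : SelfVar r L β → Bool) : Prop :=
  ∃ h : Bool, ∀ i : Fin r, ∃ u : β → Bool, (∀ b, u b = true ↔ selfVal code x ((h, i), b)) ∧
    g u = true

theorem exists_selfAnd_restriction {r L : ℕ} {β : Type} [Fintype β] [Nonempty β] (hL : 2 ≤ L)
    (code : SelfVar r L β → Fin L → Bool) (hcode : Function.Injective code)
    (g : (β → Bool) → Bool) (h0 : g (fun _ => false) = false) (h1 : g (fun _ => true) = true)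
    (U : Finset (SelfVar r L β)) (r' : ℕ) (hr : r' * (4 * Fintype.card β * L) ≤ U.card) :
    ∃ φ : SelfVar r L β → (Fin r' × β) ⊕ Bool,
      (∀ v, v ∉ U → ∃ c, φ v = .inr c) ∧ (∀ v v' q, φ v = .inl q → φ v' = .inl q → v = v') ∧
      ∀ y : Fin r' × β → Bool, SelfAnd code g (fun v => Sum.elim y id (φ v)) ↔
        ∀ i : Fin r', g (fun b => y (i, b)) = true := by
  classical
  have hB : 0 < Fintype.card β := Fintype.card_pos
  -- choice of the address position `ls`
  obtain ⟨ls, hls⟩ : ∃ ls : Fin L, U.card ≤ 2 * (U.filter fun v => v.2.1 ≠ ls).card := by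
    set l0 : Fin L := ⟨0, by omega⟩ with hl0
    set l1 : Fin L := ⟨1, by omega⟩ with hl1
    have h01 : l0 ≠ l1 := by
      intro h
      have := congrArg Fin.val h
      simp [hl0, hl1] at this
    have hsub : U ⊆ (U.filter fun v => v.2.1 ≠ l0) ∪ (U.filter fun v => v.2.1 ≠ l1) := by
      intro v hv
      rw [Finset.mem_union, Finset.mem_filter, Finset.mem_filter]
      by_cases h : v.2.1 = l0
      · exact Or.inr ⟨hv, by rw [h]; exact h01⟩
      · exact Or.inl ⟨hv, h⟩
    have h1 := (Finset.card_le_card hsub).trans (Finset.card_union_le _ _)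
    rcases le_total (U.filter fun v => v.2.1 ≠ l0).card (U.filter fun v => v.2.1 ≠ l1).card
      with h | h
    · exact ⟨l1, by omega⟩
    · exact ⟨l0, by omega⟩
  -- choice of the half
  obtain ⟨h, hh⟩ : ∃ h : Bool, U.card ≤
      4 * (U.filter fun v => v.2.1 ≠ ls ∧ v.1.1.1 ≠ h).card := by
    have hsub : (U.filter fun v => v.2.1 ≠ ls) ⊆
        (U.filter fun v => v.2.1 ≠ ls ∧ v.1.1.1 ≠ true) ∪
        (U.filter fun v => v.2.1 ≠ ls ∧ v.1.1.1 ≠ false) := by
      intro v hv
      rw [Finset.mem_filter] at hv
      rw [Finset.mem_union, Finset.mem_filter, Finset.mem_filter]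
      cases hb : v.1.1.1
      · exact Or.inl ⟨hv.1, hv.2, by simp⟩
      · exact Or.inr ⟨hv.1, hv.2, by simp⟩
    have h1 := (Finset.card_le_card hsub).trans (Finset.card_union_le _ _)
    rcases le_total (U.filter fun v => v.2.1 ≠ ls ∧ v.1.1.1 ≠ true).card
      (U.filter fun v => v.2.1 ≠ ls ∧ v.1.1.1 ≠ false).card with h | h
    · exact ⟨false, by omega⟩
    · exact ⟨true, by omega⟩
  set W := U.filter fun v => v.2.1 ≠ ls ∧ v.1.1.1 ≠ h with hW
  have hWc : r' * Fintype.card β ≤ W.card := by
    have h1 : r' * Fintype.card β * 4 ≤ r' * (4 * Fintype.card β * L) := by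
      have : r' * Fintype.card β * 4 * 1 ≤ r' * Fintype.card β * 4 * L :=
        Nat.mul_le_mul_left _ (by omega)
      calc r' * Fintype.card β * 4 = r' * Fintype.card β * 4 * 1 := by ring
        _ ≤ r' * Fintype.card β * 4 * L := this
        _ = r' * (4 * Fintype.card β * L) := by ring
    omega
  have hrr : r' ≤ r := by
    have h1 : U.card ≤ r * (4 * Fintype.card β * L) := by
      refine (Finset.card_le_univ _).trans (le_of_eq ?_)
      simp only [Fintype.card_prod, Fintype.card_bool, Fintype.card_fin]
      ring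
    have h2 : 0 < 4 * Fintype.card β * L := by positivity
    exact Nat.le_of_mul_le_mul_right (hr.trans h1) h2
  obtain ⟨p⟩ : Nonempty (Fin r' × β ↪ {v // v ∈ W}) := by
    apply Function.Embedding.nonempty_of_card_le
    rw [Fintype.card_coe, Fintype.card_prod, Fintype.card_fin]
    exact hWc
  set e : Fin r' → Bool × Fin r := fun i => (h, Fin.castLE hrr i) with he
  have heinj : Function.Injective e := by
    intro i i' hii
    exact Fin.castLE_injective hrr (congrArg Prod.snd hii)
  have hpW : ∀ q, ((p q : SelfVar r L β)).2.1 ≠ ls ∧ ((p q : SelfVar r L β)).1.1.1 ≠ h := fun q =>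
    (Finset.mem_filter.1 (p q).2).2
  have hpinj : ∀ q q', (p q : SelfVar r L β) = p q' → q = q' := fun q q' hqq =>
    p.injective (Subtype.ext hqq)
  -- the constants
  let κ : SelfVar r L β → Bool := fun v =>
    if hq : ∃ q : Fin r' × β, (e q.1, q.2) = v.1 then
      decide (v.2.2 = code (p hq.choose) v.2.1) else decide (v.1.1.1 = h)
  let φ : SelfVar r L β → (Fin r' × β) ⊕ Bool := fun v =>
    if hq : ∃ q : Fin r' × β, (p q : SelfVar r L β) = v then .inl hq.choose else .inr (κ v)
  have hφp : ∀ q, φ (p q) = .inl q := by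
    intro q
    have hq : ∃ q' : Fin r' × β, (p q' : SelfVar r L β) = p q := ⟨q, rfl⟩
    simp only [φ, dif_pos hq]
    rw [hpinj _ _ hq.choose_spec]
  have hφl : ∀ v q, φ v = .inl q → v = p q := by
    intro v q hv
    by_cases hq : ∃ q : Fin r' × β, (p q : SelfVar r L β) = v
    · simp only [φ, dif_pos hq] at hv
      rw [← Sum.inl.inj hv, hq.choose_spec]
    · simp only [φ, dif_neg hq] at hv
      exact absurd hv (by simp)
  have hφe : ∀ i β l c, φ ((e i, β), l, c) = .inr (decide (c = code (p (i, β)) l)) := by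
    intro i β l c
    have h1 : ¬ ∃ q : Fin r' × _, (p q : SelfVar r L _) = ((e i, β), l, c) := by
      rintro ⟨q, hq⟩
      have := (hpW q).2
      rw [hq] at this
      exact this rfl
    have h2 : ∃ q : Fin r' × _, (e q.1, q.2) = (e i, β) := ⟨(i, β), rfl⟩
    have h3 : h2.choose = (i, β) := by
      have h4 := h2.choose_spec
      have h5 := heinj (congrArg Prod.fst h4)
      have h6 := congrArg Prod.snd h4
      exact Prod.ext h5 h6
    simp only [φ, dif_neg h1, κ, dif_pos h2, h3]
  -- the half `h` outside the blocks used: constant `true`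
  have hφ1 : ∀ (i : Fin r) β l c, (∀ i', e i' ≠ (h, i)) →
      φ (((h, i), β), l, c) = .inr true := by
    intro i β l c hi
    have h1 : ¬ ∃ q : Fin r' × _, (p q : SelfVar r L _) = (((h, i), β), l, c) := by
      rintro ⟨q, hq⟩
      have := (hpW q).2
      rw [hq] at this
      exact this rfl
    have h2 : ¬ ∃ q : Fin r' × _, (e q.1, q.2) = ((h, i), β) := by
      rintro ⟨q, hq⟩
      exact hi q.1 (congrArg Prod.fst hq)
    simp only [φ, dif_neg h1, κ, dif_neg h2, decide_true]
  -- the other half: the position `ls` is constant `false`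
  have hφ0 : ∀ (h' : Bool) (i : Fin r) β c, h' ≠ h → φ (((h', i), β), ls, c) = .inr false := by
    intro h' i β c hh'
    have h1 : ¬ ∃ q : Fin r' × _, (p q : SelfVar r L _) = (((h', i), β), ls, c) := by
      rintro ⟨q, hq⟩
      have := (hpW q).1
      rw [hq] at this
      exact this rfl
    have h2 : ¬ ∃ q : Fin r' × _, (e q.1, q.2) = ((h', i), β) := by
      rintro ⟨q, hq⟩
      exact hh' (congrArg (fun z => z.1.1) hq).symm
    simp only [φ, dif_neg h1, κ, dif_neg h2, decide_eq_false hh']
  -- values of the selectors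
  have hsel : ∀ (y : Fin r' × β → Bool) i b,
      selfVal code (fun v => Sum.elim y id (φ v)) (e i, b) ↔ y (i, b) = true := by
    intro y i b
    constructor
    · rintro ⟨p', h1, h2⟩
      have h3 : p' = (p (i, b) : SelfVar r L β) := by
        apply hcode
        funext l
        have h4 := h2 l
        simp only [hφe, Sum.elim_inr, id, decide_eq_true_eq] at h4
        exact h4
      subst h3
      simpa [hφp] using h1
    · intro hy
      refine ⟨p (i, b), ?_, fun l => ?_⟩
      · simpa [hφp] using hy
      · simp only [hφe, Sum.elim_inr, id, decide_eq_true_eq]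
  have hsel1 : ∀ (y : Fin r' × β → Bool) (i : Fin r) b, (∀ i', e i' ≠ (h, i)) →
      selfVal code (fun v => Sum.elim y id (φ v)) ((h, i), b) := by
    intro y i b hi
    refine ⟨(((h, i), b), ls, true), ?_, fun l => ?_⟩
    · simp only [hφ1 i b ls true hi, Sum.elim_inr, id]
    · simp only [hφ1 i b l _ hi, Sum.elim_inr, id]
  have hsel0 : ∀ (y : Fin r' × β → Bool) (h' : Bool) (i : Fin r) b, h' ≠ h →
      ¬ selfVal code (fun v => Sum.elim y id (φ v)) ((h', i), b) := by
    rintro y h' i b hh' ⟨p', h1, h2⟩
    have h3 := h2 ls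
    simp only [hφ0 h' i b _ hh', Sum.elim_inr, id] at h3
    exact absurd h3 (by simp)
  refine ⟨φ, ?_, ?_, fun y => ⟨?_, ?_⟩⟩
  · intro v hv
    have h1 : ¬ ∃ q : Fin r' × β, (p q : SelfVar r L β) = v := by
      rintro ⟨q, rfl⟩
      exact hv (Finset.mem_filter.1 (p q).2).1
    exact ⟨κ v, by simp only [φ, dif_neg h1]⟩
  · intro v v' q hv hv'
    rw [hφl v q hv, hφl v' q hv']
  · rintro ⟨h', hall⟩ i
    by_cases hh' : h' = h
    · subst hh'
      obtain ⟨u, hu, hgu⟩ := hall (Fin.castLE hrr i)
      have huy : u = fun b => y (i, b) := by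
        funext b
        rw [Bool.eq_iff_iff, hu b]
        exact hsel y i b
      rwa [huy] at hgu
    · obtain ⟨u, hu, hgu⟩ := hall (Fin.castLE hrr i)
      have hu0 : u = fun _ => false := by
        funext b
        have := hsel0 y h' (Fin.castLE hrr i) b hh'
        rw [← hu b] at this
        simpa using this
      rw [hu0, h0] at hgu
      exact absurd hgu Bool.false_ne_true
  · intro hall
    refine ⟨h, fun i => ?_⟩
    by_cases hi : ∃ i', e i' = (h, i)
    · obtain ⟨i', hi'⟩ := hi
      refine ⟨fun b => y (i', b), fun b => ?_, hall i'⟩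
      rw [← hi']
      exact (hsel y i' b).symm
    · push Not at hi
      exact ⟨fun _ => true, fun b => ⟨fun _ => hsel1 y i b hi, fun _ => rfl⟩, h1⟩

theorem selfVal_mono' {r L : ℕ} {β : Type} (code : SelfVar r L β → Fin L → Bool)
    {x y : SelfVar r L β → Bool} (hxy : x ≤ y) (k : (Bool × Fin r) × β)
    (h : selfVal code x k) : selfVal code y k := by
  obtain ⟨p, hp, hl⟩ := h
  exact ⟨p, Bool.le_iff_imp.mp (hxy p) hp, fun l => Bool.le_iff_imp.mp (hxy _) (hl l)⟩

theorem selfAnd_mono {r L : ℕ} {β : Type} (code : SelfVar r L β → Fin L → Bool)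
    (g : (β → Bool) → Bool) (hg : Monotone g) {x y : SelfVar r L β → Bool} (hxy : x ≤ y)
    (h : SelfAnd code g x) : SelfAnd code g y := by
  classical
  obtain ⟨h', hall⟩ := h
  refine ⟨h', fun i => ?_⟩
  obtain ⟨u, hu, hgu⟩ := hall i
  refine ⟨fun b => decide (selfVal code y ((h', i), b)), fun b => by simp, ?_⟩
  refine Bool.le_iff_imp.mp (hg fun b => ?_) hgu
  rw [Bool.le_iff_imp]
  intro hb
  exact decide_eq_true (selfVal_mono' code hxy _ ((hu b).1 hb))

end Pool.Agent.NTR
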