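import Mathlib

/-!
# NOT gates fed by a class of monotone functions: definitions
-/

namespace Pool.Agent.NTR.Gen

open Finset

/-- A class of monotone Boolean functions closed under replacing variables by variables or
constants (`Sum.inl k` is the variable `k`, `Sum.inr c` the constant `c`). -/
structure MonoClass : Type 1 where
  mem : (ι : Type) → ((ι → Bool) → Bool) → Prop
  mono : ∀ (ι : Type) (F : (ι → Bool) → Bool), mem ι F → Monotone F
  subst : ∀ (ι κ : Type) (F : (ι → Bool) → Bool) (φ : ι → κ ⊕ Bool), mem ι F →
    mem κ fun y => F fun i => Sum.elim y id (φ i)

/-- The values seen by a function which may read the variables `ι` and the outputs, listed in `v`,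
of NOT gates evaluated before (an output which is not in the list counts as `false`). -/
def seen {ι : Type} (x : ι → Bool) (v : List Bool) : ι ⊕ ℕ → Bool :=
  Sum.elim x fun i => v.getD i false

/-- The outputs of levels of NOT gates: the input of each gate is a function of the variables and
of the outputs of the gates of earlier levels (the gates are numbered consecutively). -/
def nots {ι : Type} (x : ι → Bool) : List (List ((ι ⊕ ℕ → Bool) → Bool)) → List Bool → List Bool
  | [], v => v
  | l :: ls, v => nots x ls (v ++ l.map fun F => !F (seen x v))

/-- Along every increasing sequence of inputs `w` changes at most `a` times. -/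
def ChangesLe {ι W : Type} (w : (ι → Bool) → W) (a : ℕ) : Prop :=
  ∀ x : ℕ → ι → Bool, Monotone x → ∀ n : ℕ,
    {k | k < n ∧ w (x k) ≠ w (x (k + 1))}.ncard ≤ a

end Pool.Agent.NTR.Gen
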