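import Pool.Agent.NTR.Has
import Pool.Agent.TeleNeg.DirDefs

/-!
# Directed monotone networks are circuits without NOT gates
-/

set_option autoImplicit false

namespace Pool.Agent.NTR

open Pool.Agent.NegLim Pool.Agent.TeleNeg Finset

variable {ι : Type} {S : ℕ}

/-- A step of the network or no step. -/
def EStep (N : Net ι S) (a b : Fin S) (x : ι → Bool) : Prop := a = b ∨ N.Step x a b

/-- `b` can be reached from the source in `k` steps. -/
def RStep (N : Net ι S) : ℕ → Fin S → (ι → Bool) → Prop
  | 0, b, _ => b = N.src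
  | k + 1, b, x => ∃ a ∈ (univ : Finset (Fin S)), RStep N k a x ∧ EStep N a b x ∧ True

theorem rStep_mono (N : Net ι S) (x : ι → Bool) {k : ℕ} {b : Fin S} (h : RStep N k b x) :
    RStep N (k + 1) b x := ⟨b, mem_univ b, h, Or.inl rfl, trivial⟩

theorem reach_of_rStep (N : Net ι S) (x : ι → Bool) : ∀ (k : ℕ) (b : Fin S), RStep N k b x →
    Relation.ReflTransGen (N.Step x) N.src b := by
  intro k
  induction k with
  | zero =>
    intro b h
    rw [show b = N.src from h]
  | succ k ih =>
    rintro b ⟨a, -, h1, h2 | h2, -⟩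
    · rw [← h2]
      exact ih a h1
    · exact (ih a h1).tail h2

theorem rStep_of_reach (N : Net ι S) (x : ι → Bool) {b : Fin S}
    (h : Relation.ReflTransGen (N.Step x) N.src b) : RStep N S b x := by
  classical
  let A : ℕ → Finset (Fin S) := fun k => univ.filter fun b => RStep N k b x
  have hA : ∀ k b, b ∈ A k ↔ RStep N k b x := by
    intro k b
    simp [A]
  have hsub : ∀ k, A k ⊆ A (k + 1) := by
    intro k b hb
    rw [hA] at hb ⊢
    exact rStep_mono N x hb
  have hstab : ∀ k, A k = A (k + 1) → A (k + 1) = A (k + 2) := by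
    intro k hk
    refine Finset.Subset.antisymm (hsub _) ?_
    intro b hb
    rw [hA] at hb ⊢
    obtain ⟨a, ha, h1, h2⟩ := hb
    have h3 : a ∈ A k := by
      rw [hk, hA]
      exact h1
    exact ⟨a, ha, (hA _ _).1 h3, h2⟩
  have hex : ∃ k < S, A k = A (k + 1) := by
    by_contra hcon
    push Not at hcon
    have hcard : ∀ k ≤ S, k + 1 ≤ (A k).card := by
      intro k
      induction k with
      | zero =>
        intro _
        have : N.src ∈ A 0 := by
          rw [hA]
          exact rfl
        exact card_pos.2 ⟨_, this⟩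
      | succ k ih =>
        intro hk
        have h1 := ih (by omega)
        have h2 : A k ⊂ A (k + 1) := (hsub k).ssubset_of_ne (hcon k (by omega))
        have h3 := card_lt_card h2
        omega
    have h1 := hcard S le_rfl
    have h2 := card_le_univ (A S)
    rw [Fintype.card_fin] at h2
    omega
  obtain ⟨k, hk, hkA⟩ := hex
  have hall : ∀ j, A (k + j) = A k ∧ A (k + j) = A (k + j + 1) := by
    intro j
    induction j with
    | zero => exact ⟨rfl, hkA⟩
    | succ j ih => exact ⟨(ih.2.symm.trans ih.1), hstab _ ih.2⟩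
  have hS : A S = A (S + 1) := by
    have h1 := (hall (S - k)).2
    have h2 : k + (S - k) = S := by omega
    rwa [h2] at h1
  have hmono : ∀ i j, i ≤ j → A i ⊆ A j := by
    intro i j hij
    induction hij with
    | refl => exact Finset.Subset.refl _
    | step _ ih => exact ih.trans (hsub _)
  rw [← hA]
  induction h with
  | refl =>
    apply hmono 0 S (Nat.zero_le _)
    rw [hA]
    exact rfl
  | tail _ hstep ih =>
    rw [hS, hA]
    exact ⟨_, mem_univ _, (hA _ _).1 ih, Or.inr hstep, trivial⟩

theorem const_mem_bas (V : Type) (P : Prop) : (fun _ : V → Bool => P) ∈ bas V := by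
  by_cases h : P
  · refine Or.inr (Or.inl ?_)
    funext x
    exact eq_true h
  · refine Or.inr (Or.inr ?_)
    funext x
    exact eq_false h

theorem eStep_has [Fintype ι] (N : Net ι S) (a b : Fin S) (m : ℕ) (Ψ : Set ((ι → Bool) → Prop))
    (hb : bas ι ⊆ Ψ) (h : Has m Ψ) :
    Has (m + 3 * Fintype.card ι) (insert (EStep N a b) Ψ) := by
  classical
  by_cases hc : a = b ∨ (a, b, none) ∈ N.contacts
  · have h1 : EStep N a b = fun _ => True := by
      funext x
      refine eq_true ?_
      rcases hc with hc | hc
      · exact Or.inl hc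
      · exact Or.inr ⟨none, hc, by simp⟩
    refine h.mono (by omega) ?_
    rintro E (rfl | hE)
    · rw [h1]
      exact hb (const_mem_bas ι True)
    · exact hE
  · rw [not_or] at hc
    have h1 : EStep N a b = fun x => ∃ e ∈ univ.filter (fun e : ι => (a, b, some e) ∈ N.contacts),
        x e = true ∧ True ∧ True := by
      funext x
      refine propext ⟨?_, ?_⟩
      · rintro (h2 | ⟨l, hl, hx⟩)
        · exact absurd h2 hc.1
        · cases l with
          | none => exact absurd hl hc.2
          | some e => exact ⟨e, by simpa using hl, hx e rfl, trivial, trivial⟩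
      · rintro ⟨e, he, hx, -, -⟩
        refine Or.inr ⟨some e, by simpa using he, ?_⟩
        intro e' he'
        rw [Option.mem_def, Option.some_inj] at he'
        rw [← he']
        exact hx
    have h2 := h.bigOr hb (univ.filter (fun e : ι => (a, b, some e) ∈ N.contacts))
      (fun e x => x e = true) (fun _ _ => True) (fun _ _ => True)
      (fun e _ => hb (Or.inl ⟨e, rfl⟩)) (fun _ _ => hb (const_mem_bas ι True))
      (fun _ _ => hb (const_mem_bas ι True))
    rw [← h1] at h2
    refine h2.mono ?_ (Set.Subset.refl _)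
    have h3 : (univ.filter (fun e : ι => (a, b, some e) ∈ N.contacts)).card ≤ Fintype.card ι :=
      card_le_univ _
    omega

/-- The steps of the network. -/
def eFam (N : Net ι S) : Set ((ι → Bool) → Prop) :=
  bas ι ∪ {F | ∃ k ∈ (univ : Finset (Fin S × Fin S)), F = EStep N k.1 k.2}

theorem eFam_has [Fintype ι] (N : Net ι S) : Has (3 * Fintype.card ι * S ^ 2) (eFam N) := by
  have h1 := (has_bas ι).family (c := 3 * Fintype.card ι) (univ : Finset (Fin S × Fin S))
    (fun k => EStep N k.1 k.2) (fun k _ m Ψ hΨ h => eStep_has N k.1 k.2 m Ψ hΨ h)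
  refine h1.mono ?_ (Set.Subset.refl _)
  rw [card_univ, Fintype.card_prod, Fintype.card_fin, sq]
  omega

theorem rStep_has [Fintype ι] (N : Net ι S) (k : ℕ) :
    Has (3 * Fintype.card ι * S ^ 2 + 3 * S * S * k) (eFam N ∪ {F | ∃ b, F = RStep N k b}) := by
  induction k with
  | zero =>
    refine (eFam_has N).mono (by omega) ?_
    rintro F (hF | ⟨b, rfl⟩)
    · exact hF
    · exact Or.inl (const_mem_bas ι (b = N.src))
  | succ k ih =>
    have h1 := ih.family (c := 3 * S) (univ : Finset (Fin S)) (fun b => RStep N (k + 1) b)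
      (fun b _ m Ψ hΨ h => by
        have hb : bas ι ⊆ Ψ := (Set.subset_union_left.trans Set.subset_union_left).trans hΨ
        have h2 := h.bigOr hb (univ : Finset (Fin S)) (fun a => RStep N k a)
          (fun a => EStep N a b) (fun _ _ => True)
          (fun a _ => hΨ (Or.inr ⟨a, rfl⟩))
          (fun a _ => hΨ (Or.inl (Or.inr ⟨(a, b), mem_univ _, rfl⟩)))
          (fun _ _ => hb (const_mem_bas ι True))
        rw [card_univ, Fintype.card_fin] at h2
        exact h2)
    rw [card_univ, Fintype.card_fin] at h1
    refine h1.mono ?_ ?_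
    · have : 3 * S * S * (k + 1) = 3 * S * S * k + 3 * S * S := by ring
      omega
    · rintro F (hF | ⟨b, rfl⟩)
      · exact Or.inl (Or.inl hF)
      · exact Or.inr ⟨b, mem_univ _, rfl⟩

/-- **Directed networks are circuits without NOT gates.** -/
theorem dnet_circuit [Fintype ι] (N : Net ι S) :
    ∃ (C : Circuit ι) (o : Wire ι), C.negs = 0 ∧
      C.size ≤ 3 * (S ^ 2 * Fintype.card ι + S ^ 3) ∧ ∀ x, C.val x o = N.dval x := by
  obtain ⟨C, h1, h2, h3⟩ := rStep_has N S
  obtain ⟨w, -, hw⟩ := h3 (RStep N S N.tgt) (Or.inr ⟨_, rfl⟩)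
  refine ⟨C, w, h1, h2.trans (le_of_eq ?_), fun x => ?_⟩
  · ring
  · rw [Bool.eq_iff_iff, hw x]
    simp only [Net.dval, decide_eq_true_eq, Net.DAccepts]
    exact ⟨reach_of_rStep N x S N.tgt, rStep_of_reach N x⟩

end Pool.Agent.NTR
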