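import Pool.Agent.NTR.Nets
import Pool.Agent.NTR.NetCirc
import Pool.Agent.PMB.Fin

/-!
# Perfect matchings: one-block bounds in the form used by the transfer theorem
-/

namespace Pool.Agent.NTR

open Pool.Agent.TeleNeg Pool.Agent.NegLim Pool.Agent.PMB Finset

theorem hasPM_mono {m : ℕ} {x y : Fin m × Fin m → Bool} (h : x ≤ y) (hx : HasPM x) : HasPM y := by
  obtain ⟨π, hπ⟩ := hx
  refine ⟨π, fun i => ?_⟩
  have h1 := h (i, π i)
  rw [hπ i] at h1
  exact top_le_iff.1 h1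

theorem not_hasPM_zero {m : ℕ} (hm : 0 < m) : ¬ HasPM (fun _ : Fin m × Fin m => false) := by
  rintro ⟨π, hπ⟩
  exact absurd (hπ ⟨0, hm⟩) (by simp)

/-- A disjunction of `q` functions computed by directed networks is computed by one network. -/
theorem exists_net_of_members {β : Type} {S q : ℕ} (g : (β → Bool) → Prop)
    (Gs : List ((β → Bool) → Bool)) (hlen : Gs.length ≤ q)
    (hmem : ∀ G ∈ Gs, (Gen.dnetClass S).mem _ G) (h : ∀ u, g u ↔ ∃ G ∈ Gs, G u = true) :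
    ∃ S' ≤ q * S + 2, ∃ N : Net β S', ∀ u, N.dval u = true ↔ g u := by
  choose N hN using fun k : Fin Gs.length => hmem (Gs.get k) (List.get_mem _ _)
  obtain ⟨M, -, hM⟩ := exists_orNet N
  refine ⟨Gs.length * S + 2, by gcongr, M, fun u => ?_⟩
  rw [hM, h]
  constructor
  · rintro ⟨k, hk⟩
    exact ⟨Gs.get k, List.get_mem _ _, by rw [← hN k]; exact hk⟩
  · rintro ⟨G, hG, hGx⟩
    obtain ⟨k, rfl⟩ := List.get_of_mem hG
    exact ⟨k, by rw [hN k]; exact hGx⟩

/-- The substitution which adds the edges `(i, i)` for `i ≥ m'` to a graph on `m' + m'`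
vertices. -/
def pmPad (m' m : ℕ) (e : Fin m × Fin m) : (Fin m' × Fin m') ⊕ Bool :=
  if h : (e.1 : ℕ) < m' ∧ (e.2 : ℕ) < m' then Sum.inl (⟨e.1, h.1⟩, ⟨e.2, h.2⟩)
  else Sum.inr (decide (e.1 = e.2))

theorem hasPM_pad {m' m : ℕ} (hm : m' ≤ m) (u : Fin m' × Fin m' → Bool) :
    HasPM (fun e : Fin m × Fin m => Sum.elim u id (pmPad m' m e)) ↔ HasPM u := by
  constructor
  · rintro ⟨π, hπ⟩
    have key : ∀ i : Fin m, (i : ℕ) < m' → ((π i : Fin m) : ℕ) < m' := by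
      intro i hi
      by_contra hcon
      have h1 := hπ i
      have h2 : ¬ ((i : ℕ) < m' ∧ ((π i : Fin m) : ℕ) < m') := fun h => hcon h.2
      simp only [pmPad, dif_neg h2, Sum.elim_inr, id_eq, decide_eq_true_eq] at h1
      rw [← h1] at hcon
      exact hcon hi
    let σ : Fin m' → Fin m' := fun i => ⟨π (Fin.castLE hm i), key _ i.isLt⟩
    have hσ : Function.Injective σ := by
      intro i j hij
      have h1 : (π (Fin.castLE hm i) : Fin m) = π (Fin.castLE hm j) :=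
        Fin.ext (Fin.mk.inj_iff.mp hij)
      exact Fin.castLE_injective hm (π.injective h1)
    refine ⟨Equiv.ofBijective σ (Finite.injective_iff_bijective.mp hσ), fun i => ?_⟩
    have h1 := hπ (Fin.castLE hm i)
    have h2 : (((Fin.castLE hm i : Fin m) : ℕ) < m' ∧
        ((π (Fin.castLE hm i) : Fin m) : ℕ) < m') := ⟨i.isLt, key _ i.isLt⟩
    simp only [pmPad, dif_pos h2, Sum.elim_inl] at h1
    exact h1
  · rintro ⟨σ, hσ⟩
    let ρ : Fin m → Fin m := fun i => if h : (i : ℕ) < m' then Fin.castLE hm (σ ⟨i, h⟩) else i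
    have hlt : ∀ (i : Fin m) (h : (i : ℕ) < m'), ρ i = Fin.castLE hm (σ ⟨i, h⟩) :=
      fun i h => dif_pos h
    have hge : ∀ i : Fin m, ¬ (i : ℕ) < m' → ρ i = i := fun i h => dif_neg h
    have hρ : Function.Injective ρ := by
      intro i j hij
      by_cases hi : (i : ℕ) < m' <;> by_cases hj : (j : ℕ) < m'
      · rw [hlt i hi, hlt j hj] at hij
        have h1 := σ.injective (Fin.castLE_injective hm hij)
        exact Fin.ext (Fin.mk.inj_iff.mp h1)
      · rw [hlt i hi, hge j hj] at hij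
        exact absurd (by rw [← hij]; exact (σ ⟨i, hi⟩).isLt) hj
      · rw [hge i hi, hlt j hj] at hij
        exact absurd (by rw [hij]; exact (σ ⟨j, hj⟩).isLt) hi
      · rwa [hge i hi, hge j hj] at hij
    refine ⟨Equiv.ofBijective ρ (Finite.injective_iff_bijective.mp hρ), fun i => ?_⟩
    rw [Equiv.ofBijective_apply]
    by_cases hi : (i : ℕ) < m'
    · have h2 : ((i : ℕ) < m' ∧ ((ρ i : Fin m) : ℕ) < m') := by
        refine ⟨hi, ?_⟩
        rw [hlt i hi]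
        exact (σ ⟨i, hi⟩).isLt
      simp only [pmPad, dif_pos h2, Sum.elim_inl]
      have h3 := hσ ⟨i, hi⟩
      convert h3 using 3
      apply Fin.ext
      change ((ρ i : Fin m) : ℕ) = _
      rw [hlt i hi]
      rfl
    · have h2 : ¬ ((i : ℕ) < m' ∧ ((ρ i : Fin m) : ℕ) < m') := fun h => hi h.1
      simp only [pmPad, dif_neg h2, Sum.elim_inr, id_eq, decide_eq_true_eq]
      exact (hge i hi).symm

/-- Powers of two beat seventh powers. -/
theorem pow_seven_lt {n : ℕ} (hn : 201 ≤ n) : 2 ^ 80 * (n + 1) ^ 7 < 2 ^ n := by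
  set k := n / 16 with hk
  have h1 : n + 1 ≤ 16 * (k + 1) := by omega
  have h2 : k + 1 ≤ 2 ^ k := Nat.lt_two_pow_self
  calc 2 ^ 80 * (n + 1) ^ 7 ≤ 2 ^ 80 * (16 * 2 ^ k) ^ 7 := by
        gcongr
        exact h1.trans (Nat.mul_le_mul_left _ h2)
    _ = 2 ^ (108 + 7 * k) := by
        rw [mul_pow, ← pow_mul, show (16 : ℕ) = 2 ^ 4 from rfl, ← pow_mul, ← pow_add, ← pow_add]
        congr 1
        omega
    _ < 2 ^ n := Nat.pow_lt_pow_right (by norm_num) (by omega)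

/-- A smaller graph on which the bound for circuits still applies, whose number of vertices is at
most exponential in `w`. -/
theorem exists_small {m w : ℕ} (hw : 1 ≤ w)
    (hm : 2 ^ 80 * w ^ 5 * (Nat.log 2 m + 1) ^ 2 ≤ m) :
    ∃ m' ≤ m, 1 ≤ m' ∧
      2 ^ 29 * (w + 2 * Nat.log 2 m' + 10) ^ 5 * (Nat.log 2 m' + 1) ^ 2 ≤ m' := by
  classical
  have hex : ∃ m' : ℕ, 2 ^ 80 * w ^ 5 * (Nat.log 2 m' + 1) ^ 2 ≤ m' := ⟨m, hm⟩
  set m' := Nat.find hex with hm'
  have h1 : 2 ^ 80 * w ^ 5 * (Nat.log 2 m' + 1) ^ 2 ≤ m' := Nat.find_spec hex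
  have hpos : 1 ≤ m' := le_trans (Nat.one_le_iff_ne_zero.mpr (by positivity)) h1
  set l := Nat.log 2 m' with hl
  have hlw : l ≤ 200 * w := by
    by_contra hcon
    rw [not_le] at hcon
    have h2 : ¬ 2 ^ 80 * w ^ 5 * (Nat.log 2 (m' - 1) + 1) ^ 2 ≤ m' - 1 :=
      Nat.find_min hex (by omega)
    have h3 : Nat.log 2 (m' - 1) ≤ l := Nat.log_mono_right (by omega)
    have h4 : m' ≤ 2 ^ 80 * w ^ 5 * (l + 1) ^ 2 := by
      have h5 : 2 ^ 80 * w ^ 5 * (Nat.log 2 (m' - 1) + 1) ^ 2 ≤ 2 ^ 80 * w ^ 5 * (l + 1) ^ 2 := by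
        gcongr
      omega
    have h6 : 2 ^ l ≤ m' := Nat.pow_log_le_self 2 (by omega)
    have h7 : 2 ^ 80 * w ^ 5 * (l + 1) ^ 2 ≤ 2 ^ 80 * (l + 1) ^ 7 := by
      have h8 : w ^ 5 ≤ (l + 1) ^ 5 := Nat.pow_le_pow_left (by omega) 5
      calc 2 ^ 80 * w ^ 5 * (l + 1) ^ 2 ≤ 2 ^ 80 * (l + 1) ^ 5 * (l + 1) ^ 2 := by gcongr
        _ = 2 ^ 80 * (l + 1) ^ 7 := by ring
    have h9 := pow_seven_lt (n := l) (by omega)
    omega
  refine ⟨m', Nat.find_min' hex hm, hpos, le_trans ?_ h1⟩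
  have h2 : (w + 2 * l + 10) ^ 5 ≤ (411 * w) ^ 5 := Nat.pow_le_pow_left (by omega) 5
  calc 2 ^ 29 * (w + 2 * l + 10) ^ 5 * (l + 1) ^ 2 ≤ 2 ^ 29 * (411 * w) ^ 5 * (l + 1) ^ 2 := by
        gcongr
    _ = (2 ^ 29 * 411 ^ 5) * (w ^ 5 * (l + 1) ^ 2) := by ring
    _ ≤ 2 ^ 80 * (w ^ 5 * (l + 1) ^ 2) := Nat.mul_le_mul_right _ (by norm_num)
    _ = 2 ^ 80 * w ^ 5 * (l + 1) ^ 2 := by ring

/-- The number of gates obtained from a network is small. -/
theorem gates_lt {m w Q S' : ℕ} (hQ : Q ^ 4 < 2 ^ w) (hS : S' ≤ Q + 2) :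
    3 * (S' ^ 2 * (m * m) + S' ^ 3) < 2 ^ (w + 2 * Nat.log 2 m + 10) := by
  set l := Nat.log 2 m with hl
  have h1 : m < 2 ^ (l + 1) := Nat.lt_pow_succ_log_self (by norm_num) m
  have h2 : m * m ≤ 4 * 4 ^ l := by
    calc m * m ≤ 2 ^ (l + 1) * 2 ^ (l + 1) := Nat.mul_le_mul h1.le h1.le
      _ = 4 * 4 ^ l := by
        rw [← pow_add, show (4 : ℕ) = 2 ^ 2 from rfl, ← pow_mul, ← pow_add]
        congr 1
        omega
  have h3 : (Q + 1) ^ 3 ≤ 8 * 2 ^ w := by
    rcases Nat.eq_zero_or_pos Q with h | h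
    · subst h
      have : 1 ≤ 2 ^ w := Nat.one_le_two_pow
      omega
    · calc (Q + 1) ^ 3 ≤ (2 * Q) ^ 3 := Nat.pow_le_pow_left (by omega) 3
        _ = 8 * Q ^ 3 := by ring
        _ ≤ 8 * Q ^ 4 := by
          have : Q ^ 3 ≤ Q ^ 4 := Nat.pow_le_pow_right h (by norm_num)
          omega
        _ ≤ 8 * 2 ^ w := by omega
  have h4 : S' ≤ 2 * (Q + 1) := by omega
  have h5 : (1 : ℕ) ≤ 4 ^ l := Nat.one_le_pow _ _ (by norm_num)
  have h6 : (Q + 1) ^ 2 ≤ (Q + 1) ^ 3 := Nat.pow_le_pow_right (by omega) (by norm_num)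
  calc 3 * (S' ^ 2 * (m * m) + S' ^ 3)
      ≤ 3 * ((2 * (Q + 1)) ^ 2 * (m * m) + (2 * (Q + 1)) ^ 3) := by gcongr
    _ = (Q + 1) ^ 2 * (12 * (m * m)) + (Q + 1) ^ 3 * 24 := by ring
    _ ≤ (Q + 1) ^ 3 * (12 * (m * m)) + (Q + 1) ^ 3 * 24 :=
        Nat.add_le_add_right (Nat.mul_le_mul_right _ h6) _
    _ = (Q + 1) ^ 3 * (12 * (m * m) + 24) := by ring
    _ ≤ (8 * 2 ^ w) * (48 * 4 ^ l + 24 * 4 ^ l) := by
        apply Nat.mul_le_mul h3
        omega
    _ = 576 * (2 ^ w * 4 ^ l) := by ring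
    _ < 1024 * (2 ^ w * 4 ^ l) := by
        apply Nat.mul_lt_mul_of_pos_right (by norm_num)
        positivity
    _ = 2 ^ (w + 2 * l + 10) := by
        rw [show (4 : ℕ) ^ l = 2 ^ (2 * l) by rw [pow_mul]; norm_num,
          show (1024 : ℕ) = 2 ^ 10 from rfl, ← pow_add, ← pow_add]
        congr 1
        omega

theorem hasPM_ones {m : ℕ} : HasPM (fun _ : Fin m × Fin m => true) :=
  ⟨Equiv.refl _, fun _ => rfl⟩

/-- **Perfect matchings, circuits.** The bound for circuits without NOT gates under the hypothesis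
of the bound for networks. -/
theorem match_circuit' (m w : ℕ) (hw : 1 ≤ w) (hm : 2 ^ 80 * w ^ 5 * (Nat.log 2 m + 1) ^ 2 ≤ m)
    (C : Circuit (Fin m × Fin m)) (o : Wire (Fin m × Fin m)) (hn : Circuit.negs C = 0)
    (hC : ∀ u, Circuit.val C u o = true ↔ HasPM u) : 2 ^ w ≤ Circuit.size C := by
  refine match_circuit m w hw (le_trans ?_ hm) C o hn hC
  exact Nat.mul_le_mul_right _ (Nat.mul_le_mul_right _ (Nat.pow_le_pow_right (by norm_num)
    (by norm_num)))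

/-- **Perfect matchings, directed networks.** If `q` directed monotone networks with `S` nodes
compute together (by their OR) whether a bipartite graph on `m + m` vertices has a perfect
matching, then `2 ^ w ≤ (q * S) ^ 4` whenever `2 ^ 80 * w ^ 5 * (log₂ m + 1) ^ 2 ≤ m`. -/
theorem inst_match {m w q S : ℕ} (hm : 2 ^ 80 * w ^ 5 * (Nat.log 2 m + 1) ^ 2 ≤ m)
    (Gs : List ((Fin m × Fin m → Bool) → Bool)) (hlen : Gs.length ≤ q)
    (hmem : ∀ G ∈ Gs, (Gen.dnetClass S).mem _ G)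
    (h : ∀ u, HasPM u ↔ ∃ G ∈ Gs, G u = true) : 2 ^ w ≤ (q * S) ^ 4 := by
  classical
  rcases Nat.eq_zero_or_pos w with hw | hw
  · subst hw
    obtain ⟨G, hG, -⟩ := (h _).1 hasPM_ones
    have h1 : 0 < q := lt_of_lt_of_le (List.length_pos_of_mem hG) hlen
    obtain ⟨N, -⟩ := hmem G hG
    have h2 : 0 < S := lt_of_le_of_lt (Nat.zero_le _) N.src.isLt
    rw [pow_zero]
    exact Nat.one_le_pow _ _ (Nat.mul_pos h1 h2)
  · by_contra hcon
    rw [not_le] at hcon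
    obtain ⟨m', hm', -, h2⟩ := exists_small hw hm
    obtain ⟨S', hS', N, hN⟩ := exists_net_of_members (q := q)
      (fun u : Fin m' × Fin m' → Bool => HasPM u)
      (Gs.map fun G => fun y => G fun e => Sum.elim y id (pmPad m' m e))
      (by rw [List.length_map]; exact hlen)
      (by
        intro F hF
        obtain ⟨G, hG, rfl⟩ := List.mem_map.1 hF
        exact (Gen.dnetClass S).subst _ _ G (pmPad m' m) (hmem G hG))
      (fun u => by
        rw [← hasPM_pad hm' u, h]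
        constructor
        · rintro ⟨G, hG, hGu⟩
          exact ⟨_, List.mem_map.2 ⟨G, hG, rfl⟩, hGu⟩
        · rintro ⟨F, hF, hFu⟩
          obtain ⟨G, hG, rfl⟩ := List.mem_map.1 hF
          exact ⟨G, hG, hFu⟩)
    obtain ⟨C, o, hC, hsize, hval⟩ := dnet_circuit N
    have h3 := match_circuit m' (w + 2 * Nat.log 2 m' + 10) (by omega) h2 C o hC
      (fun u => by rw [hval u]; exact hN u)
    have h4 := gates_lt (m := m') (S' := S') hcon hS'
    rw [Fintype.card_prod, Fintype.card_fin] at hsize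
    omega

end Pool.Agent.NTR
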