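import Pool.Agent.NegLim.CliqueMain
import Pool.Agent.NegLim.Flips

/-!
# The clique function needs large circuits without NOT gates

The bound for circuits without NOT gates which is used as the input of the transfer theorem, and
monotonicity of the clique function.
-/

namespace Pool.Agent.NTR

open Pool.Agent.NegLim

/-- Adding edges keeps a clique. -/
lemma hasClique_mono {m K : ℕ} {x y : Edge m → Bool} (h : x ≤ y) (hx : HasClique K x) :
    HasClique K y := by
  obtain ⟨S, hS, hc⟩ := hx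
  refine ⟨S, hS, fun i hi j hj hij => ?_⟩
  have h1 := h ⟨(i, j), hij⟩
  rw [hc i hi j hj hij] at h1
  exact Bool.eq_true_of_true_le h1

/-- Circuits without NOT gates for cliques with `m / 2` vertices have at least `2 ^ w` gates. -/
theorem clique_bound (m w : ℕ) (hw : 1 ≤ w) (hlog : Nat.log 2 m ≤ w)
    (hm : 2 ^ 37 * w ^ 4 * (Nat.log 2 m + 1) ^ 6 ≤ m ^ 2)
    (C : Circuit (Edge m)) (o : Wire (Edge m)) (hn : C.negs = 0)
    (hC : ∀ x : Edge m → Bool, C.val x o = true ↔ HasClique (m / 2) x) : 2 ^ w ≤ C.size := by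
  refine clique_main m w hw hlog C (T := 1) (fun _ => o) (fun v => v 0) (fun x => hC x) ?_
  rw [hn]
  calc 2 ^ 36 * ((1 + 1) * 2 ^ 0) * w ^ 4 * (Nat.log 2 m + 1) ^ 6
      = 2 ^ 37 * w ^ 4 * (Nat.log 2 m + 1) ^ 6 := by norm_num
    _ ≤ m ^ 2 := hm

end Pool.Agent.NTR
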