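import Pool.Agent.NTR.Has
import Pool.Agent.TeleNeg.DirDefs

/-!
# Layered path systems are solved by circuits without NOT gates of polynomial size
-/

set_option autoImplicit false

namespace Pool.Agent.NTR

open Pool.Agent.NegLim Pool.Agent.TeleNeg

variable {r H M : ℕ}

/-- Atoms as tuples. -/
def atomEquiv (r H M : ℕ) : Atom r H M ≃ Fin r × Fin (H + 1) × Fin (H + 1) × Fin M where
  toFun := fun v => (v.k, v.a, v.b, v.c)
  invFun := fun v => ⟨v.1, v.2.1, v.2.2.1, v.2.2.2⟩
  left_inv := by intro v; rfl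
  right_inv := by intro v; rfl

noncomputable instance instFintypeAtom : Fintype (Atom r H M) := Fintype.ofEquiv _ (atomEquiv r H M).symm

theorem card_atom (r H M : ℕ) : Fintype.card (Atom r H M) = r * ((H + 1) * ((H + 1) * M)) := by
  rw [Fintype.card_congr (atomEquiv r H M)]
  simp only [Fintype.card_prod, Fintype.card_fin]

theorem der_iff (x : Rule r H M → Bool) (v : Atom r H M) :
    Derivable x v ↔ (v.a = Fin.last H ∧ x (.top v.k v.b v.c) = true) ∨
      (v.b = Fin.last H ∧ x (.side v.k v.a v.c) = true) ∨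
      ∃ (a b : Fin H) (c₁ c₂ : Fin M), v.a = a.castSucc ∧ v.b = b.castSucc ∧
        x (.inner v.k a b v.c c₁ c₂) = true ∧ Derivable x ⟨v.k, a.succ, b.castSucc, c₁⟩ ∧
        Derivable x ⟨v.k, a.castSucc, b.succ, c₂⟩ := by
  constructor
  · intro h
    cases h with
    | top k b c h => exact Or.inl ⟨rfl, h⟩
    | side k a c h => exact Or.inr (Or.inl ⟨rfl, h⟩)
    | inner k a b c c₁ c₂ h h₁ h₂ => exact Or.inr (Or.inr ⟨a, b, c₁, c₂, rfl, rfl, h, h₁, h₂⟩)
  · obtain ⟨k, a, b, c⟩ := v
    rintro (⟨h1, h2⟩ | ⟨h1, h2⟩ | ⟨a', b', c₁, c₂, h1, h2, h3, h4, h5⟩)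
    · simp only at h1 h2
      subst h1
      exact .top k b c h2
    · simp only at h1 h2
      subst h1
      exact .side k a c h2
    · simp only at h1 h2 h3 h4 h5
      subst h1 h2
      exact .inner k a' b' c c₁ c₂ h3 h4 h5

/-- the distance from the far corner of the grid -/
def meas (v : Atom r H M) : ℕ := (H - v.a) + (H - v.b)

/-- variables, constants and the atoms at distance less than `d` -/
def upto (r H M d : ℕ) : Set ((Rule r H M → Bool) → Prop) :=
  bas (Rule r H M) ∪ {F | ∃ v : Atom r H M, meas v < d ∧ F = fun x => Derivable x v}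

theorem step_atom (d : ℕ) (v : Atom r H M) (hv : meas v = d) (m : ℕ) (Ψ : Set ((Rule r H M → Bool) → Prop))
    (hΨ : upto r H M d ⊆ Ψ) (h : Has m Ψ) : Has (m + (3 * M ^ 2 + 1)) (insert (fun x => Derivable x v) Ψ) := by
  have hb : bas (Rule r H M) ⊆ Ψ := Set.subset_union_left.trans hΨ
  have hvar : ∀ e : Rule r H M, (fun x : Rule r H M → Bool => x e = true) ∈ Ψ := fun e => hb (Or.inl ⟨e, rfl⟩)
  by_cases ha : v.a = Fin.last H
  · have hno : ∀ (a : Fin H), v.a ≠ a.castSucc := fun a h' =>
      absurd (ha.symm.trans h') (Fin.castSucc_lt_last a).ne'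
    by_cases hb' : v.b = Fin.last H
    · have e1 : (fun x => Derivable x v) = fun x : Rule r H M → Bool =>
          x (.top v.k v.b v.c) = true ∨ x (.side v.k v.a v.c) = true := by
        funext x
        refine propext ?_
        rw [der_iff]
        constructor
        · rintro (⟨_, h2⟩ | ⟨_, h2⟩ | ⟨a, b, c₁, c₂, h1, _⟩)
          · exact Or.inl h2
          · exact Or.inr h2
          · exact absurd h1 (hno a)
        · rintro (h2 | h2)
          · exact Or.inl ⟨ha, h2⟩
          · exact Or.inr (Or.inl ⟨hb', h2⟩)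
      rw [e1]
      exact (h.or (hvar _) (hvar _)).mono (by omega) (Set.Subset.refl _)
    · have e1 : (fun x => Derivable x v) = fun x : Rule r H M → Bool => x (.top v.k v.b v.c) = true := by
        funext x
        refine propext ?_
        rw [der_iff]
        constructor
        · rintro (⟨_, h2⟩ | ⟨h1, h2⟩ | ⟨a, b, c₁, c₂, h1, _⟩)
          · exact h2
          · exact absurd h1 hb'
          · exact absurd h1 (hno a)
        · intro h2
          exact Or.inl ⟨ha, h2⟩
      rw [e1]
      refine h.mono (by omega) ?_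
      rintro E (rfl | hE)
      · exact hvar _
      · exact hE
  · by_cases hb' : v.b = Fin.last H
    · have e1 : (fun x => Derivable x v) = fun x : Rule r H M → Bool => x (.side v.k v.a v.c) = true := by
        funext x
        refine propext ?_
        rw [der_iff]
        constructor
        · rintro (⟨h1, h2⟩ | ⟨h1, h2⟩ | ⟨a, b, c₁, c₂, _, h1, _⟩)
          · exact absurd h1 ha
          · exact h2
          · exact absurd (hb'.symm.trans h1) (Fin.castSucc_lt_last b).ne'
        · intro h2
          exact Or.inr (Or.inl ⟨hb', h2⟩)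
      rw [e1]
      refine h.mono (by omega) ?_
      rintro E (rfl | hE)
      · exact hvar _
      · exact hE
    · obtain ⟨a, ha2⟩ := Fin.exists_castSucc_eq.mpr ha
      obtain ⟨b, hb2⟩ := Fin.exists_castSucc_eq.mpr hb'
      have hd1 : ∀ c₁ : Fin M, (fun x => Derivable x (⟨v.k, a.succ, b.castSucc, c₁⟩ : Atom r H M)) ∈ Ψ := by
        intro c₁
        refine hΨ (Or.inr ⟨_, ?_, rfl⟩)
        have h1 : (a : ℕ) = v.a := by rw [← ha2]; simp
        have h2 : (b : ℕ) = v.b := by rw [← hb2]; simp
        have h3 := a.isLt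
        have h4 := b.isLt
        simp only [meas, Fin.val_succ, Fin.val_castSucc] at hv ⊢
        omega
      have hd2 : ∀ c₂ : Fin M, (fun x => Derivable x (⟨v.k, a.castSucc, b.succ, c₂⟩ : Atom r H M)) ∈ Ψ := by
        intro c₂
        refine hΨ (Or.inr ⟨_, ?_, rfl⟩)
        have h1 : (a : ℕ) = v.a := by rw [← ha2]; simp
        have h2 : (b : ℕ) = v.b := by rw [← hb2]; simp
        have h3 := a.isLt
        have h4 := b.isLt
        simp only [meas, Fin.val_succ, Fin.val_castSucc] at hv ⊢
        omega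
      have h1 := h.bigOr hb (Finset.univ : Finset (Fin M × Fin M))
        (fun j x => x (.inner v.k a b v.c j.1 j.2) = true)
        (fun j x => Derivable x (⟨v.k, a.succ, b.castSucc, j.1⟩ : Atom r H M))
        (fun j x => Derivable x (⟨v.k, a.castSucc, b.succ, j.2⟩ : Atom r H M))
        (fun j _ => hvar _) (fun j _ => hd1 j.1) (fun j _ => hd2 j.2)
      refine h1.mono (by
        rw [Finset.card_univ, Fintype.card_prod, Fintype.card_fin]
        have : M * M = M ^ 2 := by ring
        omega) ?_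
      rintro E (rfl | hE)
      · refine Or.inl ?_
        funext x
        refine propext ?_
        rw [der_iff]
        constructor
        · rintro (⟨h1, h2⟩ | ⟨h1, h2⟩ | ⟨a', b', c₁, c₂, h1, h2, h3, h4, h5⟩)
          · exact absurd h1 ha
          · exact absurd h1 hb'
          · have e1 : a = a' := Fin.castSucc_injective _ (ha2.trans h1)
            have e2 : b = b' := Fin.castSucc_injective _ (hb2.trans h2)
            subst e1 e2
            exact ⟨(c₁, c₂), Finset.mem_univ _, h3, h4, h5⟩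
        · rintro ⟨j, _, h3, h4, h5⟩
          exact Or.inr (Or.inr ⟨a, b, j.1, j.2, ha2.symm, hb2.symm, h3, h4, h5⟩)
      · exact Or.inr hE

theorem has_upto (r H M d : ℕ) :
    Has ((3 * M ^ 2 + 1) * (Finset.univ.filter (fun v : Atom r H M => meas v < d)).card) (upto r H M d) := by
  classical
  induction d with
  | zero =>
    refine (has_bas _).mono (Nat.zero_le _) ?_
    rintro E (hE | ⟨v, hv, _⟩)
    · exact hE
    · exact absurd hv (Nat.not_lt_zero _)
  | succ d ih =>
    have h1 := ih.family (c := 3 * M ^ 2 + 1) (Finset.univ.filter (fun v : Atom r H M => meas v = d))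
      (fun v x => Derivable x v) (fun v hv m Ψ hΨ h =>
        step_atom d v (Finset.mem_filter.mp hv).2 m Ψ hΨ h)
    refine h1.mono ?_ ?_
    · rw [← Nat.mul_add]
      refine Nat.mul_le_mul_left _ ?_
      rw [← Finset.card_union_of_disjoint]
      · refine Finset.card_le_card ?_
        intro v hv
        rw [Finset.mem_union, Finset.mem_filter, Finset.mem_filter] at hv
        rw [Finset.mem_filter]
        refine ⟨Finset.mem_univ _, ?_⟩
        rcases hv with hv | hv
        · omega
        · omega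
      · rw [Finset.disjoint_left]
        intro v hv hv'
        rw [Finset.mem_filter] at hv hv'
        omega
    · rintro E (hE | ⟨v, hv, rfl⟩)
      · exact Or.inl (Or.inl hE)
      · rcases Nat.lt_or_ge (meas v) d with h2 | h2
        · exact Or.inl (Or.inr ⟨v, h2, rfl⟩)
        · exact Or.inr ⟨v, Finset.mem_filter.mpr ⟨Finset.mem_univ _, by omega⟩, rfl⟩

/-- **Path systems are solved by small circuits without NOT gates.** -/
theorem solvable_circuit (r H M : ℕ) (hM : 1 ≤ M) :
    ∃ (C : Circuit (Rule r H M)) (w : Wire (Rule r H M)), C.negs = 0 ∧ C.size ≤ 7 * r * (H + 1) ^ 2 * M ^ 3 ∧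
      ∀ x, C.val x w = true ↔ Solvable x := by
  classical
  have h1 := has_upto r H M (2 * H + 1)
  have hall : ∀ v : Atom r H M, (fun x => Derivable x v) ∈ upto r H M (2 * H + 1) := fun v =>
    Or.inr ⟨v, by unfold meas; omega, rfl⟩
  have h2 := h1.bigOr Set.subset_union_left (Finset.univ : Finset (Fin r × Fin M))
    (fun j x => x (.goal j.1 j.2) = true) (fun j x => Derivable x (⟨j.1, 0, 0, j.2⟩ : Atom r H M))
    (fun _ _ => True) (fun j _ => Or.inl (Or.inl ⟨_, rfl⟩)) (fun j _ => hall _)
    (fun _ _ => Or.inl (Or.inr (Or.inl rfl)))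
  obtain ⟨C, h3, h4, h5⟩ := h2
  obtain ⟨w, -, hw⟩ := h5 _ (Or.inl rfl)
  refine ⟨C, w, h3, h4.trans ?_, fun x => ?_⟩
  · have h6 : (Finset.univ.filter (fun v : Atom r H M => meas v < 2 * H + 1)).card ≤ r * ((H + 1) * ((H + 1) * M)) := by
      rw [← card_atom]
      exact Finset.card_le_univ _
    rw [Finset.card_univ, Fintype.card_prod, Fintype.card_fin, Fintype.card_fin]
    have h7 := Nat.mul_le_mul_left (3 * M ^ 2 + 1) h6
    have hM3 : M ≤ M ^ 3 := by
      calc M = M * 1 := by ring
        _ ≤ M * M ^ 2 := Nat.mul_le_mul_left _ (Nat.one_le_pow _ _ hM)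
        _ = M ^ 3 := by ring
    have h8 : 1 ≤ (H + 1) ^ 2 := Nat.one_le_pow _ _ (by omega)
    have h9 : r * M ≤ r * (H + 1) ^ 2 * M ^ 3 := by
      calc r * M = r * 1 * M := by ring
        _ ≤ r * (H + 1) ^ 2 * M ^ 3 := Nat.mul_le_mul (Nat.mul_le_mul_left _ h8) hM3
    have h10 : r * (H + 1) ^ 2 * M ≤ r * (H + 1) ^ 2 * M ^ 3 := Nat.mul_le_mul_left _ hM3
    calc (3 * M ^ 2 + 1) * (Finset.univ.filter (fun v : Atom r H M => meas v < 2 * H + 1)).card + 3 * (r * M)
        ≤ (3 * M ^ 2 + 1) * (r * ((H + 1) * ((H + 1) * M))) + 3 * (r * M) := by omega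
      _ = 3 * (r * (H + 1) ^ 2 * M ^ 3) + r * (H + 1) ^ 2 * M + 3 * (r * M) := by ring
      _ ≤ 3 * (r * (H + 1) ^ 2 * M ^ 3) + r * (H + 1) ^ 2 * M ^ 3 + 3 * (r * (H + 1) ^ 2 * M ^ 3) := by omega
      _ = 7 * r * (H + 1) ^ 2 * M ^ 3 := by ring
  · rw [hw]
    constructor
    · rintro ⟨j, _, h6, h7, _⟩
      exact ⟨j.1, j.2, h6, h7⟩
    · rintro ⟨k, c, h6, h7⟩
      exact ⟨(k, c), Finset.mem_univ _, h6, h7, trivial⟩

end Pool.Agent.NTR
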