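import Pool.Agent.TeleNeg.GridFinal
import Pool.Agent.NTR.OrNet
import Pool.Agent.NTR.GridCirc

/-!
# Six blocks of layered path systems: a bound for directed networks

`Solvable` on the rules `Rule 6 H M`, `M = 2 ^ 8 (H + 1) ^ 3`: a directed network (all contacts labelled by variables or
always closed) with `S` nodes which computes it has `2 ^ H < 36 (2 ^ 24 (H + 1) ^ 11) (2 S) ^ clog S`; a circuit without
NOT gates with at most `7 r (H + 1) ^ 2 M ^ 3` gates computes it on `r` blocks.
-/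

set_option autoImplicit false

namespace Pool.Agent.NTR

open Pool.Agent.NegLim Pool.Agent.TeleNeg

/-- **One network.** -/
theorem dnet_lower (H S : ℕ) (hH : 6 ≤ H) (N : Net (Rule 6 H (2 ^ 8 * (H + 1) ^ 3)) S)
    (hN : ∀ x, N.dval x = true ↔ Solvable x) :
    2 ^ H < 36 * (2 ^ 24 * (H + 1) ^ 11) * (2 * S) ^ Nat.clog 2 S := by
  let D : Device (Rule 6 H (2 ^ 8 * (H + 1) ^ 3)) S 1 :=
    { levels := [], outs := fun _ => mapNet (fun e => Sum.inl (Sum.inl e)) N }
  have hw : D.weight = 1 := by simp [Device.weight, D]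
  have hval : ∀ x, D.dval x 0 = N.dval x := by
    intro x
    show (mapNet (fun e => Sum.inl (Sum.inl e)) N).dval (labels x (dnotVals x [] [])) = N.dval x
    rw [mapNet_dval]
    rfl
  have h1 := grid_final 6 H S 1 hH D (fun o => o 0) (fun x => by
    show D.dval x 0 = true ↔ _
    rw [hval]
    exact hN x) (by rw [hw])
  have e : (6 : ℕ) ^ 2 = 36 := by norm_num
  rwa [e] at h1

/-- **A disjunction of `K` networks** with `S` nodes each. -/
theorem dnet_lower_or (H S K : ℕ) (hH : 6 ≤ H) (N : Fin K → Net (Rule 6 H (2 ^ 8 * (H + 1) ^ 3)) S)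
    (hN : ∀ x, Solvable x ↔ ∃ k, (N k).dval x = true) :
    2 ^ H < 36 * (2 ^ 24 * (H + 1) ^ 11) * (2 * (K * S + 2)) ^ Nat.clog 2 (K * S + 2) := by
  obtain ⟨M, -, hM⟩ := exists_orNet N
  exact dnet_lower H (K * S + 2) hH M fun x => by rw [hM, hN]

end Pool.Agent.NTR
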