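import Pool.Agent.NTR.Nets
import Pool.Agent.NTR.Grid
import Pool.Agent.NTR.CliqueBound

/-!
# One-block bounds in the form used by the transfer theorem
-/

namespace Pool.Agent.NTR

open Pool.Agent.TeleNeg Pool.Agent.NegLim Finset Gen

/-- Directed connectivity in the digraph without arcs. -/
theorem not_reach_zero (r L M : ℕ) : ¬ Reach (fun _ : Arc r L M => false) := by
  have h := not_reach_of_cuts (∅ : Set (Arc r L M)) (fun _ => ∅)
    (fun e he => absurd he (Set.notMem_empty _))
  intro hR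
  apply h
  have he : (inp (∅ : Set (Arc r L M))) = fun _ => false := by
    funext e
    simp [inp]
  rw [he]
  exact hR

/-- No rule, no derivation. -/
theorem not_solvable_zero (r H M : ℕ) : ¬ Solvable (fun _ : Rule r H M => false) := by
  have h := not_solvable_of_cuts (∅ : Set (Rule r H M)) (fun _ => ∅)
    (fun e he => absurd he (Set.notMem_empty _))
  intro hR
  apply h
  have he : (inp (∅ : Set (Rule r H M))) = fun _ => false := by
    funext e
    simp [inp]
  rw [he]
  exact hR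

/-- **L vs NL.** If directed connectivity in six parallel layered digraphs is the OR of at most `q`
functions computed by monotone switching networks with `S` nodes, then
`2 ^ (2 p ^ 2) ≤ 2 ^ (4 p + 6) * (6 * (q * S + 2))`. -/
theorem inst_reach {p S q : ℕ} (Gs : List ((Arc 6 (2 ^ p - 1) (2 ^ (5 * p)) → Bool) → Bool))
    (hlen : Gs.length ≤ q) (hmem : ∀ G ∈ Gs, (netClass S).mem _ G)
    (h : ∀ u, Reach u ↔ ∃ G ∈ Gs, G u = true) :
    2 ^ (2 * p ^ 2) ≤ 2 ^ (4 * p + 6) * (6 * (q * S + 2)) := by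
  choose N hN using fun k : Fin Gs.length => hmem (Gs.get k) (List.get_mem _ _)
  have h1 := reach_lower N (fun x => by
    rw [h x]
    constructor
    · rintro ⟨k, hk⟩
      exact ⟨Gs.get k, List.get_mem _ _, by rw [← hN k]; exact hk⟩
    · rintro ⟨G, hG, hGx⟩
      obtain ⟨k, rfl⟩ := List.get_of_mem hG
      exact ⟨k, by rw [hN k]; exact hGx⟩)
  refine h1.trans ?_
  gcongr

/-- **NL vs P.** If the path system function of six parallel layered path systems is the OR of at
most `q` functions computed by directed monotone networks with `S` nodes, then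
`2 ^ H < 36 (2 ^ 24 (H + 1) ^ 11) (2 (q S + 2)) ^ clog₂ (q S + 2)`. -/
theorem inst_grid {H S q : ℕ} (hH : 6 ≤ H)
    (Gs : List ((Rule 6 H (2 ^ 8 * (H + 1) ^ 3) → Bool) → Bool))
    (hlen : Gs.length ≤ q) (hmem : ∀ G ∈ Gs, (dnetClass S).mem _ G)
    (h : ∀ u, Solvable u ↔ ∃ G ∈ Gs, G u = true) :
    2 ^ H < 36 * (2 ^ 24 * (H + 1) ^ 11) * (2 * (q * S + 2)) ^ Nat.clog 2 (q * S + 2) := by
  choose N hN using fun k : Fin Gs.length => hmem (Gs.get k) (List.get_mem _ _)
  have h1 := dnet_lower_or H S Gs.length hH N (fun x => by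
    rw [h x]
    constructor
    · rintro ⟨G, hG, hGx⟩
      obtain ⟨k, rfl⟩ := List.get_of_mem hG
      exact ⟨k, by rw [hN k]; exact hGx⟩
    · rintro ⟨k, hk⟩
      exact ⟨Gs.get k, List.get_mem _ _, by rw [← hN k]; exact hk⟩)
  have h2 : Gs.length * S + 2 ≤ q * S + 2 := by gcongr
  refine h1.trans_le ?_
  refine Nat.mul_le_mul_left _ ?_
  calc (2 * (Gs.length * S + 2)) ^ Nat.clog 2 (Gs.length * S + 2)
      ≤ (2 * (q * S + 2)) ^ Nat.clog 2 (Gs.length * S + 2) :=
        Nat.pow_le_pow_left (Nat.mul_le_mul_left _ h2) _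
    _ ≤ (2 * (q * S + 2)) ^ Nat.clog 2 (q * S + 2) :=
        Nat.pow_le_pow_right (by omega) (Nat.clog_mono_right 2 h2)

/-- **P vs NP.** A circuit without NOT gates for cliques with `⌊m / 2⌋` vertices has `2 ^ w`
gates. -/
theorem inst_clique {m w s : ℕ} (hw : 1 ≤ w) (hlog : Nat.log 2 m ≤ w)
    (hm : 2 ^ 37 * w ^ 4 * (Nat.log 2 m + 1) ^ 6 ≤ m ^ 2)
    (h : ∃ (C : Circuit (Edge m)) (o : Wire (Edge m)), C.negs = 0 ∧ C.size ≤ s ∧
      ∀ u : Edge m → Bool, C.val u o = true ↔ HasClique (m / 2) u) : 2 ^ w ≤ s := by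
  obtain ⟨C, o, h1, h2, h3⟩ := h
  exact (clique_bound m w hw hlog hm C o h1 h3).trans h2

end Pool.Agent.NTR
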