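import Pool.Agent.NTR.Main
import Pool.Agent.NTR.FreeNots
import Pool.Agent.NTR.Inst

/-!
# The local transfer theorem: the parts of the final statement
-/

namespace Pool.Agent.NTR

open Pool.Agent.NegLim Pool.Agent.TeleNeg Finset

theorem changesOn_pos {ι W : Type} {U : Finset ι} {w : (ι → Bool) → W} {r : ℕ}
    (h : ChangesOn U w r) : 0 < r :=
  (Nat.zero_le _).trans_lt (h (fun _ _ => false) monotone_const (fun _ _ _ => rfl) 0)

/-- If the number of copies is positive, the parameters are not degenerate. -/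
theorem params_pos {r L : ℕ} {β : Type} [Fintype β] {code : SelfVar r L β → Fin L → Bool}
    (hcode : Function.Injective code) {U : Finset (SelfVar r L β)}
    (h : 0 < U.card / (4 * Fintype.card β * L)) : 2 ≤ L ∧ Nonempty β ∧ 0 < r := by
  classical
  have h1 : 0 < 4 * Fintype.card β * L := by
    by_contra hcon
    have h0 : 4 * Fintype.card β * L = 0 := by omega
    rw [h0, Nat.div_zero] at h
    exact absurd h (lt_irrefl _)
  have h2 : 4 * Fintype.card β * L ≤ U.card := by
    by_contra hcon
    rw [Nat.div_eq_of_lt (by omega)] at h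
    exact absurd h (lt_irrefl _)
  have hV : Fintype.card (SelfVar r L β) = r * (4 * Fintype.card β * L) := by
    simp only [Fintype.card_prod, Fintype.card_bool, Fintype.card_fin]
    ring
  have h3 : U.card ≤ r * (4 * Fintype.card β * L) := (Finset.card_le_univ _).trans hV.le
  have hb : 0 < Fintype.card β := by
    by_contra hcon
    have h0 : Fintype.card β = 0 := by omega
    rw [h0] at h1
    simp at h1
  have hL : 0 < L := by
    by_contra hcon
    have h0 : L = 0 := by omega
    rw [h0] at h1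
    simp at h1
  have hr : 0 < r := by
    by_contra hcon
    have h0 : r * (4 * Fintype.card β * L) = 0 := by
      rw [show r = 0 by omega, zero_mul]
    omega
  refine ⟨?_, Fintype.card_pos_iff.1 hb, hr⟩
  by_contra hcon
  have hL1 : L = 1 := by omega
  subst hL1
  have h4 := Fintype.card_le_of_injective code hcode
  rw [hV] at h4
  simp only [Fintype.card_fun, Fintype.card_bool, Fintype.card_fin, pow_one] at h4
  have h5 : 4 ≤ r * (4 * Fintype.card β * 1) := by nlinarith
  omega

/-- **Circuits**, without conditions on the parameters. -/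
theorem circuits_all {r L : ℕ} {β : Type} [Fintype β] (code : SelfVar r L β → Fin L → Bool)
    (hcode : Function.Injective code) (g : (β → Bool) → Bool) (hg : Monotone g)
    (U : Finset (SelfVar r L β))
    (C : Circuit (SelfVar r L β)) (out : Wire (SelfVar r L β))
    (hf : ∀ x : SelfVar r L β → Bool, Circuit.val C x out = true ↔ SelfHard code g x)
    (hC : ChangesOn U (fun x => Circuit.notVals C x) (U.card / (4 * Fintype.card β * L))) :
    ∃ (M : Circuit β) (o : Wire β), Circuit.negs M = 0 ∧ Circuit.size M ≤ Circuit.size C ∧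
      ∀ u : β → Bool, Circuit.val M u o = g u := by
  obtain ⟨hL, hβ, -⟩ := params_pos hcode (changesOn_pos hC)
  exact circuits_self hL code hcode g hg C out hf U hC

/-- **Classes of functions**, without conditions on the parameters. -/
theorem classes_all {r L : ℕ} {β : Type} [Fintype β] (K : Gen.MonoClass)
    (code : SelfVar r L β → Fin L → Bool)
    (hcode : Function.Injective code) (g : (β → Bool) → Bool) (hg : Monotone g)
    (U : Finset (SelfVar r L β)) (ts : List ℕ)
    (hF : Finds K U ts (U.card / (4 * Fintype.card β * L)) (SelfHard code g)) :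
    ∃ Gs : List ((β → Bool) → Bool), Gs.length ≤ ts.sum + 1 ∧
      (∀ G ∈ Gs, K.mem β G) ∧ ∀ u, g u = true ↔ ∃ G ∈ Gs, G u = true := by
  classical
  have hch : 0 < U.card / (4 * Fintype.card β * L) := by
    obtain ⟨Q, P, -, -, -, h, -⟩ := hF
    exact changesOn_pos h
  obtain ⟨hL, hβ, hr⟩ := params_pos hcode hch
  by_cases h0 : g (fun _ => false) = true
  · have hone : ∀ u, g u = true := by
      intro u
      have h1 : g (fun _ => false) ≤ g u := hg (fun _ => Bool.false_le _)
      rw [h0] at h1
      exact top_le_iff.mp h1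
    obtain ⟨Q, P, -, -, hP, -, hf⟩ := hF
    let x₀ : SelfVar r L β → Bool := fun _ => false
    have hx₀ : SelfHard code g x₀ :=
      ⟨(true, ⟨0, hr⟩), fun b => decide (selfVal code x₀ ((true, ⟨0, hr⟩), b)),
        fun b => by simp, hone _⟩
    have h1 := (hf x₀).2 hx₀
    have h2 := K.subst _ β _ (fun v => Sum.inr (x₀ v)) (hP x₀ (answers x₀ (Q x₀) []))
    refine ⟨[fun _ => true], by simp, ?_, fun u => by simp [hone u]⟩
    intro G hG
    rw [List.mem_singleton.1 hG]
    convert h2 using 2 with y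
    exact h1.symm
  · exact classes_self K hL code hcode g (by simpa using h0) U ts hF

/-- **P vs NP.** -/
theorem clique_self {m w r L : ℕ} (hw : 1 ≤ w) (hlog : Nat.log 2 m ≤ w)
    (hm : 2 ^ 37 * w ^ 4 * (Nat.log 2 m + 1) ^ 6 ≤ m ^ 2)
    (code : SelfVar r L (Edge m) → Fin L → Bool) (hcode : Function.Injective code)
    (g : (Edge m → Bool) → Bool) (hg : ∀ u, g u = true ↔ HasClique (m / 2) u)
    (U : Finset (SelfVar r L (Edge m))) (C : Circuit (SelfVar r L (Edge m)))
    (out : Wire (SelfVar r L (Edge m)))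
    (hf : ∀ x : SelfVar r L (Edge m) → Bool, Circuit.val C x out = true ↔ SelfHard code g x)
    (hC : ChangesOn U (fun x => Circuit.notVals C x)
      (U.card / (4 * Fintype.card (Edge m) * L))) :
    2 ^ w ≤ Circuit.size C := by
  have hmono : Monotone g := by
    intro u v huv
    rw [Bool.le_iff_imp]
    intro h
    rw [hg] at h ⊢
    exact hasClique_mono huv h
  obtain ⟨M, o, h1, h2, h3⟩ := circuits_all code hcode g hmono U C out hf hC
  exact inst_clique hw hlog hm ⟨M, o, h1, h2, fun u => by rw [h3 u, hg]⟩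

theorem reach_mono {r L M : ℕ} {x y : Arc r L M → Bool} (h : x ≤ y) (hx : Reach x) :
    Reach y := by
  unfold Reach at hx ⊢
  generalize Vtx.t = v at hx ⊢
  induction hx with
  | refl => exact Relation.ReflTransGen.refl
  | tail _ hst ih =>
    obtain ⟨e, he, h1, h2⟩ := hst
    exact ih.tail ⟨e, Bool.le_iff_imp.mp (h e) he, h1, h2⟩

theorem clean_bound {p N : ℕ} (hp : 6 ≤ p)
    (h : 2 ^ (2 * p ^ 2) ≤ 2 ^ (4 * p + 6) * (6 * (N + 2))) : 2 ^ p ^ 2 ≤ N := by
  by_contra hcon
  have hN : N < 2 ^ p ^ 2 := not_le.mp hcon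
  have h1 : N + 2 ≤ 2 ^ (p ^ 2 + 1) := by
    have : 1 ≤ 2 ^ p ^ 2 := Nat.one_le_two_pow
    rw [pow_succ]
    omega
  have h2 : 2 ^ (2 * p ^ 2) < 2 ^ (4 * p + 6) * (2 ^ 3 * 2 ^ (p ^ 2 + 1)) := by
    refine h.trans_lt ?_
    refine Nat.mul_lt_mul_of_pos_left ?_ (by positivity)
    have h3 : 0 < 2 ^ (p ^ 2 + 1) := by positivity
    omega
  rw [← pow_add, ← pow_add] at h2
  have h3 := (Nat.pow_lt_pow_iff_right (by norm_num)).1 h2
  nlinarith

/-- **L vs NL.** -/
theorem reach_self {p S r L : ℕ} (hp : 6 ≤ p)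
    [Fintype (Arc 6 (2 ^ p - 1) (2 ^ (5 * p)))]
    (code : SelfVar r L (Arc 6 (2 ^ p - 1) (2 ^ (5 * p))) → Fin L → Bool)
    (hcode : Function.Injective code)
    (g : (Arc 6 (2 ^ p - 1) (2 ^ (5 * p)) → Bool) → Bool) (hg : ∀ u, g u = true ↔ Reach u)
    (U : Finset (SelfVar r L (Arc 6 (2 ^ p - 1) (2 ^ (5 * p))))) (ts : List ℕ)
    (hF : Finds (Gen.netClass S) U ts
      (U.card / (4 * Fintype.card (Arc 6 (2 ^ p - 1) (2 ^ (5 * p))) * L)) (SelfHard code g)) :
    2 ^ p ^ 2 ≤ (ts.sum + 1) * S := by
  have hmono : Monotone g := by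
    intro u v huv
    rw [Bool.le_iff_imp]
    intro h
    rw [hg] at h ⊢
    exact reach_mono huv h
  obtain ⟨Gs, h1, h2, h3⟩ := classes_all (Gen.netClass S) code hcode g hmono U ts hF
  exact clean_bound hp (inst_reach Gs h1 h2 fun u => by rw [← hg u, h3 u])

end Pool.Agent.NTR
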