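import Mathlib

/-!
# The transfer theorem, free of any model

Inputs are functions `x : Fin r × B → Bool`: `r` blocks of variables indexed by `B`. NOT gates are evaluated one after
another: the value of the `j`-th is the negation of `F j x v`, `v` the list of the values of the gates before it, where
`F j x v` is monotone in `x`. The outputs are `O i x v`, `i : Fin T`, monotone in `x`, `v` the list of all NOT values.
If every function of the outputs computes the disjunction of `g` over the blocks, and the list of the NOT values changes
at most `a` times along every increasing sequence of inputs, `(T + 1) (a + 1) ≤ r`, then `g` is a disjunction of some of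
the functions `F j`, `O i` with constants for the NOT values and for the variables outside one block.
-/

set_option autoImplicit false

namespace Pool.Agent.NTR

open Finset

/-- the values of the first `n` NOT gates -/
def run {V : Type} (F : ℕ → (V → Bool) → List Bool → Bool) (x : V → Bool) : ℕ → List Bool
  | 0 => []
  | n + 1 => run F x n ++ [!F n x (run F x n)]

/-- the block `i` of `X` is replaced by `u` -/
def plug {r : ℕ} {B : Type} (X : Fin r × B → Bool) (i : Fin r) (u : B → Bool) : Fin r × B → Bool :=
  fun p => if p.1 = i then u p.2 else X p

theorem run_length {V : Type} (F : ℕ → (V → Bool) → List Bool → Bool) (x : V → Bool) (n : ℕ) :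
    (run F x n).length = n := by
  induction n with
  | zero => rfl
  | succ n ih => simp [run, ih]

theorem run_take {V : Type} (F : ℕ → (V → Bool) → List Bool → Bool) (x : V → Bool) {m n : ℕ} (h : m ≤ n) :
    (run F x n).take m = run F x m := by
  induction n with
  | zero =>
    have : m = 0 := by omega
    subst this
    rfl
  | succ n ih =>
    rcases Nat.lt_or_ge n m with h1 | h1
    · have : m = n + 1 := by omega
      subst this
      rw [List.take_of_length_le (le_of_eq (run_length F x _))]
    · rw [run, List.take_append_of_le_length (by rw [run_length]; exact h1)]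
      exact ih h1

theorem run_get {V : Type} (F : ℕ → (V → Bool) → List Bool → Bool) (x : V → Bool) {j n : ℕ} (h : j < n) :
    (run F x n).getD j false = !F j x ((run F x n).take j) := by
  have h1 : (run F x n).getD j false = ((run F x n).take (j + 1)).getD j false := by
    rw [List.getD_eq_getElem _ _ (by rw [run_length]; exact h),
      List.getD_eq_getElem _ _ (by rw [List.length_take, run_length]; omega), List.getElem_take]
  rw [h1, run_take F x (by omega), run_take F x (by omega), run,
    List.getD_eq_getElem _ _ (by simp [run_length]), List.getElem_append_right (by rw [run_length])]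
  simp [run_length]

/-- the NOT gates keep their values if no gate with the value `1` gets the input `1` -/
theorem freeze {V : Type} (F : ℕ → (V → Bool) → List Bool → Bool) (hF : ∀ j v, Monotone fun x => F j x v)
    {x y : V → Bool} (hxy : x ≤ y) (N : ℕ)
    (h : ∀ j < N, (run F x N).getD j false = true → F j y ((run F x N).take j) = false) :
    run F y N = run F x N := by
  have key : ∀ n ≤ N, run F y n = run F x n := by
    intro n hn
    induction n with
    | zero => rfl
    | succ n ih =>
      have ih' := ih (by omega)
      rw [run, run, ih']
      congr 2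
      have h1 := h n (by omega)
      rw [run_get F x (by omega), run_take F x (by omega)] at h1
      have h2 : F n x (run F x n) ≤ F n y (run F x n) := hF n (run F x n) hxy
      cases h3 : F n x (run F x n) with
      | true =>
        rw [h3] at h2
        have : F n y (run F x n) = true := by
          revert h2; cases F n y (run F x n) <;> simp
        rw [this]
      | false =>
        rw [h1 (by rw [h3]; rfl)]
  exact key N le_rfl

theorem plug_self {r : ℕ} {B : Type} (X : Fin r × B → Bool) (i : Fin r) :
    plug X i (fun b => X (i, b)) = X := by
  funext p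
  obtain ⟨k, b⟩ := p
  unfold plug
  by_cases h : k = i
  · subst h; simp
  · simp [h]

/-- the changes of the NOT values together with the outputs -/
theorem changes_pair {α : Type} [DecidableEq α] {T : ℕ} (w : ℕ → α) (o : ℕ → Fin T → Bool)
    (ho : ∀ k, w k = w (k + 1) → o k ≤ o (k + 1)) (n : ℕ) :
    ((range n).filter (fun k => (w k, o k) ≠ (w (k + 1), o (k + 1)))).card ≤
      (T + 1) * ((range n).filter (fun k => w k ≠ w (k + 1))).card +
        (univ.filter (fun i => o n i = true)).card := by
  induction n with
  | zero => simp
  | succ n ih =>
    rw [range_add_one, filter_insert, filter_insert]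
    have hT : ∀ q : Fin T → Bool, (univ.filter (fun i => q i = true)).card ≤ T := fun q =>
      (card_le_univ _).trans (by simp)
    by_cases h1 : w n = w (n + 1)
    · have hle := ho n h1
      have hsub : univ.filter (fun i => o n i = true) ⊆ univ.filter (fun i => o (n + 1) i = true) := by
        intro i hi
        simp only [mem_filter, mem_univ, true_and] at hi ⊢
        have := hle i
        rw [hi] at this
        revert this; cases o (n + 1) i <;> simp
      by_cases h2 : o n = o (n + 1)
      · rw [if_neg (by simp [h1, h2]), if_neg (by simp [h1]), ← h2]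
        exact ih
      · rw [if_pos (by simp [h2]), if_neg (by simp [h1]), card_insert_of_notMem (by simp)]
        have hss : univ.filter (fun i => o n i = true) ⊂ univ.filter (fun i => o (n + 1) i = true) := by
          refine (ssubset_iff_subset_ne).mpr ⟨hsub, fun he => h2 ?_⟩
          funext i
          have h3 : (i ∈ univ.filter (fun i => o n i = true)) ↔ i ∈ univ.filter (fun i => o (n + 1) i = true) := by
            rw [he]
          simp only [mem_filter, mem_univ, true_and] at h3
          rw [Bool.eq_iff_iff]
          exact h3
        have := card_lt_card hss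
        omega
    · rw [if_pos (by simp [h1]), if_pos h1, card_insert_of_notMem (by simp),
        card_insert_of_notMem (by simp)]
      have := hT (o n)
      nlinarith [Nat.zero_le (univ.filter (fun i => o (n + 1) i = true)).card]

/-- the greedy prefix -/
theorem exists_prefix {α : Type} [DecidableEq α] {r : ℕ} {B : Type} (st : (Fin r × B → Bool) → α)
    (P : (B → Bool) → Prop) (h0 : P fun _ => false)
    (hst : ∀ x : ℕ → Fin r × B → Bool, Monotone x → ∀ n : ℕ,
      ((range n).filter (fun k => st (x k) ≠ st (x (k + 1)))).card < r) :
    ∃ (i : Fin r) (X : Fin r × B → Bool), (∀ k, P fun b => X (k, b)) ∧ (∀ b, X (i, b) = false) ∧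
      ∀ Z, P Z → st (plug X i Z) = st X := by
  classical
  let Zc : (Fin r × B → Bool) → Fin r → B → Bool := fun X i =>
    if h : ∃ Z, P Z ∧ st (plug X i Z) ≠ st X then h.choose else fun _ => false
  have hZP : ∀ X i, P (Zc X i) := by
    intro X i
    by_cases h : ∃ Z, P Z ∧ st (plug X i Z) ≠ st X
    · simp only [Zc, dif_pos h]; exact h.choose_spec.1
    · simp only [Zc, dif_neg h]; exact h0
  let Xs : ℕ → Fin r × B → Bool := fun n => Nat.rec (fun _ => false)
    (fun k X => if h : k < r then plug X ⟨k, h⟩ (Zc X ⟨k, h⟩) else X) n
  have hX0 : Xs 0 = fun _ => false := rfl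
  have hXs : ∀ k, ∀ h : k < r, Xs (k + 1) = plug (Xs k) ⟨k, h⟩ (Zc (Xs k) ⟨k, h⟩) := by
    intro k h
    show (if h : k < r then plug (Xs k) ⟨k, h⟩ (Zc (Xs k) ⟨k, h⟩) else Xs k) = _
    rw [dif_pos h]
  have hXs' : ∀ k, ¬ k < r → Xs (k + 1) = Xs k := by
    intro k h
    show (if h : k < r then plug (Xs k) ⟨k, h⟩ (Zc (Xs k) ⟨k, h⟩) else Xs k) = _
    rw [dif_neg h]
  have hzero : ∀ k, ∀ i : Fin r, k ≤ (i : ℕ) → ∀ b, Xs k (i, b) = false := by
    intro k
    induction k with
    | zero => intro i _ b; rw [hX0]
    | succ k ih =>
      intro i hi b
      by_cases h : k < r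
      · rw [hXs k h]
        have hne : i ≠ ⟨k, h⟩ := by
          intro he
          rw [he] at hi
          exact absurd hi (by simp)
        simp only [plug, hne, if_false]
        exact ih i (by omega) b
      · rw [hXs' k h]
        exact ih i (by omega) b
  have hP : ∀ k, ∀ i : Fin r, P fun b => Xs k (i, b) := by
    intro k
    induction k with
    | zero => intro i; simpa only [hX0] using h0
    | succ k ih =>
      intro i
      by_cases h : k < r
      · rw [hXs k h]
        by_cases hi : i = ⟨k, h⟩
        · subst hi
          simpa only [plug, if_true] using hZP (Xs k) ⟨k, h⟩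
        · simpa only [plug, hi, if_false] using ih i
      · rw [hXs' k h]
        exact ih i
  have hmono : Monotone Xs := by
    refine monotone_nat_of_le_succ fun k => ?_
    by_cases h : k < r
    · rw [hXs k h]
      intro p
      obtain ⟨i, b⟩ := p
      by_cases hi : i = ⟨k, h⟩
      · subst hi
        rw [hzero k ⟨k, h⟩ le_rfl b]
        exact Bool.false_le _
      · simp only [plug, hi, if_false]
        exact le_rfl
    · rw [hXs' k h]
  by_contra hcon
  push Not at hcon
  have hall : (range r).filter (fun k => st (Xs k) ≠ st (Xs (k + 1))) = range r := by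
    refine filter_true_of_mem fun k hk => ?_
    have hk' : k < r := mem_range.mp hk
    obtain ⟨Z, hZ, hne⟩ := hcon ⟨k, hk'⟩ (Xs k) (hP k) (fun b => hzero k ⟨k, hk'⟩ le_rfl b)
    have hex : ∃ Z, P Z ∧ st (plug (Xs k) ⟨k, hk'⟩ Z) ≠ st (Xs k) := ⟨Z, hZ, hne⟩
    rw [hXs k hk']
    simp only [Zc, dif_pos hex]
    exact fun he => hex.choose_spec.2 he.symm
  have h1 := hst Xs hmono r
  rw [hall, card_range] at h1
  exact lt_irrefl _ h1

/-- **The transfer theorem, free of any model.** -/
theorem transfer_free {r : ℕ} {B : Type} {N T a : ℕ} (F : ℕ → (Fin r × B → Bool) → List Bool → Bool)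
    (O : Fin T → (Fin r × B → Bool) → List Bool → Bool) (hF : ∀ j v, Monotone fun x => F j x v)
    (hO : ∀ i v, Monotone fun x => O i x v)
    (ha : ∀ x : ℕ → Fin r × B → Bool, Monotone x → ∀ n : ℕ,
      ((range n).filter (fun k => run F (x k) N ≠ run F (x (k + 1)) N)).card ≤ a)
    (hr : (T + 1) * (a + 1) ≤ r) (g : (B → Bool) → Prop) (hg : ¬ g fun _ => false)
    (h : (Fin T → Bool) → Bool)
    (hC : ∀ x, h (fun i => O i x (run F x N)) = true ↔ ∃ i, g fun b => x (i, b)) :
    ∃ (i : Fin r) (X : Fin r × B → Bool), (∀ k, ¬ g fun b => X (k, b)) ∧ (∀ b, X (i, b) = false) ∧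
      ∀ u, g u ↔
        (∃ j < N, (run F X N).getD j false = true ∧ F j (plug X i u) ((run F X N).take j) = true) ∨
        ∃ k, O k X (run F X N) = false ∧ O k (plug X i u) (run F X N) = true := by
  classical
  obtain ⟨i, X, hX1, hX2, hX3⟩ := exists_prefix
    (fun x => (run F x N, fun k => O k x (run F x N))) (fun u => ¬ g u) hg (fun x hx n => by
      have h1 := changes_pair (fun k => run F (x k) N) (fun k i => O i (x k) (run F (x k) N))
        (fun k hk i => by
          have h2 : O i (x k) (run F (x k) N) ≤ O i (x (k + 1)) (run F (x k) N) :=
            hO i _ (hx (Nat.le_succ k))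
          have hk' : run F (x k) N = run F (x (k + 1)) N := hk
          show O i (x k) (run F (x k) N) ≤ O i (x (k + 1)) (run F (x (k + 1)) N)
          rw [← hk']
          exact h2) n
      have h2 := ha x hx n
      have h3 : (univ.filter (fun i => O i (x n) (run F (x n) N) = true)).card ≤ T :=
        (card_le_univ _).trans (by simp)
      have h4 : (T + 1) * ((range n).filter (fun k => run F (x k) N ≠ run F (x (k + 1)) N)).card ≤
          (T + 1) * a := Nat.mul_le_mul_left _ h2
      have h5 : (T + 1) * (a + 1) = (T + 1) * a + T + 1 := by ring
      omega)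
  refine ⟨i, X, hX1, hX2, fun u => ?_⟩
  have hle : X ≤ plug X i u := by
    intro p
    obtain ⟨k, b⟩ := p
    by_cases hk : k = i
    · subst hk
      rw [hX2 b]
      exact Bool.false_le _
    · simp only [plug, hk, if_false]
      exact le_rfl
  constructor
  · intro hu
    by_contra hcon
    push Not at hcon
    obtain ⟨hc1, hc2⟩ := hcon
    have hfr : run F (plug X i u) N = run F X N := by
      refine freeze F hF hle N fun j hj hv => ?_
      have := hc1 j hj hv
      simpa using this
    have hout : (fun k => O k (plug X i u) (run F (plug X i u) N)) = fun k => O k X (run F X N) := by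
      funext k
      rw [hfr]
      have h2 : O k X (run F X N) ≤ O k (plug X i u) (run F X N) := hO k _ hle
      cases h3 : O k X (run F X N) with
      | true =>
        rw [h3] at h2
        revert h2; cases O k (plug X i u) (run F X N) <;> simp
      | false => simpa using hc2 k h3
    have h1 : h (fun k => O k (plug X i u) (run F (plug X i u) N)) = true := by
      rw [hC]
      refine ⟨i, ?_⟩
      simpa only [plug, if_true] using hu
    rw [hout, hC] at h1
    obtain ⟨k, hk⟩ := h1
    exact hX1 k hk
  · intro hH
    by_contra hu
    have h1 := hX3 u hu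
    simp only [Prod.mk.injEq] at h1
    obtain ⟨h2, h3⟩ := h1
    rcases hH with ⟨j, hj, hv, hFj⟩ | ⟨k, hk1, hk2⟩
    · have h4 := run_get F (plug X i u) hj
      rw [h2, hv, hFj] at h4
      exact absurd h4 (by simp)
    · have h4 : O k (plug X i u) (run F (plug X i u) N) = O k X (run F X N) := congrFun h3 k
      rw [h2, hk1, hk2] at h4
      exact absurd h4 (by simp)

end Pool.Agent.NTR
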