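import Pool.Agent.NTR.AvgCore
import Pool.Agent.NTR.Free

/-!
# The transfer theorem for circuits, average case
-/

namespace Pool.Agent.NTR

open Pool.Agent.NegLim Finset
open scoped BigOperators

/-- Number of changes of the values of the NOT gates and of the outputs together. -/
lemma changes_card {V : Type} [Fintype V] [DecidableEq V] (C : Circuit V) {T a : ℕ}
    (out : Fin T → Wire V) (hC : C.FlipsAtMost a) (x : ℕ → V → Bool) (hx : Monotone x) (n : ℕ) :
    ((range n).filter (fun k => (C.notVals (x k), fun i => C.val (x k) (out i))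
      ≠ (C.notVals (x (k + 1)), fun i => C.val (x (k + 1)) (out i)))).card + 1
      ≤ (T + 1) * (a + 1) := by
  have h1 := changes_pair (fun k => C.notVals (x k)) (fun k i => C.val (x k) (out i))
    (fun k hk i => val_le_of_notVals C (hx (Nat.le_succ k)) hk.symm (out i)) n
  have h2 := hC x hx n
  have h3 : (univ.filter (fun i : Fin T => C.val (x n) (out i) = true)).card ≤ T :=
    (card_le_univ _).trans (by simp)
  have h4 : (T + 1) * ((range n).filter
      (fun k => C.notVals (x k) ≠ C.notVals (x (k + 1)))).card ≤ (T + 1) * a :=
    Nat.mul_le_mul_left _ h2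
  have h5 : (T + 1) * (a + 1) = (T + 1) * a + T + 1 := by ring
  omega

/-- The event that the NOT gates or the outputs change when a block of zeros is replaced by `u` is
decided by a circuit without NOT gates. -/
lemma event_circuit {β : Type} [Fintype β] [DecidableEq β] {r T : ℕ} (C : Circuit (Fin r × β))
    (out : Fin T → Wire (Fin r × β)) (i : Fin r) (X : Fin r × β → Bool)
    (hX : ∀ e, X (i, e) = false) :
    ∃ (M : Circuit β) (o : Wire β), Circuit.negs M = 0 ∧ Circuit.size M ≤ Circuit.size C + T ∧
      ∀ u : β → Bool, (Circuit.val M u o = true ↔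
        (Circuit.notVals C (put X i u), fun j => Circuit.val C (put X i u) (out j))
          ≠ (Circuit.notVals C X, fun j => Circuit.val C X (out j))) := by
  obtain ⟨M, o, hneg, hsize, hM⟩ := key_multi C out X
  let σ : Fin r × β → Lit β := fun p => if p.1 = i then Lit.var p.2 else Lit.const (X p)
  have hσ : ∀ u : β → Bool, (fun v => (σ v).val u) = put X i u := by
    intro u
    funext p
    simp only [σ, put]
    split_ifs with h <;> rfl
  refine ⟨M.map (Gate.subst σ), o.subst σ, ?_, ?_, fun u => ?_⟩
  · rw [Circuit.subst_negs]; exact hneg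
  · rw [Circuit.subst_size]; exact hsize
  · rw [Circuit.subst_val, hσ]
    exact hM _ (le_put hX u)

open Classical in
/-- **Transfer, average case.** Let `D₀` and `D₁` be distributions on the zeros and on the ones of
the monotone function `g`. There is a distribution `μ` on the inputs of the disjunction of `r`
copies of `g` such that: if no circuit without NOT gates with at most `s + T` gates accepts with a
probability larger by more than `δ` under `D₁` than under `D₀`, then every circuit with at most `s`
gates and `T` outputs whose NOT values change at most `a` times along increasing sequences of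
inputs, followed by any function `h`, computes the disjunction correctly with probability at most
`1 / 2 + δ / 2 + (T + 1) (a + 1) / (2 r)`. -/
theorem transfer_average {β : Type} [Fintype β] (g : (β → Bool) → Bool) (hg : Monotone g) (r : ℕ)
    (hr : 1 ≤ r) (D₀ D₁ : (β → Bool) → ℝ) (h0 : ∀ u, 0 ≤ D₀ u) (h0s : ∑ u, D₀ u = 1)
    (h0z : ∀ u, D₀ u ≠ 0 → g u = false) (h1 : ∀ u, 0 ≤ D₁ u) (h1s : ∑ u, D₁ u = 1)
    (h1z : ∀ u, D₁ u ≠ 0 → g u = true) :
    ∃ μ : (Fin r × β → Bool) → ℝ, (∀ x, 0 ≤ μ x) ∧ ∑ x, μ x = 1 ∧
      ∀ (T s a : ℕ) (δ : ℝ),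
        (∀ (M : Circuit β) (o : Wire β), M.negs = 0 → M.size ≤ s + T →
          ∑ u with M.val u o = true, D₁ u ≤ ∑ u with M.val u o = true, D₀ u + δ) →
        ∀ (C : Circuit (Fin r × β)) (out : Fin T → Wire (Fin r × β)) (h : (Fin T → Bool) → Bool),
          C.size ≤ s → C.FlipsAtMost a →
          ∑ x with (h (fun i => C.val x (out i)) = true ↔ OrCopies g x), μ x
            ≤ 1 / 2 + δ / 2 + (T + 1) * (a + 1) / (2 * r) := by
  refine ⟨muAvg D₀ D₁ r, muAvg_nonneg h0 h1 r, muAvg_total h0s h1s hr, ?_⟩
  intro T s a δ hδ C out h hs hC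
  have hmain := avg_core g hg r hr D₀ D₁ h0 h0s h0z h1 h1s h1z
    (fun x => (Circuit.notVals C x, fun i => Circuit.val C x (out i)))
    (fun x => h (fun i => C.val x (out i)) = true) ((T + 1) * (a + 1)) δ
    (fun x y hxy => by
      have : (fun i => C.val x (out i)) = fun i => C.val y (out i) := (Prod.ext_iff.mp hxy).2
      rw [this])
    (fun x hx n => by
      convert changes_card C out hC x hx n)
    (fun i X hX => by
      obtain ⟨M, o, hneg, hsize, hM⟩ := event_circuit C out i X hX
      have h2 := hδ M o hneg (hsize.trans (by omega))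
      have e : ∀ D : (β → Bool) → ℝ, ∑ u with M.val u o = true, D u
          = ∑ u with (Circuit.notVals C (put X i u), fun j => Circuit.val C (put X i u) (out j))
          ≠ (Circuit.notVals C X, fun j => Circuit.val C X (out j)), D u := fun D =>
        Finset.sum_congr (Finset.filter_congr fun u _ => hM u) fun _ _ => rfl
      rw [e, e] at h2
      convert h2)
  push_cast at hmain
  refine le_trans (le_of_eq ?_) hmain
  refine Finset.sum_congr ?_ fun _ _ => rfl
  ext x
  simp only [mem_filter, mem_univ, true_and]

end Pool.Agent.NTR
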