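import Mathlib

set_option autoImplicit false

/-!
# Self-addressing selectors

The variables are the address bits of `2 r |B|` selectors, each of which reads one of ALL these
variables: `selfVal code x k` is `∃ p, x_p ∧ ∀ l, x_(k, l, code(p)_l)`.  For every set `U` of
variables, `r' = |U| / (4 |B| L)` blocks of selectors can be pointed to distinct variables of `U`,
all variables outside `U` being constants and all other selectors having the value `0`.
-/

namespace Pool.Agent.NTR

/-- The variables: for each selector `k` and each `l < L` two address variables. -/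
abbrev SelfVar (r L : ℕ) (B : Type) := ((Bool × Fin r) × B) × Fin L × Bool

/-- The value of the selector `k`: `∃ p, x_p ∧ ∀ l, x_(k, l, code(p)_l)`. -/
def selfVal {r L : ℕ} {B : Type} (code : SelfVar r L B → Fin L → Bool)
    (x : SelfVar r L B → Bool) (k : (Bool × Fin r) × B) : Prop :=
  ∃ p : SelfVar r L B, x p = true ∧ ∀ l, x (k, l, code p l) = true

theorem exists_self_restriction {r L : ℕ} {B : Type} [Fintype B] [Nonempty B] (hL : 2 ≤ L)
    (code : SelfVar r L B → Fin L → Bool) (hcode : Function.Injective code)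
    (U : Finset (SelfVar r L B)) (r' : ℕ) (hr : r' * (4 * Fintype.card B * L) ≤ U.card) :
    ∃ (φ : SelfVar r L B → (Fin r' × B) ⊕ Bool) (e : Fin r' → Bool × Fin r),
      Function.Injective e ∧ (∀ v, v ∉ U → ∃ c, φ v = .inr c) ∧
      ∀ y : Fin r' × B → Bool,
        (∀ i β, selfVal code (fun v => Sum.elim y id (φ v)) (e i, β) ↔ y (i, β) = true) ∧
        ∀ j, (∀ i, e i ≠ j) → ∀ β, ¬ selfVal code (fun v => Sum.elim y id (φ v)) (j, β) := by
  classical
  have hB : 0 < Fintype.card B := Fintype.card_pos
  -- choice of the address position `ls`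
  obtain ⟨ls, hls⟩ : ∃ ls : Fin L, U.card ≤ 2 * (U.filter fun v => v.2.1 ≠ ls).card := by
    set l0 : Fin L := ⟨0, by omega⟩ with hl0
    set l1 : Fin L := ⟨1, by omega⟩ with hl1
    have h01 : l0 ≠ l1 := by
      intro h
      have := congrArg Fin.val h
      simp [hl0, hl1] at this
    have hsub : U ⊆ (U.filter fun v => v.2.1 ≠ l0) ∪ (U.filter fun v => v.2.1 ≠ l1) := by
      intro v hv
      rw [Finset.mem_union, Finset.mem_filter, Finset.mem_filter]
      by_cases h : v.2.1 = l0
      · exact Or.inr ⟨hv, by rw [h]; exact h01⟩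
      · exact Or.inl ⟨hv, h⟩
    have h1 := (Finset.card_le_card hsub).trans (Finset.card_union_le _ _)
    rcases le_total (U.filter fun v => v.2.1 ≠ l0).card (U.filter fun v => v.2.1 ≠ l1).card
      with h | h
    · exact ⟨l1, by omega⟩
    · exact ⟨l0, by omega⟩
  -- choice of the half
  obtain ⟨h, hh⟩ : ∃ h : Bool, U.card ≤
      4 * (U.filter fun v => v.2.1 ≠ ls ∧ v.1.1.1 ≠ h).card := by
    have hsub : (U.filter fun v => v.2.1 ≠ ls) ⊆
        (U.filter fun v => v.2.1 ≠ ls ∧ v.1.1.1 ≠ true) ∪
        (U.filter fun v => v.2.1 ≠ ls ∧ v.1.1.1 ≠ false) := by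
      intro v hv
      rw [Finset.mem_filter] at hv
      rw [Finset.mem_union, Finset.mem_filter, Finset.mem_filter]
      cases hb : v.1.1.1
      · exact Or.inl ⟨hv.1, hv.2, by simp⟩
      · exact Or.inr ⟨hv.1, hv.2, by simp⟩
    have h1 := (Finset.card_le_card hsub).trans (Finset.card_union_le _ _)
    rcases le_total (U.filter fun v => v.2.1 ≠ ls ∧ v.1.1.1 ≠ true).card
      (U.filter fun v => v.2.1 ≠ ls ∧ v.1.1.1 ≠ false).card with h | h
    · exact ⟨false, by omega⟩
    · exact ⟨true, by omega⟩
  set W := U.filter fun v => v.2.1 ≠ ls ∧ v.1.1.1 ≠ h with hW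
  have hWc : r' * Fintype.card B ≤ W.card := by
    have h1 : r' * Fintype.card B * 4 ≤ r' * (4 * Fintype.card B * L) := by
      have : r' * Fintype.card B * 4 * 1 ≤ r' * Fintype.card B * 4 * L :=
        Nat.mul_le_mul_left _ (by omega)
      calc r' * Fintype.card B * 4 = r' * Fintype.card B * 4 * 1 := by ring
        _ ≤ r' * Fintype.card B * 4 * L := this
        _ = r' * (4 * Fintype.card B * L) := by ring
    omega
  have hrr : r' ≤ r := by
    have h1 : U.card ≤ r * (4 * Fintype.card B * L) := by
      refine (Finset.card_le_univ _).trans (le_of_eq ?_)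
      simp only [Fintype.card_prod, Fintype.card_bool, Fintype.card_fin]
      ring
    have h2 : 0 < 4 * Fintype.card B * L := by positivity
    exact Nat.le_of_mul_le_mul_right (hr.trans h1) h2
  obtain ⟨p⟩ : Nonempty (Fin r' × B ↪ {v // v ∈ W}) := by
    apply Function.Embedding.nonempty_of_card_le
    rw [Fintype.card_coe, Fintype.card_prod, Fintype.card_fin]
    exact hWc
  set e : Fin r' → Bool × Fin r := fun i => (h, Fin.castLE hrr i) with he
  have heinj : Function.Injective e := by
    intro i i' hii
    exact Fin.castLE_injective hrr (congrArg Prod.snd hii)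
  have hpW : ∀ q, ((p q : SelfVar r L B)).2.1 ≠ ls ∧ ((p q : SelfVar r L B)).1.1.1 ≠ h := fun q =>
    (Finset.mem_filter.1 (p q).2).2
  have hpinj : ∀ q q', (p q : SelfVar r L B) = p q' → q = q' := fun q q' hqq =>
    p.injective (Subtype.ext hqq)
  -- the constants
  let κ : SelfVar r L B → Bool := fun v =>
    if hq : ∃ q : Fin r' × B, (e q.1, q.2) = v.1 then
      decide (v.2.2 = code (p hq.choose) v.2.1) else false
  let φ : SelfVar r L B → (Fin r' × B) ⊕ Bool := fun v =>
    if hq : ∃ q : Fin r' × B, (p q : SelfVar r L B) = v then .inl hq.choose else .inr (κ v)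
  have hφp : ∀ q, φ (p q) = .inl q := by
    intro q
    have hq : ∃ q' : Fin r' × B, (p q' : SelfVar r L B) = p q := ⟨q, rfl⟩
    simp only [φ, dif_pos hq]
    rw [hpinj _ _ hq.choose_spec]
  have hφe : ∀ i β l c, φ ((e i, β), l, c) = .inr (decide (c = code (p (i, β)) l)) := by
    intro i β l c
    have h1 : ¬ ∃ q : Fin r' × B, (p q : SelfVar r L B) = ((e i, β), l, c) := by
      rintro ⟨q, hq⟩
      have := (hpW q).2
      rw [hq] at this
      exact this rfl
    have h2 : ∃ q : Fin r' × B, (e q.1, q.2) = (e i, β) := ⟨(i, β), rfl⟩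
    have h3 : h2.choose = (i, β) := by
      have h4 := h2.choose_spec
      have h5 := heinj (congrArg Prod.fst h4)
      have h6 := congrArg Prod.snd h4
      exact Prod.ext h5 h6
    simp only [φ, dif_neg h1, κ, dif_pos h2, h3]
  have hφ0 : ∀ j β c, (∀ i, e i ≠ j) → φ ((j, β), ls, c) = .inr false := by
    intro j β c hj
    have h1 : ¬ ∃ q : Fin r' × B, (p q : SelfVar r L B) = ((j, β), ls, c) := by
      rintro ⟨q, hq⟩
      have := (hpW q).1
      rw [hq] at this
      exact this rfl
    have h2 : ¬ ∃ q : Fin r' × B, (e q.1, q.2) = (j, β) := by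
      rintro ⟨q, hq⟩
      exact hj q.1 (congrArg Prod.fst hq)
    simp only [φ, dif_neg h1, κ, dif_neg h2]
  refine ⟨φ, e, heinj, ?_, fun y => ⟨?_, ?_⟩⟩
  · intro v hv
    have h1 : ¬ ∃ q : Fin r' × B, (p q : SelfVar r L B) = v := by
      rintro ⟨q, rfl⟩
      exact hv (Finset.mem_filter.1 (p q).2).1
    exact ⟨κ v, by simp only [φ, dif_neg h1]⟩
  · intro i β
    constructor
    · rintro ⟨p', h1, h2⟩
      have h3 : p' = (p (i, β) : SelfVar r L B) := by
        apply hcode
        funext l
        have h4 := h2 l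
        simp only [hφe, Sum.elim_inr, id, decide_eq_true_eq] at h4
        exact h4
      subst h3
      simpa [hφp] using h1
    · intro hy
      refine ⟨p (i, β), ?_, fun l => ?_⟩
      · simpa [hφp] using hy
      · simp only [hφe, Sum.elim_inr, id, decide_eq_true_eq]
  · rintro j hj β ⟨p', h1, h2⟩
    have h3 := h2 ls
    simp only [hφ0 j β _ hj, Sum.elim_inr, id] at h3
    exact absurd h3 (by simp)

end Pool.Agent.NTR
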