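import Pool.Agent.NTR.Select
import Pool.Agent.NTR.Self

set_option autoImplicit false

/-!
# Changes along the increasing sequences which agree outside `U`, and the functions with selectors
-/

namespace Pool.Agent.NTR

/-- Along every increasing sequence of inputs which agree outside `U`, the value of `w` changes
fewer than `r` times. -/
def ChangesOn {ι W : Type} (U : Finset ι) (w : (ι → Bool) → W) (r : ℕ) : Prop :=
  ∀ x : ℕ → ι → Bool, Monotone x → (∀ k v, v ∉ U → x k v = x 0 v) → ∀ n : ℕ,
    {k | k < n ∧ w (x k) ≠ w (x (k + 1))}.ncard < r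

/-- The disjunction of `r` copies of `g` whose variables are the values of the selectors which read
a pool of variables. -/
def Hard {r L : ℕ} {β : Type} (g : (β → Bool) → Bool) (x : SelVar r L β → Bool) : Prop :=
  ∃ i : Fin r, ∃ u : β → Bool, (∀ b, u b = true ↔ selVal x (i, b)) ∧ g u = true

/-- The disjunction of `2 r` copies of `g` whose variables are the values of the self-addressing
selectors: each reads one of all the variables. -/
def SelfHard {r L : ℕ} {β : Type} (code : SelfVar r L β → Fin L → Bool) (g : (β → Bool) → Bool)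
    (x : SelfVar r L β → Bool) : Prop :=
  ∃ i : Bool × Fin r, ∃ u : β → Bool, (∀ b, u b = true ↔ selfVal code x (i, b)) ∧ g u = true

theorem selfVal_mono {r L : ℕ} {β : Type} (code : SelfVar r L β → Fin L → Bool)
    {x y : SelfVar r L β → Bool} (hxy : x ≤ y) (k : (Bool × Fin r) × β)
    (h : selfVal code x k) : selfVal code y k := by
  obtain ⟨p, hp, hl⟩ := h
  exact ⟨p, Bool.le_iff_imp.mp (hxy p) hp, fun l => Bool.le_iff_imp.mp (hxy _) (hl l)⟩

theorem selfHard_mono {r L : ℕ} {β : Type} (code : SelfVar r L β → Fin L → Bool)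
    (g : (β → Bool) → Bool) (hg : Monotone g) {x y : SelfVar r L β → Bool} (hxy : x ≤ y)
    (h : SelfHard code g x) : SelfHard code g y := by
  classical
  obtain ⟨i, u, hu, hgu⟩ := h
  refine ⟨i, fun b => decide (selfVal code y (i, b)), fun b => by simp, ?_⟩
  refine Bool.le_iff_imp.mp (hg fun b => ?_) hgu
  rw [Bool.le_iff_imp]
  intro hb
  exact decide_eq_true (selfVal_mono code hxy _ ((hu b).1 hb))

/-- **Restriction to any set `U` of variables**: for `r' ≤ |U| / (4 |B| L)` the variables outside
`U` can be made constant and the others be replaced by variables or constants such that the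
self-addressing function becomes the disjunction of `r'` copies of `g`. -/
theorem exists_selfHard_restriction {r L : ℕ} {β : Type} [Fintype β] [Nonempty β] (hL : 2 ≤ L)
    (code : SelfVar r L β → Fin L → Bool) (hcode : Function.Injective code)
    (g : (β → Bool) → Bool) (h0 : g (fun _ => false) = false)
    (U : Finset (SelfVar r L β)) (r' : ℕ) (hr : r' * (4 * Fintype.card β * L) ≤ U.card) :
    ∃ φ : SelfVar r L β → (Fin r' × β) ⊕ Bool, (∀ v, v ∉ U → ∃ c, φ v = .inr c) ∧
      ∀ y : Fin r' × β → Bool, SelfHard code g (fun v => Sum.elim y id (φ v)) ↔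
        ∃ i : Fin r', g (fun b => y (i, b)) = true := by
  obtain ⟨φ, e, -, hφ, h⟩ := exists_self_restriction hL code hcode U r' hr
  refine ⟨φ, hφ, fun y => ⟨?_, ?_⟩⟩
  · rintro ⟨i, u, hu, hgu⟩
    by_cases hi : ∃ j, e j = i
    · obtain ⟨j, rfl⟩ := hi
      refine ⟨j, ?_⟩
      have huy : u = fun b => y (j, b) := by
        funext b
        rw [Bool.eq_iff_iff, hu b, (h y).1 j b]
      rwa [huy] at hgu
    · have hu0 : u = fun _ => false := by
        funext b
        have h1 := (h y).2 i (fun j hj => hi ⟨j, hj⟩) b
        rw [← hu b] at h1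
        simpa using h1
      rw [hu0, h0] at hgu
      exact absurd hgu Bool.false_ne_true
  · rintro ⟨j, hj⟩
    exact ⟨e j, fun b => y (j, b), fun b => ((h y).1 j b).symm, hj⟩

/-- Fewer than `r` changes on `U` give fewer than `r` changes after the restriction. -/
theorem changes_restrict {ι κ W : Type} {U : Finset ι} {w : (ι → Bool) → W} {r : ℕ}
    (hw : ChangesOn U w r) (φ : ι → κ ⊕ Bool) (hφ : ∀ v, v ∉ U → ∃ c, φ v = .inr c)
    (x : ℕ → κ → Bool) (hx : Monotone x) (n : ℕ) :
    {k | k < n ∧ w (fun v => Sum.elim (x k) id (φ v)) ≠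
      w (fun v => Sum.elim (x (k + 1)) id (φ v))}.ncard < r := by
  refine hw (fun k v => Sum.elim (x k) id (φ v)) ?_ ?_ n
  · intro k l hkl v
    show Sum.elim (x k) id (φ v) ≤ Sum.elim (x l) id (φ v)
    cases φ v with
    | inl a => exact hx hkl a
    | inr c => exact le_refl _
  · intro k v hv
    obtain ⟨c, hc⟩ := hφ v hv
    simp [hc]

end Pool.Agent.NTR
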