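import Pool.Agent.NTR.HardDist
import Pool.Agent.NTR.AvgCirc
import Pool.Agent.NTR.CliqueBound
import Pool.Agent.NegLim.CliqueAvg
import Pool.Agent.PMU.Match

/-!
# Disjunctions of copies of a monotone function are hard on average: the theorem and the
instances clique and perfect matching
-/

namespace Pool.Agent.NTR

open Pool.Agent.NegLim Pool.Agent.PMB Finset
open scoped BigOperators

open Classical in
/-- **Worst case to average case.** -/
theorem average_copies {β : Type} [Fintype β] (g : (β → Bool) → Bool) (hg : Monotone g) (r : ℕ)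
    (hr : 1 ≤ r) {δ : ℝ} (h0 : 0 < δ) (h1 : δ < 1) (k S : ℕ)
    (hk : 3 * (Fintype.card β : ℝ) ≤ k * δ ^ 2)
    (hM : ∀ (M : Circuit β) (o : Wire β), M.negs = 0 → (∀ u, M.val u o = g u) →
      k * (S + 2 * k) < M.size) :
    ∃ μ : (Fin r × β → Bool) → ℝ, (∀ x, 0 ≤ μ x) ∧ ∑ x, μ x = 1 ∧
      ∀ (T a : ℕ) (C : Circuit (Fin r × β)) (out : Fin T → Wire (Fin r × β))
        (h : (Fin T → Bool) → Bool), C.size + T ≤ S → C.FlipsAtMost a →
        ∑ x with (h (fun i => C.val x (out i)) = true ↔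
            ∃ i : Fin r, g (fun b => x (i, b)) = true), μ x
          ≤ (1 + δ + (T + 1) * (a + 1) / r) / 2 := by
  obtain ⟨D₀, D₁, d1, d2, d3, d4, d5, d6, d7⟩ := hard_dist g h0 h1 k S hk hM
  obtain ⟨μ, m1, m2, m3⟩ := transfer_average g hg r hr D₀ D₁ d1 d2 d3 d4 d5 d6
  refine ⟨μ, m1, m2, fun T a C out h hs hC => ?_⟩
  have h2 := m3 T C.size a δ (fun M o hM hsz => d7 M o hM (hsz.trans hs)) C out h le_rfl hC
  have hr0 : (0 : ℝ) < r := by exact_mod_cast hr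
  refine (le_trans (le_of_eq ?_) h2).trans (le_of_eq ?_)
  · refine Finset.sum_congr ?_ fun _ _ => rfl
    ext x
    simp only [mem_filter, mem_univ, true_and]
    rfl
  · field_simp

/-- The numbers in the two instances. -/
lemma inst_numbers (m w : ℕ) (h4 : 4 * m ≤ 2 ^ w) :
    3 * m ^ 2 * 4 ^ w * (2 ^ (4 * w) + 2 * (3 * m ^ 2 * 4 ^ w)) < 2 ^ (8 * w) := by
  have e1 : 16 * m ^ 2 ≤ 4 ^ w := by
    calc 16 * m ^ 2 = (4 * m) ^ 2 := by ring
      _ ≤ (2 ^ w) ^ 2 := Nat.pow_le_pow_left h4 2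
      _ = 4 ^ w := by rw [← pow_mul, mul_comm, pow_mul]; norm_num
  set Q := 4 ^ w with hQ
  have e2 : 2 ^ (4 * w) = Q ^ 2 := by
    rw [hQ, ← pow_mul, show (4 : ℕ) = 2 ^ 2 by norm_num, ← pow_mul]
    congr 1
    ring
  have e3 : 2 ^ (8 * w) = Q ^ 4 := by
    rw [hQ, ← pow_mul, show (4 : ℕ) = 2 ^ 2 by norm_num, ← pow_mul]
    congr 1
    ring
  rw [e2, e3]
  have hQ0 : 0 < Q := by rw [hQ]; positivity
  have e4 : 16 * (m ^ 2 * Q) ≤ Q ^ 2 := by nlinarith
  have e5 : 0 < Q ^ 2 := by positivity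
  have e6 : 256 * (3 * m ^ 2 * Q * (Q ^ 2 + 2 * (3 * m ^ 2 * Q)))
      = 16 * (m ^ 2 * Q) * (48 * Q ^ 2 + 18 * (16 * (m ^ 2 * Q))) := by ring
  have e7 : 16 * (m ^ 2 * Q) * (48 * Q ^ 2 + 18 * (16 * (m ^ 2 * Q)))
      ≤ Q ^ 2 * (48 * Q ^ 2 + 18 * Q ^ 2) := by
    apply Nat.mul_le_mul e4
    omega
  have e8 : Q ^ 2 * (48 * Q ^ 2 + 18 * Q ^ 2) = 66 * Q ^ 4 := by ring
  have e9 : 0 < Q ^ 4 := by positivity
  omega

open Classical in
/-- The instances: `g` has `b ≤ m²` variables and needs `2 ^ (8 w)` gates without NOT gates. -/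
theorem average_inst {β : Type} [Fintype β] (g : (β → Bool) → Bool) (hg : Monotone g)
    (m w r : ℕ) (hr : 1 ≤ r) (hw : 1 ≤ w) (hb : Fintype.card β ≤ m ^ 2) (h4 : 4 * m ≤ 2 ^ w)
    (hM : ∀ (M : Circuit β) (o : Wire β), M.negs = 0 → (∀ u, M.val u o = g u) →
      2 ^ (8 * w) ≤ M.size) :
    ∃ μ : (Fin r × β → Bool) → ℝ, (∀ x, 0 ≤ μ x) ∧ ∑ x, μ x = 1 ∧
      ∀ (T a : ℕ) (C : Circuit (Fin r × β)) (out : Fin T → Wire (Fin r × β))
        (h : (Fin T → Bool) → Bool), C.size + T ≤ 2 ^ (4 * w) → C.FlipsAtMost a →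
        ∑ x with (h (fun i => C.val x (out i)) = true ↔
            ∃ i : Fin r, g (fun b => x (i, b)) = true), μ x
          ≤ (1 + (1 / 2) ^ w + (T + 1) * (a + 1) / r) / 2 := by
  have h5 : (0 : ℝ) < (1 / 2) ^ w := by positivity
  have h6 : ((1 / 2 : ℝ)) ^ w < 1 := pow_lt_one₀ (by norm_num) (by norm_num) (by omega)
  refine average_copies g hg r hr h5 h6 (3 * m ^ 2 * 4 ^ w) (2 ^ (4 * w)) ?_ ?_
  · have h7 : ((1 / 2 : ℝ) ^ w) ^ 2 = 1 / 4 ^ w := by
      rw [← pow_mul, mul_comm, pow_mul, show (1 / 2 : ℝ) ^ 2 = 1 / 4 by norm_num, one_div_pow]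
    rw [h7]
    push_cast
    have h8 : (3 * (m : ℝ) ^ 2 * 4 ^ w) * (1 / 4 ^ w) = 3 * (m : ℝ) ^ 2 := by
      field_simp
    rw [h8]
    have h9 : (Fintype.card β : ℝ) ≤ (m : ℝ) ^ 2 := by exact_mod_cast hb
    linarith
  · intro M o h7 h8
    exact (inst_numbers m w h4).trans_le (hM M o h7 h8)

lemma sum_filter_iff {X : Type} [Fintype X] (μ : X → ℝ) (P Q : X → Prop) [DecidablePred P]
    [DecidablePred Q] (h : ∀ x, P x ↔ Q x) : ∑ x with P x, μ x = ∑ x with Q x, μ x :=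
  Finset.sum_congr (Finset.filter_congr fun x _ => h x) fun _ _ => rfl

open Classical in
/-- The same for a type with decidable equality and a predicate equivalent to `g`. -/
theorem average_inst_dec {β : Type} [Fintype β] [dβ : DecidableEq β] (g : (β → Bool) → Bool)
    (hg : Monotone g) (m w r : ℕ) (hr : 1 ≤ r) (hw : 1 ≤ w) (hb : Fintype.card β ≤ m ^ 2)
    (h4 : 4 * m ≤ 2 ^ w)
    (hM : ∀ (M : Circuit β) (o : Wire β), M.negs = 0 → (∀ u, M.val u o = g u) →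
      2 ^ (8 * w) ≤ M.size) (G : (β → Bool) → Prop) (hG : ∀ u, g u = true ↔ G u) :
    ∃ μ : (Fin r × β → Bool) → ℝ, (∀ x, 0 ≤ μ x) ∧ ∑ x, μ x = 1 ∧
      ∀ (T a : ℕ) (C : Circuit (Fin r × β)) (out : Fin T → Wire (Fin r × β))
        (h : (Fin T → Bool) → Bool), C.size + T ≤ 2 ^ (4 * w) → C.FlipsAtMost a →
        ∑ x with (h (fun i => C.val x (out i)) = true ↔
            ∃ i : Fin r, G (fun b => x (i, b))), μ x
          ≤ (1 + (1 / 2) ^ w + (T + 1) * (a + 1) / r) / 2 := by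
  have h : dβ = fun a b => Classical.propDecidable (a = b) := Subsingleton.elim _ _
  subst h
  obtain ⟨μ, m1, m2, m3⟩ := average_inst g hg m w r hr hw hb h4 hM
  refine ⟨μ, m1, m2, fun T a C out h hs hC => ?_⟩
  refine le_trans (le_of_eq (sum_filter_iff μ _ _ fun x => ?_)) (m3 T a C out h hs hC)
  exact iff_congr Iff.rfl (exists_congr fun i => (hG _).symm)

/-- Adding edges keeps a perfect matching. -/
lemma hasPM_le {m : ℕ} {u v : Fin m × Fin m → Bool} (h : u ≤ v) (hu : HasPM u) : HasPM v := by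
  obtain ⟨π, hπ⟩ := hu
  refine ⟨π, fun i => ?_⟩
  have h1 := h (i, π i)
  rw [hπ i] at h1
  exact top_le_iff.mp h1

open Classical in
/-- **Perfect matching**: circuits of polynomial size exist, but circuits whose NOT gates change
rarely fail on average. -/
theorem average_match (m w r : ℕ) (hr : 1 ≤ r) (hw : 1 ≤ w)
    (hm : 2 ^ 44 * w ^ 5 * (Nat.log 2 m + 1) ^ 2 ≤ m) (h4 : 4 * m ≤ 2 ^ w) :
    (∃ (E : Circuit (Fin r × (Fin m × Fin m))) (o : Wire (Fin r × (Fin m × Fin m))),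
      E.size ≤ 2 ^ 12 * r * (m + 1) ^ 8 ∧
      ∀ x, E.val x o = true ↔ ∃ i, HasPM fun e => x (i, e)) ∧
    ∃ μ : (Fin r × (Fin m × Fin m) → Bool) → ℝ, (∀ x, 0 ≤ μ x) ∧ ∑ x, μ x = 1 ∧
      ∀ (T a : ℕ) (C : Circuit (Fin r × (Fin m × Fin m)))
        (out : Fin T → Wire (Fin r × (Fin m × Fin m))) (h : (Fin T → Bool) → Bool),
        C.size + T ≤ 2 ^ (4 * w) → C.FlipsAtMost a →
        ∑ x with (h (fun i => C.val x (out i)) = true ↔ ∃ i, HasPM fun e => x (i, e)), μ x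
          ≤ (1 + (1 / 2) ^ w + (T + 1) * (a + 1) / r) / 2 := by
  let g : (Fin m × Fin m → Bool) → Bool := fun u => decide (HasPM u)
  have hgiff : ∀ u, g u = true ↔ HasPM u := fun u => decide_eq_true_iff
  have hg : Monotone g := by
    intro u v huv hu
    have h1 : HasPM u := (hgiff u).mp hu
    exact (hgiff v).mpr (hasPM_le huv h1)
  constructor
  · obtain ⟨C, o, h1, h2⟩ := Pool.Agent.PMU.match_upper m
    obtain ⟨E, o', h3, h5⟩ := Pool.Agent.PMU.or_circuit (r := r) g C o (fun u => by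
      rw [Bool.eq_iff_iff, h2, hgiff])
    refine ⟨E, o', h3.trans ?_, fun x => ?_⟩
    · have e1 : 1 ≤ (m + 1) ^ 8 := Nat.one_le_pow _ _ (by omega)
      have e2 : Circuit.size C + 3 ≤ 2 ^ 12 * (m + 1) ^ 8 := by omega
      calc r * (Circuit.size C + 2) + 1 ≤ r * (Circuit.size C + 2) + r := by omega
        _ = r * (Circuit.size C + 3) := by ring
        _ ≤ r * (2 ^ 12 * (m + 1) ^ 8) := Nat.mul_le_mul_left _ e2
        _ = 2 ^ 12 * r * (m + 1) ^ 8 := by ring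
    · rw [h5]
      exact exists_congr fun i => hgiff _
  · refine average_inst_dec g hg m w r hr hw (by simp [sq]) h4 ?_ HasPM hgiff
    intro M o h1 h2
    refine match_circuit m (8 * w) (by omega) ?_ M o h1 fun u => by rw [h2, hgiff]
    calc 2 ^ 29 * (8 * w) ^ 5 * (Nat.log 2 m + 1) ^ 2
        = 2 ^ 44 * w ^ 5 * (Nat.log 2 m + 1) ^ 2 := by ring
      _ ≤ m := hm

open Classical in
/-- **Clique.** -/
theorem average_clique (m w r : ℕ) (hr : 1 ≤ r) (hw : 1 ≤ w)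
    (hm : 2 ^ 49 * w ^ 4 * (Nat.log 2 m + 1) ^ 6 ≤ m ^ 2) (h4 : 4 * m ≤ 2 ^ w) :
    ∃ μ : (Fin r × Edge m → Bool) → ℝ, (∀ x, 0 ≤ μ x) ∧ ∑ x, μ x = 1 ∧
      ∀ (T a : ℕ) (C : Circuit (Fin r × Edge m))
        (out : Fin T → Wire (Fin r × Edge m)) (h : (Fin T → Bool) → Bool),
        C.size + T ≤ 2 ^ (4 * w) → C.FlipsAtMost a →
        ∑ x with (h (fun i => C.val x (out i)) = true ↔
            ∃ i, HasClique (m / 2) fun e => x (i, e)), μ x
          ≤ (1 + (1 / 2) ^ w + (T + 1) * (a + 1) / r) / 2 := by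
  let g : (Edge m → Bool) → Bool := fun u => decide (HasClique (m / 2) u)
  have hgiff : ∀ u, g u = true ↔ HasClique (m / 2) u := fun u => decide_eq_true_iff
  have hg : Monotone g := by
    intro u v huv hu
    exact (hgiff v).mpr (hasClique_mono huv ((hgiff u).mp hu))
  have hcard : Fintype.card (Edge m) ≤ m ^ 2 := by
    refine (Fintype.card_subtype_le _).trans (le_of_eq ?_)
    simp [sq]
  have hlog : Nat.log 2 m ≤ 8 * w := by
    have h5 : m ≤ 2 ^ w := by omega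
    have h6 : Nat.log 2 m ≤ Nat.log 2 (2 ^ w) := Nat.log_mono_right h5
    rw [Nat.log_pow (by norm_num)] at h6
    omega
  refine average_inst_dec g hg m w r hr hw hcard h4 ?_ (HasClique (m / 2)) hgiff
  intro M o h1 h2
  refine clique_bound m (8 * w) (by omega) hlog ?_ M o h1 fun u => by rw [h2, hgiff]
  calc 2 ^ 37 * (8 * w) ^ 4 * (Nat.log 2 m + 1) ^ 6
      = 2 ^ 49 * w ^ 4 * (Nat.log 2 m + 1) ^ 6 := by ring
    _ ≤ m ^ 2 := hm

end Pool.Agent.NTR
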