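import Pool.Agent.NTR.Core

/-!
# Transfer, average case (STUB for helper97)
-/

namespace Pool.Agent.NTR

open Pool.Agent.NegLim Finset
open scoped BigOperators

set_option linter.unusedSectionVars false

section

variable {V : Type} [Fintype V] [DecidableEq V]

/-- Key lemma with `T` outputs. -/
lemma key_state (C : Circuit V) {T : ℕ} (out : Fin T → Wire V) (x : V → Bool) :
    ∃ (M : Circuit V) (o : Wire V), Circuit.negs M = 0 ∧ Circuit.size M ≤ Circuit.size C + T ∧
      ∀ z : V → Bool, x ≤ z → (Circuit.val M z o = true ↔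
        (Circuit.notVals C z ≠ Circuit.notVals C x ∨
          (fun i => Circuit.val C z (out i)) ≠ fun i => Circuit.val C x (out i))) := by
  sorry

/-- Along an increasing sequence the NOT gates and the outputs together change at most
`(T + 1) * (a + 1) - 1` times. -/
lemma state_changes (C : Circuit V) {T : ℕ} (out : Fin T → Wire V) {a : ℕ} (ha : C.FlipsAtMost a)
    (x : ℕ → V → Bool) (hx : Monotone x) (n : ℕ) :
    ((range n).filter (fun k => C.notVals (x k) ≠ C.notVals (x (k + 1)) ∨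
      (fun i => C.val (x k) (out i)) ≠ fun i => C.val (x (k + 1)) (out i))).card + 1
      ≤ (T + 1) * (a + 1) := by
  sorry

end

open Classical in
/-- **Transfer, average case.** -/
theorem transfer_avg {β : Type} [Fintype β] (g : (β → Bool) → Bool) (hg : Monotone g) (r : ℕ)
    (hr : 1 ≤ r) (D₀ D₁ : (β → Bool) → ℝ) (h0 : ∀ u, 0 ≤ D₀ u) (h0s : ∑ u, D₀ u = 1)
    (h0z : ∀ u, D₀ u ≠ 0 → g u = false) (h1 : ∀ u, 0 ≤ D₁ u) (h1s : ∑ u, D₁ u = 1)
    (h1z : ∀ u, D₁ u ≠ 0 → g u = true) :
    ∃ μ : (Fin r × β → Bool) → ℝ, (∀ x, 0 ≤ μ x) ∧ ∑ x, μ x = 1 ∧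
      ∀ (T s a : ℕ) (δ : ℝ),
        (∀ (M : Circuit β) (o : Wire β), M.negs = 0 → M.size ≤ s + T →
          ∑ u with M.val u o = true, D₁ u ≤ ∑ u with M.val u o = true, D₀ u + δ) →
        ∀ (C : Circuit (Fin r × β)) (out : Fin T → Wire (Fin r × β)) (h : (Fin T → Bool) → Bool),
          C.size ≤ s → C.FlipsAtMost a →
          ∑ x with (h (fun i => C.val x (out i)) = true ↔ OrCopies g x), μ x
            ≤ 1 / 2 + δ / 2 + (T + 1) * (a + 1) / (2 * r) := by
  sorry

end Pool.Agent.NTR
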