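import Pool.Agent.NTR.Multi
import Pool.Agent.NegLim.Walk

/-!
# The transfer theorem, average case, free of any model
-/

namespace Pool.Agent.NTR

open Pool.Agent.NegLim Finset
open scoped BigOperators

set_option linter.unusedSectionVars false

section

variable {β : Type} {r : ℕ}

/-- The input whose first `k` blocks are those of `Z`; the other blocks are `0`. -/
def pre (Z : Fin r → β → Bool) (k : ℕ) : Fin r × β → Bool :=
  fun p => if (p.1 : ℕ) < k then Z p.1 p.2 else false

/-- The block `i` of `X` is replaced by `u`. -/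
def put (X : Fin r × β → Bool) (i : Fin r) (u : β → Bool) : Fin r × β → Bool :=
  fun p => if p.1 = i then u p.2 else X p

lemma pre_update_succ (Z : Fin r → β → Bool) (i : Fin r) (u : β → Bool) :
    pre (Function.update Z i u) ((i : ℕ) + 1) = put (pre Z i) i u := by
  funext p
  unfold pre put
  by_cases h : p.1 = i
  · rw [h, Function.update_self]
    simp
  · rw [Function.update_of_ne h, if_neg h]
    have h1 : (p.1 : ℕ) ≠ i := fun h' => h (Fin.ext h')
    by_cases h2 : (p.1 : ℕ) < i
    · show (if (p.1 : ℕ) < i + 1 then Z p.1 p.2 else false)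
        = (if (p.1 : ℕ) < i then Z p.1 p.2 else false)
      rw [if_pos h2, if_pos (by omega)]
    · show (if (p.1 : ℕ) < i + 1 then Z p.1 p.2 else false)
        = (if (p.1 : ℕ) < i then Z p.1 p.2 else false)
      rw [if_neg h2, if_neg (by omega)]

lemma pre_update (Z : Fin r → β → Bool) (i : Fin r) (u : β → Bool) :
    pre (Function.update Z i u) i = pre Z i := by
  funext p
  unfold pre
  by_cases h2 : (p.1 : ℕ) < i
  · rw [if_pos h2, if_pos h2, Function.update_of_ne]
    intro h
    rw [h] at h2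
    exact lt_irrefl _ h2
  · rw [if_neg h2, if_neg h2]

lemma pre_mono (Z : Fin r → β → Bool) : Monotone (pre Z) := by
  intro k l hkl p
  unfold pre
  by_cases h : (p.1 : ℕ) < k
  · rw [if_pos h, if_pos (by omega)]
  · rw [if_neg h]
    exact Bool.false_le _

lemma pre_zero_block (Z : Fin r → β → Bool) (i : Fin r) (e : β) : pre Z i (i, e) = false := by
  unfold pre
  simp

lemma orCopies_pre {g : (β → Bool) → Bool} (h0 : g (fun _ => false) = false)
    {Z : Fin r → β → Bool} (hZ : ∀ j, g (Z j) = false) (k : ℕ) : ¬ OrCopies g (pre Z k) := by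
  rintro ⟨i, hi⟩
  by_cases h : (i : ℕ) < k
  · have h1 : (fun e => pre Z k (i, e)) = Z i := by
      funext e
      unfold pre
      rw [if_pos h]
    rw [h1, hZ i] at hi
    exact Bool.false_ne_true hi
  · have h1 : (fun e => pre Z k (i, e)) = fun _ => false := by
      funext e
      unfold pre
      rw [if_neg h]
    rw [h1, h0] at hi
    exact Bool.false_ne_true hi

lemma orCopies_put {g : (β → Bool) → Bool} (X : Fin r × β → Bool) (i : Fin r) {u : β → Bool}
    (hu : g u = true) : OrCopies g (put X i u) := by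
  refine ⟨i, ?_⟩
  have h1 : (fun e => put X i u (i, e)) = u := by
    funext e
    unfold put
    simp
  rw [h1]
  exact hu

lemma le_put {X : Fin r × β → Bool} {i : Fin r} (hX : ∀ e, X (i, e) = false) (u : β → Bool) :
    X ≤ put X i u := by
  rintro ⟨k, b⟩
  unfold put
  by_cases h : k = i
  · subst h
    rw [hX b]
    exact Bool.false_le _
  · simp [h]

/-- The weight of a list of independent blocks. -/
def wt (D : (β → Bool) → ℝ) (Z : Fin r → β → Bool) : ℝ := ∏ j, D (Z j)

variable [Fintype β] [DecidableEq β]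

lemma wt_sum {D : (β → Bool) → ℝ} (hD : ∑ u, D u = 1) :
    ∑ Z : Fin r → β → Bool, wt D Z = 1 := by
  have h1 := Finset.prod_univ_sum (fun _ : Fin r => (univ : Finset (β → Bool))) (fun _ u => D u)
  rw [Fintype.piFinset_univ] at h1
  unfold wt
  rw [← h1, hD]
  simp

lemma wt_update (D : (β → Bool) → ℝ) (Z : Fin r → β → Bool) (i : Fin r) (u : β → Bool) :
    wt D (Function.update Z i u) * D (Z i) = wt D Z * D u := by
  unfold wt
  rw [← Finset.mul_prod_erase univ (fun j => D (Function.update Z i u j)) (mem_univ i),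
    ← Finset.mul_prod_erase univ (fun j => D (Z j)) (mem_univ i)]
  have h1 : ∏ j ∈ univ.erase i, D (Function.update Z i u j) = ∏ j ∈ univ.erase i, D (Z j) := by
    refine Finset.prod_congr rfl fun j hj => ?_
    rw [Function.update_of_ne (Finset.ne_of_mem_erase hj)]
  rw [h1, Function.update_self]
  ring

/-- Resampling one block. -/
lemma resample {D : (β → Bool) → ℝ} (hD : ∑ u, D u = 1) (i : Fin r)
    (ψ : (Fin r → β → Bool) → ℝ) :
    ∑ Z, wt D Z * ψ Z = ∑ Z, wt D Z * ∑ u, D u * ψ (Function.update Z i u) := by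
  let e : (Fin r → β → Bool) × (β → Bool) ≃ (Fin r → β → Bool) × (β → Bool) :=
    { toFun := fun p => (Function.update p.1 i p.2, p.1 i)
      invFun := fun p => (Function.update p.1 i p.2, p.1 i)
      left_inv := fun p => by simp
      right_inv := fun p => by simp }
  have h1 : ∑ Z, wt D Z * ψ Z = ∑ p : (Fin r → β → Bool) × (β → Bool), wt D p.1 * D p.2 * ψ p.1 := by
    rw [Fintype.sum_prod_type]
    refine Finset.sum_congr rfl fun Z _ => ?_
    have : ∀ u : β → Bool, wt D Z * D u * ψ Z = (wt D Z * ψ Z) * D u := fun u => by ring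
    simp only [this]
    rw [← Finset.mul_sum, hD, mul_one]
  rw [h1, ← Equiv.sum_comp e, Fintype.sum_prod_type]
  refine Finset.sum_congr rfl fun Z _ => ?_
  rw [Finset.mul_sum]
  refine Finset.sum_congr rfl fun u _ => ?_
  show wt D (Function.update Z i u) * D (Z i) * ψ (Function.update Z i u) = _
  rw [wt_update]
  ring

open Classical in
/-- The distribution: `i` is uniform, the blocks before `i` are independent zeros drawn from `D₀`,
the block `i` is drawn from `D₀` or from `D₁`, with probability `1 / 2` each. -/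
noncomputable def muAvg (D₀ D₁ : (β → Bool) → ℝ) (r : ℕ) (x : Fin r × β → Bool) : ℝ :=
  (∑ i : Fin r, ∑ Z : Fin r → β → Bool, wt D₀ Z *
    (ip (pre Z ((i : ℕ) + 1) = x) + ∑ u, D₁ u * ip (put (pre Z i) i u = x))) / (2 * r)

lemma sum_ip_eq {X : Type} [Fintype X] (P : X → Prop) [DecidablePred P] (y : X) :
    ∑ x with P x, ip (y = x) = ip (P y) := by
  classical
  unfold ip
  rw [Finset.sum_filter]
  by_cases h : P y
  · rw [Finset.sum_eq_single y]
    · simp [h]
    · intro b _ hb
      by_cases hP : P b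
      · simp [hP, Ne.symm hb]
      · simp [hP]
    · intro h'; exact absurd (mem_univ y) h'
  · rw [if_neg h]
    refine Finset.sum_eq_zero fun b _ => ?_
    by_cases hP : P b
    · have : y ≠ b := fun h' => h (h' ▸ hP)
      simp [hP, this]
    · simp [hP]

lemma muAvg_sum (D₀ D₁ : (β → Bool) → ℝ) (r : ℕ) (P : (Fin r × β → Bool) → Prop)
    [DecidablePred P] :
    ∑ x with P x, muAvg D₀ D₁ r x = (∑ i : Fin r, ∑ Z : Fin r → β → Bool, wt D₀ Z *
      (ip (P (pre Z ((i : ℕ) + 1))) + ∑ u, D₁ u * ip (P (put (pre Z i) i u)))) / (2 * r) := by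
  unfold muAvg
  rw [← Finset.sum_div]
  congr 1
  rw [Finset.sum_comm]
  refine Finset.sum_congr rfl fun i _ => ?_
  rw [Finset.sum_comm]
  refine Finset.sum_congr rfl fun Z _ => ?_
  rw [← Finset.mul_sum, Finset.sum_add_distrib, sum_ip_eq, Finset.sum_comm]
  congr 2
  refine Finset.sum_congr rfl fun u _ => ?_
  rw [← Finset.mul_sum, sum_ip_eq]

lemma muAvg_nonneg {D₀ D₁ : (β → Bool) → ℝ} (h0 : ∀ u, 0 ≤ D₀ u) (h1 : ∀ u, 0 ≤ D₁ u) (r : ℕ)
    (x : Fin r × β → Bool) : 0 ≤ muAvg D₀ D₁ r x := by
  unfold muAvg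
  refine div_nonneg (Finset.sum_nonneg fun i _ => Finset.sum_nonneg fun Z _ => ?_) (by positivity)
  refine mul_nonneg (Finset.prod_nonneg fun j _ => h0 _) (add_nonneg (ip_nonneg _) ?_)
  exact Finset.sum_nonneg fun u _ => mul_nonneg (h1 u) (ip_nonneg _)

lemma muAvg_total {D₀ D₁ : (β → Bool) → ℝ} (h0s : ∑ u, D₀ u = 1) (h1s : ∑ u, D₁ u = 1) {r : ℕ}
    (hr : 1 ≤ r) : ∑ x, muAvg D₀ D₁ r x = 1 := by
  classical
  have h1 := muAvg_sum D₀ D₁ r (fun _ => True)
  rw [Finset.filter_true] at h1
  have h2 : ∀ i : Fin r, ∑ Z : Fin r → β → Bool, wt D₀ Z *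
      (ip True + ∑ u, D₁ u * ip True) = 2 := by
    intro i
    rw [ip_true trivial]
    simp only [mul_one]
    rw [h1s, ← Finset.sum_mul, wt_sum h0s]
    norm_num
  rw [h1, Finset.sum_congr rfl fun i _ => h2 i, Finset.sum_const, Finset.card_univ,
    Fintype.card_fin, nsmul_eq_mul]
  have hr0 : (0 : ℝ) < r := by exact_mod_cast (by omega : 0 < r)
  field_simp

open Classical in
/-- **Transfer, average case, free of any model.** `st` is the state of a device on the inputs of
the `r` copies of `g`, `A` the set of the inputs at which the answer is yes. If the state changes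
less than `b` times along increasing sequences, and the event that the state changes when one block
of zeros is replaced has, up to `δ`, no larger probability under `D₁` than under `D₀`, then the
answer is right with probability at most `1 / 2 + δ / 2 + b / (2 r)`. -/
theorem avg_core (g : (β → Bool) → Bool) (hg : Monotone g) (r : ℕ)
    (hr : 1 ≤ r) (D₀ D₁ : (β → Bool) → ℝ) (h0 : ∀ u, 0 ≤ D₀ u) (h0s : ∑ u, D₀ u = 1)
    (h0z : ∀ u, D₀ u ≠ 0 → g u = false) (h1 : ∀ u, 0 ≤ D₁ u) (h1s : ∑ u, D₁ u = 1)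
    (h1z : ∀ u, D₁ u ≠ 0 → g u = true) {α : Type} (st : (Fin r × β → Bool) → α)
    (A : (Fin r × β → Bool) → Prop) (b : ℕ) (δ : ℝ) (hA : ∀ x y, st x = st y → (A x ↔ A y))
    (hb : ∀ x : ℕ → (Fin r × β → Bool), Monotone x → ∀ n : ℕ,
      ((range n).filter (fun k => st (x k) ≠ st (x (k + 1)))).card + 1 ≤ b)
    (hδ : ∀ (i : Fin r) (X : Fin r × β → Bool), (∀ e, X (i, e) = false) →
      ∑ u with st (put X i u) ≠ st X, D₁ u ≤ ∑ u with st (put X i u) ≠ st X, D₀ u + δ) :
    ∑ x with (A x ↔ OrCopies g x), muAvg D₀ D₁ r x ≤ 1 / 2 + δ / 2 + b / (2 * r) := by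
  have hr0 : (0 : ℝ) < r := by exact_mod_cast (by omega : 0 < r)
  -- `g` is false at `0`
  have hg0 : g (fun _ => false) = false := by
    by_contra h
    have h : g (fun _ => false) = true := by simpa using h
    have h2 : ∀ u, D₀ u = 0 := by
      intro u
      by_contra hu
      have h3 := h0z u hu
      have h4 : g (fun _ => false) ≤ g u := hg (fun _ => Bool.false_le _)
      rw [h, h3] at h4
      exact absurd h4 (by decide)
    rw [Finset.sum_eq_zero fun u _ => h2 u] at h0s
    exact zero_ne_one h0s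
  -- one term
  have hterm : ∀ (i : Fin r) (Z : Fin r → β → Bool), wt D₀ Z *
      (ip (A (pre Z ((i : ℕ) + 1)) ↔ OrCopies g (pre Z ((i : ℕ) + 1)))
        + ∑ u, D₁ u * ip (A (put (pre Z i) i u) ↔ OrCopies g (put (pre Z i) i u)))
      ≤ wt D₀ Z * (1 + δ) + wt D₀ Z * (ip (A (pre Z (i : ℕ))) - ip (A (pre Z ((i : ℕ) + 1))))
        + wt D₀ Z * ∑ u, D₀ u * ip (st (put (pre Z i) i u) ≠ st (pre Z i)) := by
    intro i Z
    have hw : 0 ≤ wt D₀ Z := Finset.prod_nonneg fun j _ => h0 _
    rcases eq_or_lt_of_le hw with hw0 | hw0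
    · rw [← hw0]; simp
    have hZ : ∀ j, g (Z j) = false := by
      intro j
      refine h0z _ fun hj => ?_
      have : wt D₀ Z = 0 := Finset.prod_eq_zero (mem_univ j) hj
      rw [this] at hw0
      exact lt_irrefl _ hw0
    have e1 : ip (A (pre Z ((i : ℕ) + 1)) ↔ OrCopies g (pre Z ((i : ℕ) + 1)))
        = 1 - ip (A (pre Z ((i : ℕ) + 1))) := by
      have h2 := orCopies_pre (r := r) hg0 hZ ((i : ℕ) + 1)
      by_cases h3 : A (pre Z ((i : ℕ) + 1))
      · rw [ip_true h3, ip_false fun h4 => h2 (h4.mp h3)]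
        norm_num
      · rw [ip_false h3, ip_true ⟨fun h4 => absurd h4 h3, fun h4 => absurd h4 h2⟩]
        norm_num
    have e2 : ∑ u, D₁ u * ip (A (put (pre Z i) i u) ↔ OrCopies g (put (pre Z i) i u))
        ≤ ip (A (pre Z (i : ℕ))) + ∑ u with st (put (pre Z i) i u) ≠ st (pre Z i), D₁ u := by
      have h2 : ip (A (pre Z (i : ℕ))) = ∑ u, D₁ u * ip (A (pre Z (i : ℕ))) := by
        rw [← Finset.sum_mul, h1s, one_mul]
      rw [h2, Finset.sum_filter, ← Finset.sum_add_distrib]
      refine Finset.sum_le_sum fun u _ => ?_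
      rcases eq_or_lt_of_le (h1 u) with hu | hu
      · rw [← hu]; simp
      · have hgu := h1z u hu.ne'
        have h3 := orCopies_put (pre Z i) i hgu
        by_cases h4 : st (put (pre Z i) i u) ≠ st (pre Z i)
        · rw [if_pos h4]
          have := mul_le_mul_of_nonneg_left (ip_le_one
            (A (put (pre Z i) i u) ↔ OrCopies g (put (pre Z i) i u))) hu.le
          have := mul_nonneg hu.le (ip_nonneg (A (pre Z (i : ℕ))))
          linarith
        · rw [if_neg h4, add_zero]
          refine mul_le_mul_of_nonneg_left (ip_mono fun h5 => ?_) hu.le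
          exact (hA _ _ (not_not.mp h4)).mp (h5.mpr h3)
    have e3 := hδ i (pre Z i) fun e => pre_zero_block Z i e
    have e4 : ∑ u with st (put (pre Z i) i u) ≠ st (pre Z i), D₀ u
        = ∑ u, D₀ u * ip (st (put (pre Z i) i u) ≠ st (pre Z i)) := by
      rw [Finset.sum_filter]
      refine Finset.sum_congr rfl fun u _ => ?_
      unfold ip
      split_ifs <;> simp
    rw [e1]
    rw [e4] at e3
    have e5 : (1 - ip (A (pre Z ((i : ℕ) + 1)))) + ∑ u, D₁ u *
        ip (A (put (pre Z i) i u) ↔ OrCopies g (put (pre Z i) i u))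
        ≤ (1 + δ) + (ip (A (pre Z (i : ℕ))) - ip (A (pre Z ((i : ℕ) + 1))))
          + ∑ u, D₀ u * ip (st (put (pre Z i) i u) ≠ st (pre Z i)) := by linarith
    have e6 := mul_le_mul_of_nonneg_left e5 hw0.le
    linarith
  -- the three sums
  have s1 : ∑ _i : Fin r, ∑ Z : Fin r → β → Bool, wt D₀ Z * (1 + δ) = r * (1 + δ) := by
    rw [← Finset.sum_mul, wt_sum h0s, Finset.sum_const, Finset.card_univ, Fintype.card_fin,
      nsmul_eq_mul, one_mul]
  have s2 : ∑ i : Fin r, ∑ Z : Fin r → β → Bool,
      wt D₀ Z * (ip (A (pre Z (i : ℕ))) - ip (A (pre Z ((i : ℕ) + 1)))) ≤ 1 := by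
    rw [Finset.sum_comm]
    calc _ ≤ ∑ Z : Fin r → β → Bool, wt D₀ Z := by
          refine Finset.sum_le_sum fun Z _ => ?_
          rw [← Finset.mul_sum]
          have hw : 0 ≤ wt D₀ Z := Finset.prod_nonneg fun j _ => h0 _
          have h2 : ∑ i : Fin r, (ip (A (pre Z (i : ℕ))) - ip (A (pre Z ((i : ℕ) + 1))))
              = ip (A (pre Z 0)) - ip (A (pre Z r)) := by
            rw [← Finset.sum_range (fun k => ip (A (pre Z k)) - ip (A (pre Z (k + 1)))),
              Finset.sum_range_sub']
          rw [h2]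
          have h3 := ip_le_one (A (pre Z 0))
          have h4 := ip_nonneg (A (pre Z r))
          have h5 := mul_le_mul_of_nonneg_left (show ip (A (pre Z 0)) - ip (A (pre Z r)) ≤ 1 by
            linarith) hw
          linarith
      _ = 1 := wt_sum h0s
  have s3 : ∑ i : Fin r, ∑ Z : Fin r → β → Bool,
      wt D₀ Z * ∑ u, D₀ u * ip (st (put (pre Z i) i u) ≠ st (pre Z i)) ≤ b - 1 := by
    have h2 : ∀ i : Fin r, ∑ Z : Fin r → β → Bool,
        wt D₀ Z * ∑ u, D₀ u * ip (st (put (pre Z i) i u) ≠ st (pre Z i))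
        = ∑ Z : Fin r → β → Bool,
          wt D₀ Z * ip (st (pre Z (i : ℕ)) ≠ st (pre Z ((i : ℕ) + 1))) := by
      intro i
      rw [resample h0s i fun Z => ip (st (pre Z (i : ℕ)) ≠ st (pre Z ((i : ℕ) + 1)))]
      refine Finset.sum_congr rfl fun Z _ => ?_
      congr 1
      refine Finset.sum_congr rfl fun u _ => ?_
      rw [pre_update, pre_update_succ]
      congr 2
      exact propext ⟨fun h h' => h h'.symm, fun h h' => h h'.symm⟩
    rw [Finset.sum_congr rfl fun i _ => h2 i, Finset.sum_comm]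
    calc _ ≤ ∑ Z : Fin r → β → Bool, wt D₀ Z * ((b : ℝ) - 1) := by
          refine Finset.sum_le_sum fun Z _ => ?_
          rw [← Finset.mul_sum]
          refine mul_le_mul_of_nonneg_left ?_ (Finset.prod_nonneg fun j _ => h0 _)
          have h3 := hb (fun k => pre Z k) (pre_mono Z) r
          have h4 : ∑ i : Fin r, ip (st (pre Z (i : ℕ)) ≠ st (pre Z ((i : ℕ) + 1)))
              = (((range r).filter (fun k => st (pre Z k) ≠ st (pre Z (k + 1)))).card : ℝ) := by
            rw [← Finset.sum_range (fun k => ip (st (pre Z k) ≠ st (pre Z (k + 1)))),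
              Finset.card_filter]
            push_cast
            refine Finset.sum_congr rfl fun k _ => ?_
            unfold ip
            split_ifs <;> rfl
          rw [h4]
          have h5 : ((((range r).filter (fun k => st (pre Z k) ≠ st (pre Z (k + 1)))).card : ℕ)
              : ℝ) + 1 ≤ b := by exact_mod_cast h3
          linarith
      _ = b - 1 := by rw [← Finset.sum_mul, wt_sum h0s, one_mul]
  rw [muAvg_sum, div_le_iff₀ (by positivity)]
  have h2 : ∑ i : Fin r, ∑ Z : Fin r → β → Bool, wt D₀ Z *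
      (ip (A (pre Z ((i : ℕ) + 1)) ↔ OrCopies g (pre Z ((i : ℕ) + 1)))
        + ∑ u, D₁ u * ip (A (put (pre Z i) i u) ↔ OrCopies g (put (pre Z i) i u)))
      ≤ r * (1 + δ) + 1 + (b - 1) := by
    refine (Finset.sum_le_sum fun i _ => Finset.sum_le_sum fun Z _ => hterm i Z).trans ?_
    simp only [Finset.sum_add_distrib]
    linarith
  refine h2.trans (le_of_eq ?_)
  field_simp
  ring

end

end Pool.Agent.NTR
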