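import Pool.Agent.NTR.HardDist
import Pool.Agent.NTR.Final
import Pool.Agent.LocE.Glue

/-!
# Average-case hardness on every set of variables from worst-case hardness without NOT gates
-/

namespace Pool.Agent.NTR

open Pool.Agent.NegLim Finset
open scoped BigOperators

open Classical in
/-- **Average case on every set of variables.** Let `g` be a monotone function of `b` variables
such that circuits without NOT gates for `g` have more than `k (s + T + 2 k)` gates,
`k ≥ 3 b / δ²`. For every set `U` of variables of the self-addressing function `f` with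
`a = ⌊|U| / (4 b L)⌋ ≥ 1` there is a distribution `μ` such that every circuit with at most `s`
gates and `T` outputs whose NOT gates change their values at most `c` times on `U`, followed by
any function `h`, computes `f` with `μ`-probability at most
`1 / 2 + δ / 2 + (T + 1) (c + 1) / (2 a)`. -/
theorem average_self {r L : ℕ} {β : Type} [Fintype β] (code : SelfVar r L β → Fin L → Bool)
    (hcode : Function.Injective code) (g : (β → Bool) → Bool) (hg : Monotone g) {δ : ℝ}
    (h0 : 0 < δ) (h1 : δ < 1) (k s T : ℕ) (hk : 3 * (Fintype.card β : ℝ) ≤ k * δ ^ 2)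
    (hM : ∀ (M : Circuit β) (o : Wire β), M.negs = 0 → (∀ u, M.val u o = g u) →
      k * (s + T + 2 * k) < M.size)
    (U : Finset (SelfVar r L β)) (hU : 1 ≤ U.card / (4 * Fintype.card β * L)) :
    ∃ μ : (SelfVar r L β → Bool) → ℝ, (∀ x, 0 ≤ μ x) ∧ ∑ x, μ x = 1 ∧
      ∀ (C : Circuit (SelfVar r L β)) (out : Fin T → Wire (SelfVar r L β))
        (h : (Fin T → Bool) → Bool) (c : ℕ), C.size ≤ s →
        ChangesOn U (fun x => C.notVals x) (c + 1) →
        ∑ x with (h (fun i => C.val x (out i)) = true ↔ SelfHard code g x), μ x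
          ≤ 1 / 2 + δ / 2
            + (T + 1) * (c + 1) / (2 * (U.card / (4 * Fintype.card β * L) : ℕ)) := by
  obtain ⟨hL, hβ, hr⟩ := params_pos hcode hU
  obtain ⟨D₀, D₁, d1, d2, d3, d4, d5, d6, d7⟩ := hard_dist g h0 h1 k (s + T) hk hM
  have hg0 : g (fun _ => false) = false := by
    by_contra h2
    have h2 : g (fun _ => false) = true := by simpa using h2
    have h4 := hM [] (.const true) (by simp [Circuit.negs]) (fun u => by
      have h3 : g (fun _ => false) ≤ g u := hg (fun _ => Bool.false_le _)
      rw [h2] at h3
      exact (top_le_iff.mp h3).symm)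
    exact absurd h4 (by simp [Circuit.size])
  obtain ⟨φ, hφU, hφ⟩ := exists_selfHard_restriction hL code hcode g hg0 U
      (U.card / (4 * Fintype.card β * L)) (Nat.div_mul_le_self _ _)
  obtain ⟨μ, m1, m2, m3⟩ := LocE.glue hU g hg (fun x => decide (SelfHard code g x)) φ hφU
    (fun y => by rw [decide_eq_true_iff]; exact hφ y) D₀ D₁ d1 d2 d3 d4 d5 d6
  refine ⟨μ, m1, m2, fun C out h c hs hC => ?_⟩
  have h2 := m3 T s c δ d7 C out h hs hC
  refine le_trans (le_of_eq ?_) h2
  refine Finset.sum_congr ?_ fun _ _ => rfl
  ext x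
  simp only [mem_filter, mem_univ, true_and]
  constructor
  · intro e
    exact Bool.eq_iff_iff.mpr (e.trans decide_eq_true_iff.symm)
  · intro e
    exact (Bool.eq_iff_iff.mp e).trans decide_eq_true_iff

end Pool.Agent.NTR
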