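import Mathlib

/-!
# Boosting: from worst-case hardness to hard distributions
-/

set_option autoImplicit false

namespace Pool.Agent.NTR

open Finset
open scoped BigOperators

/-- The number `1` or `0` of a Boolean value. -/
def bv (b : Bool) : ℝ := if b then 1 else 0

lemma bv_nonneg (b : Bool) : 0 ≤ bv b := by cases b <;> simp [bv]
lemma bv_le_one (b : Bool) : bv b ≤ 1 := by cases b <;> simp [bv]

/-- The factor by which the weight of the pair `p` changes. -/
noncomputable def fac {X : Type} (δ : ℝ) (p : X × X) (H : X → Bool) : ℝ :=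
  1 - δ * (bv (H p.1) - bv (H p.2))

lemma fac_pos {X : Type} {δ : ℝ} (h0 : 0 < δ) (h1 : δ < 1) (p : X × X) (H : X → Bool) :
    0 < fac δ p H := by
  unfold fac
  have e1 := bv_nonneg (H p.1)
  have e2 := bv_le_one (H p.1)
  have e3 := bv_nonneg (H p.2)
  have e4 := bv_le_one (H p.2)
  have : δ * (bv (H p.1) - bv (H p.2)) ≤ δ * 1 := by
    apply mul_le_mul_of_nonneg_left _ h0.le
    linarith
  linarith

lemma prod_fac_pos {X : Type} {δ : ℝ} (h0 : 0 < δ) (h1 : δ < 1) (p : X × X)
    (L : List (X → Bool)) : 0 < (L.map (fac δ p)).prod := by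
  induction L with
  | nil => simp
  | cons H L ih =>
    rw [List.map_cons, List.prod_cons]
    exact mul_pos (fac_pos h0 h1 p H) ih

/-- The weight of a pair in terms of the counts. -/
lemma prod_fac_eq {X : Type} (δ : ℝ) (p : X × X) (L : List (X → Bool)) :
    ∃ a c : ℕ, (L.map (fac δ p)).prod = (1 - δ) ^ a * (1 + δ) ^ c ∧ a + c ≤ L.length ∧
      L.countP (fun H => H p.1) + c = L.countP (fun H => H p.2) + a := by
  induction L with
  | nil => exact ⟨0, 0, by simp, by simp, by simp⟩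
  | cons H L ih =>
    obtain ⟨a, c, h1, h2, h3⟩ := ih
    rw [List.map_cons, List.prod_cons, h1]
    cases e1 : H p.1 <;> cases e2 : H p.2
    · refine ⟨a, c, ?_, by rw [List.length_cons]; omega, ?_⟩
      · simp [fac, e1, e2]
      · rw [List.countP_cons, List.countP_cons]; simp only [e1, e2]; simpa using h3
    · refine ⟨a, c + 1, ?_, by rw [List.length_cons]; omega, ?_⟩
      · simp only [fac, e1, e2, bv]; norm_num; ring
      · rw [List.countP_cons, List.countP_cons]; simp only [e1, e2]; simp; omega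
    · refine ⟨a + 1, c, ?_, by rw [List.length_cons]; omega, ?_⟩
      · simp only [fac, e1, e2, bv]; norm_num; ring
      · rw [List.countP_cons, List.countP_cons]; simp only [e1, e2]; simp; omega
    · refine ⟨a, c, ?_, by rw [List.length_cons]; omega, ?_⟩
      · simp [fac, e1, e2]
      · rw [List.countP_cons, List.countP_cons]; simp only [e1, e2]; simp; omega

section

variable {X : Type} [Fintype X]

open Classical in
/-- The pairs of a one and a zero of `g`. -/
noncomputable def prs (g : X → Bool) : Finset (X × X) :=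
  univ.filter fun p => g p.1 = true ∧ g p.2 = false

lemma mem_prs {g : X → Bool} {p : X × X} : p ∈ prs g ↔ g p.1 = true ∧ g p.2 = false := by
  simp [prs]

/-- The hypothesis of boosting: no distributions on the zeros and on the ones of `g` are
indistinguishable for the functions in `S`. -/
def Adv (g : X → Bool) (S : Set (X → Bool)) (δ : ℝ) : Prop :=
  ∀ D₀ D₁ : X → ℝ, (∀ u, 0 ≤ D₀ u) → ∑ u, D₀ u = 1 → (∀ u, D₀ u ≠ 0 → g u = false) →
    (∀ u, 0 ≤ D₁ u) → ∑ u, D₁ u = 1 → (∀ u, D₁ u ≠ 0 → g u = true) →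
    ∃ H ∈ S, ∑ u, D₀ u * bv (H u) + δ < ∑ u, D₁ u * bv (H u)

lemma adv_step {g : X → Bool} {S : Set (X → Bool)} {δ : ℝ} (hS : Adv g S δ)
    (hne : (prs g).Nonempty) (w : X × X → ℝ) (hw : ∀ p ∈ prs g, 0 < w p) :
    ∃ H ∈ S, δ * ∑ p ∈ prs g, w p < ∑ p ∈ prs g, w p * (bv (H p.1) - bv (H p.2)) := by
  classical
  set W := ∑ p ∈ prs g, w p with hW
  have hWpos : 0 < W := Finset.sum_pos hw hne
  have key : ∀ (π : X × X → X) (φ : X → ℝ),
      ∑ u, (∑ p ∈ prs g with π p = u, w p) / W * φ u = (∑ p ∈ prs g, w p * φ (π p)) / W := by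
    intro π φ
    rw [← Finset.sum_fiberwise (prs g) π (fun p => w p * φ (π p)), Finset.sum_div]
    refine Finset.sum_congr rfl fun u _ => ?_
    have : ∑ p ∈ prs g with π p = u, w p * φ (π p) = (∑ p ∈ prs g with π p = u, w p) * φ u := by
      rw [Finset.sum_mul]
      refine Finset.sum_congr rfl fun p hp => ?_
      rw [(Finset.mem_filter.mp hp).2]
    rw [this]
    ring
  have hnn : ∀ (π : X × X → X) (u : X), 0 ≤ (∑ p ∈ prs g with π p = u, w p) / W := fun π u =>
    div_nonneg (Finset.sum_nonneg fun p hp => (hw p (Finset.mem_filter.mp hp).1).le) hWpos.le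
  have hsum : ∀ π : X × X → X, ∑ u, (∑ p ∈ prs g with π p = u, w p) / W = 1 := by
    intro π
    have h1 := key π (fun _ => 1)
    simp only [mul_one] at h1
    rw [h1, ← hW, div_self hWpos.ne']
  have hsupp : ∀ (π : X × X → X) (u : X), (∑ p ∈ prs g with π p = u, w p) / W ≠ 0 →
      ∃ p ∈ prs g, π p = u := by
    intro π u hu
    by_contra hcon
    push Not at hcon
    apply hu
    have : (prs g).filter (fun p => π p = u) = ∅ := Finset.filter_false_of_mem fun p hp => hcon p hp
    rw [this, Finset.sum_empty, zero_div]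
  obtain ⟨H, hH, hlt⟩ := hS (fun u => (∑ p ∈ prs g with p.2 = u, w p) / W)
    (fun u => (∑ p ∈ prs g with p.1 = u, w p) / W) (hnn Prod.snd) (hsum Prod.snd)
    (fun u hu => by
      obtain ⟨p, hp, rfl⟩ := hsupp Prod.snd u hu
      exact (mem_prs.mp hp).2)
    (hnn Prod.fst) (hsum Prod.fst)
    (fun u hu => by
      obtain ⟨p, hp, rfl⟩ := hsupp Prod.fst u hu
      exact (mem_prs.mp hp).1)
  refine ⟨H, hH, ?_⟩
  have e1 := key Prod.snd (fun u => bv (H u))
  have e2 := key Prod.fst (fun u => bv (H u))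
  rw [e1, e2, div_add' _ _ _ hWpos.ne', div_lt_div_iff_of_pos_right hWpos] at hlt
  simp only [mul_sub, Finset.sum_sub_distrib]
  linarith

/-- Multiplicative weights. -/
lemma boost_list {g : X → Bool} {S : Set (X → Bool)} {δ : ℝ} (h0 : 0 < δ) (h1 : δ < 1)
    (hS : Adv g S δ) (hne : (prs g).Nonempty) (k : ℕ) :
    ∃ L : List (X → Bool), L.length = k ∧ (∀ H ∈ L, H ∈ S) ∧
      ∑ p ∈ prs g, (L.map (fac δ p)).prod ≤ (1 - δ ^ 2) ^ k * (prs g).card := by
  induction k with
  | zero => exact ⟨[], rfl, by simp, by simp⟩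
  | succ k ih =>
    obtain ⟨L, hL, hLS, hsum⟩ := ih
    obtain ⟨H, hH, hlt⟩ := adv_step hS hne (fun p => (L.map (fac δ p)).prod)
      (fun p _ => prod_fac_pos h0 h1 p L)
    refine ⟨H :: L, by rw [List.length_cons, hL], ?_, ?_⟩
    · intro H' hH'
      rcases List.mem_cons.mp hH' with rfl | h
      · exact hH
      · exact hLS _ h
    · have e1 : ∑ p ∈ prs g, ((H :: L).map (fac δ p)).prod
          = ∑ p ∈ prs g, (L.map (fac δ p)).prod
            - δ * ∑ p ∈ prs g, (L.map (fac δ p)).prod * (bv (H p.1) - bv (H p.2)) := by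
        rw [Finset.mul_sum, ← Finset.sum_sub_distrib]
        refine Finset.sum_congr rfl fun p _ => ?_
        rw [List.map_cons, List.prod_cons]
        unfold fac
        ring
      rw [e1]
      have e2 := mul_le_mul_of_nonneg_left hlt.le h0.le
      have e3 : 0 ≤ 1 - δ ^ 2 := by nlinarith
      have e4 := mul_le_mul_of_nonneg_left hsum e3
      have e5 : (1 - δ ^ 2) * ((1 - δ ^ 2) ^ k * ((prs g).card : ℝ))
          = (1 - δ ^ 2) ^ (k + 1) * (prs g).card := by ring
      nlinarith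

/-- **Boosting.** If the functions in `S` distinguish all distributions on the zeros from all
distributions on the ones of `g` with advantage `δ`, then `g` is a threshold of `k` functions in
`S`. -/
theorem boosting {g : X → Bool} {S : Set (X → Bool)} {δ : ℝ} (h0 : 0 < δ) (h1 : δ < 1)
    (hS : Adv g S δ) (hne : (prs g).Nonempty) (k : ℕ)
    (hk : (1 - δ ^ 2) ^ k * ((prs g).card : ℝ) ^ 2 < 1) :
    ∃ (L : List (X → Bool)) (θ : ℕ), L.length = k ∧ (∀ H ∈ L, H ∈ S) ∧
      ∀ u, g u = true ↔ θ ≤ L.countP (fun H => H u) := by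
  classical
  obtain ⟨L, hL, hLS, hsum⟩ := boost_list h0 h1 hS hne k
  have hpos : 0 < 1 - δ ^ 2 := by nlinarith
  have hlt : ∀ p ∈ prs g, L.countP (fun H => H p.2) < L.countP (fun H => H p.1) := by
    intro p hp
    by_contra hcon
    push Not at hcon
    obtain ⟨a, c, e1, e2, e3⟩ := prod_fac_eq δ p L
    have hac : a ≤ c := by omega
    have e4 : (L.map (fac δ p)).prod ≤ ∑ p ∈ prs g, (L.map (fac δ p)).prod :=
      Finset.single_le_sum (f := fun p => (L.map (fac δ p)).prod)
        (fun p _ => (prod_fac_pos h0 h1 p L).le) hp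
    have e5 : (1 - δ ^ 2) ^ a ≤ (L.map (fac δ p)).prod := by
      rw [e1]
      have h3 : (1 - δ ^ 2) ^ a = (1 - δ) ^ a * (1 + δ) ^ a := by rw [← mul_pow]; ring
      rw [h3]
      apply mul_le_mul_of_nonneg_left _ (pow_nonneg (by linarith) _)
      exact pow_le_pow_right₀ (by linarith) hac
    have e6 : (1 - δ ^ 2) ^ a ≤ (1 - δ ^ 2) ^ k * (prs g).card := e5.trans (e4.trans hsum)
    have e7 : (1 - δ ^ 2) ^ k ≤ ((1 - δ ^ 2) ^ a) ^ 2 := by
      rw [← pow_mul]
      exact pow_le_pow_of_le_one hpos.le (by nlinarith) (by omega)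
    have e8 : ((1 - δ ^ 2) ^ a) ^ 2 ≤ ((1 - δ ^ 2) ^ k * (prs g).card) ^ 2 :=
      pow_le_pow_left₀ (pow_nonneg hpos.le _) e6 2
    have e9 : (1 - δ ^ 2) ^ k ≤ (1 - δ ^ 2) ^ k * ((1 - δ ^ 2) ^ k * ((prs g).card : ℝ) ^ 2) := by
      refine (e7.trans e8).trans (le_of_eq ?_)
      ring
    have e10 : 0 < (1 - δ ^ 2) ^ k := pow_pos hpos _
    nlinarith
  obtain ⟨p₀, hp₀⟩ := hne
  have hone : ((univ : Finset X).filter fun u => g u = true).Nonempty :=
    ⟨p₀.1, by simpa using (mem_prs.mp hp₀).1⟩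
  obtain ⟨Y, hY, hmin⟩ := Finset.exists_min_image _ (fun u => L.countP fun H => H u) hone
  refine ⟨L, L.countP fun H => H Y, hL, hLS, fun u => ⟨fun hu => hmin u (by simpa using hu), ?_⟩⟩
  intro hu
  by_contra hcon
  have hcon : g u = false := by simpa using hcon
  have h2 := hlt (Y, u) (mem_prs.mpr ⟨by simpa using hY, hcon⟩)
  simp only at h2
  omega

end

/-- The numbers for functions of `b` variables. -/
lemma boost_number {β : Type} [Fintype β] (g : (β → Bool) → Bool) [Fintype (β → Bool)]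
    (hne : (prs g).Nonempty) {δ : ℝ} (h0 : 0 < δ) (h1 : δ < 1) (k : ℕ)
    (hk : 3 * (Fintype.card β : ℝ) ≤ k * δ ^ 2) :
    (1 - δ ^ 2) ^ k * ((prs g).card : ℝ) ^ 2 < 1 := by
  classical
  have hb : 1 ≤ Fintype.card β := by
    by_contra hcon
    have h2 : Fintype.card β = 0 := by omega
    have : IsEmpty β := Fintype.card_eq_zero_iff.mp h2
    obtain ⟨p, hp⟩ := hne
    rw [mem_prs] at hp
    have h3 : p.1 = p.2 := Subsingleton.elim _ _
    rw [h3, hp.2] at hp
    exact absurd hp.1 (by simp)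
  set b := Fintype.card β with hbdef
  have hcard : (prs g).card ≤ 4 ^ b := by
    refine (Finset.card_le_univ _).trans (le_of_eq ?_)
    rw [Fintype.card_prod]
    have : Fintype.card (β → Bool) = 2 ^ b := by
      rw [← Nat.card_eq_fintype_card, Nat.card_fun, Nat.card_eq_fintype_card,
        Nat.card_eq_fintype_card, Fintype.card_bool]
    rw [this, ← mul_pow]
    norm_num
  have e1 : ((prs g).card : ℝ) ^ 2 ≤ 16 ^ b := by
    have : ((prs g).card : ℝ) ≤ 4 ^ b := by exact_mod_cast hcard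
    calc ((prs g).card : ℝ) ^ 2 ≤ (4 ^ b) ^ 2 := pow_le_pow_left₀ (by positivity) this 2
      _ = 16 ^ b := by rw [← pow_mul, mul_comm, pow_mul]; norm_num
  have hpos : 0 < 1 - δ ^ 2 := by nlinarith
  have e2 : (1 - δ ^ 2) ^ k ≤ Real.exp (-(3 * b)) := by
    calc (1 - δ ^ 2) ^ k ≤ (Real.exp (-δ ^ 2)) ^ k := by
          apply pow_le_pow_left₀ hpos.le
          have := Real.add_one_le_exp (-δ ^ 2)
          linarith
      _ = Real.exp (-(k * δ ^ 2)) := by rw [← Real.exp_nat_mul]; ring_nf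
      _ ≤ Real.exp (-(3 * b)) := by
          apply Real.exp_le_exp.mpr
          linarith
  have e3 : Real.exp (-(3 * (b : ℝ))) * 16 ^ b < 1 := by
    have h2 : (16 : ℝ) < Real.exp 3 := by
      have h3 := Real.exp_one_gt_d9
      have h4 : Real.exp 3 = Real.exp 1 ^ 3 := by rw [← Real.exp_nat_mul]; norm_num
      rw [h4]
      have h5 : (2.7 : ℝ) ^ 3 ≤ Real.exp 1 ^ 3 := pow_le_pow_left₀ (by norm_num) (by linarith) 3
      norm_num at h5
      linarith
    have h3 : Real.exp (3 * (b : ℝ)) = Real.exp 3 ^ b := by rw [← Real.exp_nat_mul]; ring_nf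
    rw [Real.exp_neg, h3, inv_mul_lt_iff₀ (by positivity), mul_one]
    exact pow_lt_pow_left₀ h2 (by norm_num) (by omega)
  calc (1 - δ ^ 2) ^ k * ((prs g).card : ℝ) ^ 2 ≤ Real.exp (-(3 * b)) * 16 ^ b :=
        mul_le_mul e2 e1 (by positivity) (Real.exp_pos _).le
    _ < 1 := e3

end Pool.Agent.NTR
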