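import Pool.Agent.NTR.Multi
import Pool.Agent.NTR.CliqueBound
import Pool.Agent.NegLim.CliqueAvg

/-!
# Disjunctions of copies of the clique function are hard for circuits with few NOT gates
-/

namespace Pool.Agent.NTR

open Pool.Agent.NegLim Finset

/-- The variables are `r` graphs with `m` vertices. A circuit with `T` outputs which, followed by
any function `h`, finds out whether one of the graphs has a clique with `m / 2` vertices, and the
values of whose NOT gates change at most `a` times along increasing sequences of inputs, has at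
least `2 ^ w - T` gates if `(T + 1) (a + 1) ≤ r`. -/
theorem clique_copies (m w r a : ℕ) {T : ℕ} (hw : 1 ≤ w) (hlog : Nat.log 2 m ≤ w)
    (hm : 2 ^ 37 * w ^ 4 * (Nat.log 2 m + 1) ^ 6 ≤ m ^ 2) (har : (T + 1) * (a + 1) ≤ r)
    (C : Circuit (Fin r × Edge m)) (out : Fin T → Wire (Fin r × Edge m))
    (h : (Fin T → Bool) → Bool) (hC : C.FlipsAtMost a)
    (hf : ∀ x : Fin r × Edge m → Bool, h (fun i => C.val x (out i)) = true ↔
      ∃ i : Fin r, HasClique (m / 2) fun e => x (i, e)) :
    2 ^ w ≤ C.size + T := by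
  classical
  let g : (Edge m → Bool) → Bool := fun y => decide (HasClique (m / 2) y)
  have hg : Monotone g := by
    intro y z hyz hy
    have h1 : HasClique (m / 2) y := by simpa [g] using hy
    simpa [g] using hasClique_mono hyz h1
  obtain ⟨M, o, hneg, hsize, hM⟩ := transfer_multi g hg r a har C out h hC (by
    intro x
    rw [hf]
    unfold OrCopies
    simp [g])
  refine (clique_bound m w hw hlog hm M o hneg fun x => ?_).trans hsize
  rw [hM]
  simp [g]

/-- The same for circuits with `t` NOT gates, `(T + 1) * 2 ^ t ≤ r`. -/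
theorem clique_copies_negs (m w r : ℕ) {T : ℕ} (hw : 1 ≤ w) (hlog : Nat.log 2 m ≤ w)
    (hm : 2 ^ 37 * w ^ 4 * (Nat.log 2 m + 1) ^ 6 ≤ m ^ 2)
    (C : Circuit (Fin r × Edge m)) (out : Fin T → Wire (Fin r × Edge m))
    (h : (Fin T → Bool) → Bool) (hr : (T + 1) * 2 ^ C.negs ≤ r)
    (hf : ∀ x : Fin r × Edge m → Bool, h (fun i => C.val x (out i)) = true ↔
      ∃ i : Fin r, HasClique (m / 2) fun e => x (i, e)) :
    2 ^ w ≤ C.size + T := by
  refine clique_copies m w r (2 ^ C.negs - 1) hw hlog hm ?_ C out h (flipsAtMost_negs C) hf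
  rwa [Nat.sub_add_cancel Nat.one_le_two_pow]

/-- One output, sharp number of NOT gates: `a < r`. -/
theorem clique_copies_one (m w r a : ℕ) (hw : 1 ≤ w) (hlog : Nat.log 2 m ≤ w)
    (hm : 2 ^ 37 * w ^ 4 * (Nat.log 2 m + 1) ^ 6 ≤ m ^ 2) (har : a < r)
    (C : Circuit (Fin r × Edge m)) (out : Wire (Fin r × Edge m)) (hC : C.FlipsAtMost a)
    (hf : ∀ x : Fin r × Edge m → Bool, C.val x out = true ↔
      ∃ i : Fin r, HasClique (m / 2) fun e => x (i, e)) :
    2 ^ w ≤ C.size + 1 := by
  classical
  let g : (Edge m → Bool) → Bool := fun y => decide (HasClique (m / 2) y)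
  have hg : Monotone g := by
    intro y z hyz hy
    have h1 : HasClique (m / 2) y := by simpa [g] using hy
    simpa [g] using hasClique_mono hyz h1
  obtain ⟨M, o, hneg, hsize, hM⟩ := transfer g hg r a har C out hC (by
    intro x
    rw [hf]
    unfold OrCopies
    simp [g])
  refine (clique_bound m w hw hlog hm M o hneg fun x => ?_).trans hsize
  rw [hM]
  simp [g]

end Pool.Agent.NTR
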