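import Pool.Agent.NTR.Mon

/-!
# NOT gates do not help to compute the disjunction of copies of a monotone function
-/

namespace Pool.Agent.NTR

open Pool.Agent.NegLim Finset

/-- The disjunction of `r` copies of `g`: the function `g(x¹) ∨ ... ∨ g(xʳ)`. -/
def OrCopies {r : ℕ} {β : Type} (g : (β → Bool) → Bool) (x : Fin r × β → Bool) : Prop :=
  ∃ i : Fin r, g (fun e => x (i, e)) = true

/-- The input whose first blocks are the members of the list `L`; all other bits are `0`. -/
def blocks {β : Type} (r : ℕ) (L : List (β → Bool)) : Fin r × β → Bool :=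
  fun p => L.getD p.1 (fun _ => false) p.2

lemma blocks_le_snoc {β : Type} (r : ℕ) (L : List (β → Bool)) (Z : β → Bool) :
    blocks r L ≤ blocks r (L ++ [Z]) := by
  intro p
  unfold blocks
  by_cases h : (p.1 : ℕ) < L.length
  · rw [List.getD_eq_getElem _ _ h, List.getD_eq_getElem _ _ (by rw [List.length_append]; omega),
      List.getElem_append_left h]
  · rw [List.getD_eq_default _ _ (not_lt.mp h)]
    exact Bool.false_le _

lemma orCopies_blocks {β : Type} {r : ℕ} {g : (β → Bool) → Bool} (h0 : g (fun _ => false) = false)
    {L : List (β → Bool)} (hL : ∀ Z ∈ L, g Z = false) : ¬ OrCopies g (blocks r L) := by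
  rintro ⟨i, hi⟩
  have : (fun e => blocks r L (i, e)) = L.getD i (fun _ => false) := rfl
  rw [this] at hi
  by_cases h : (i : ℕ) < L.length
  · rw [List.getD_eq_getElem _ _ h, hL _ (List.getElem_mem h)] at hi
    exact Bool.false_ne_true hi
  · rw [List.getD_eq_default _ _ (not_lt.mp h), h0] at hi
    exact Bool.false_ne_true hi

lemma orCopies_snoc {β : Type} {r : ℕ} {g : (β → Bool) → Bool} {L : List (β → Bool)}
    (hr : L.length < r) {Y : β → Bool} (hY : g Y = true) :
    OrCopies g (blocks r (L ++ [Y])) := by
  refine ⟨⟨L.length, hr⟩, ?_⟩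
  have : (fun e => blocks r (L ++ [Y]) (⟨L.length, hr⟩, e))
      = (L ++ [Y]).getD L.length (fun _ => false) := rfl
  rw [this, List.getD_eq_getElem _ _ (by simp)]
  simpa using hY

/-- **Greedy choice of zeros.** If `w` changes at most `a < r` times along increasing sequences,
then some increasing sequence of zeros of `g` put into the first blocks is such that no zero of
`g` in the next block changes the value of `w`. -/
lemma greedy {β W : Type} (g : (β → Bool) → Bool) (r a : ℕ) (har : a < r)
    (w : (Fin r × β → Bool) → W)
    (hw : ∀ x : ℕ → (Fin r × β → Bool), Monotone x → ∀ n : ℕ,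
      (∀ k < n, w (x k) ≠ w (x (k + 1))) → n ≤ a) :
    ∃ L : List (β → Bool), (∀ Z ∈ L, g Z = false) ∧ L.length < r ∧
      ∀ Z : β → Bool, g Z = false → w (blocks r (L ++ [Z])) = w (blocks r L) := by
  classical
  by_contra hcon
  push Not at hcon
  have hnext : ∀ L : {L : List (β → Bool) // ∀ Z ∈ L, g Z = false},
      ∃ L' : {L : List (β → Bool) // ∀ Z ∈ L, g Z = false}, blocks r L.1 ≤ blocks r L'.1 ∧
        (L.1.length < r → L'.1.length = L.1.length + 1 ∧
          w (blocks r L'.1) ≠ w (blocks r L.1)) := by
    rintro ⟨L, hL⟩
    by_cases h : L.length < r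
    · obtain ⟨Z, hZ, hne⟩ := hcon L hL h
      refine ⟨⟨L ++ [Z], ?_⟩, blocks_le_snoc r L Z, fun _ => ⟨by simp, hne⟩⟩
      intro Z' hZ'
      rcases List.mem_append.mp hZ' with h' | h'
      · exact hL _ h'
      · rw [List.mem_singleton.mp h']; exact hZ
    · exact ⟨⟨L, hL⟩, le_refl _, fun h' => absurd h' h⟩
  choose nx hnx1 hnx2 using hnext
  let sq : ℕ → {L : List (β → Bool) // ∀ Z ∈ L, g Z = false} :=
    fun n => Nat.rec ⟨[], by simp⟩ (fun _ L => nx L) n
  have hsq : ∀ k, sq (k + 1) = nx (sq k) := fun k => rfl
  have hlen : ∀ k ≤ r, (sq k).1.length = k := by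
    intro k
    induction k with
    | zero => intro _; rfl
    | succ k ih =>
      intro hk
      have h1 := ih (by omega)
      rw [hsq, (hnx2 (sq k) (by omega)).1, h1]
  have hmono : Monotone fun k => blocks r (sq k).1 :=
    monotone_nat_of_le_succ fun k => by rw [hsq]; exact hnx1 (sq k)
  have h1 := hw (fun k => blocks r (sq k).1) hmono r (by
    intro k hk
    have h2 := (hnx2 (sq k) (by rw [hlen k hk.le]; exact hk)).2
    rw [← hsq] at h2
    exact h2.symm)
  omega

/-- **Transfer, worst case.** Let `g` be a monotone function. A circuit for the disjunction of `r`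
copies of `g`, the values of whose NOT gates change fewer than `r` times along every increasing
sequence of inputs, yields a circuit without NOT gates for `g` with one gate more. -/
theorem transfer_circuits {β : Type} [Finite β] (g : (β → Bool) → Bool) (hg : Monotone g) (r a : ℕ)
    (har : a < r) (C : Circuit (Fin r × β)) (out : Wire (Fin r × β)) (hC : C.FlipsAtMost a)
    (hf : ∀ x : Fin r × β → Bool, C.val x out = true ↔ OrCopies g x) :
    ∃ (M : Circuit β) (o : Wire β), Circuit.negs M = 0 ∧ Circuit.size M ≤ Circuit.size C + 1 ∧
      ∀ u : β → Bool, Circuit.val M u o = g u := by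
  classical
  have : Fintype β := Fintype.ofFinite β
  by_cases h0 : g (fun _ => false) = true
  · refine ⟨[], .const true, by simp [Circuit.negs], by simp [Circuit.size], fun u => ?_⟩
    have : g (fun _ => false) ≤ g u := hg (fun _ => Bool.false_le _)
    rw [h0] at this
    exact (top_le_iff.mp this).symm
  have h0 : g (fun _ => false) = false := by simpa using h0
  obtain ⟨L, hL, hr, hfix⟩ := greedy g r a har (fun x => Circuit.notVals C x) (by
    intro x hx n hn
    have h1 := hC x hx n
    have h2 : (range n).filter (fun k => C.notVals (x k) ≠ C.notVals (x (k + 1))) = range n :=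
      Finset.filter_true_of_mem fun k hk => hn k (Finset.mem_range.mp hk)
    rw [h2, Finset.card_range] at h1
    exact h1)
  obtain ⟨M, o, hneg, hsize, hM⟩ := key C out (blocks r L)
  let σ : Fin r × β → Lit β :=
    fun p => if (p.1 : ℕ) = L.length then Lit.var p.2 else Lit.const (blocks r L p)
  have hσ : ∀ u : β → Bool, (fun v => (σ v).val u) = blocks r (L ++ [u]) := by
    intro u
    funext p
    simp only [σ]
    split_ifs with h
    · simp only [Lit.val, blocks]
      rw [h, List.getD_eq_getElem _ _ (by simp)]
      simp
    · simp only [Lit.val, blocks]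
      by_cases h' : (p.1 : ℕ) < L.length
      · rw [List.getD_eq_getElem _ _ h',
          List.getD_eq_getElem _ _ (by rw [List.length_append]; omega),
          List.getElem_append_left h']
      · rw [List.getD_eq_default _ _ (not_lt.mp h'), List.getD_eq_default]
        rw [List.length_append, List.length_singleton]
        omega
  refine ⟨M.map (Gate.subst σ), o.subst σ, ?_, ?_, fun u => ?_⟩
  · rw [Circuit.subst_negs]; exact hneg
  · rw [Circuit.subst_size]; exact hsize
  · rw [Circuit.subst_val, hσ, Bool.eq_iff_iff, hM _ (blocks_le_snoc r L u), hf]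
    constructor
    · intro h
      by_contra hu
      have hu : g u = false := by simpa using hu
      rcases h with h | h
      · exact h (hfix u hu)
      · refine orCopies_blocks h0 ?_ h
        intro Z hZ
        rcases List.mem_append.mp hZ with h' | h'
        · exact hL _ h'
        · rw [List.mem_singleton.mp h']; exact hu
    · intro h
      exact Or.inr (orCopies_snoc hr h)

end Pool.Agent.NTR
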