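import Pool.Agent.NTR.Final

/-!
# The clique instance, short form
-/

namespace Pool.Agent.NTR

open Pool.Agent.NegLim Finset

/-- **P vs NP**, cliques with `m` of `2 m` vertices. -/
theorem clique_short {m w r L : ℕ} (hlog : Nat.log 2 m < w) (hm : 2 ^ 21 * w ^ 5 ≤ m)
    (code : SelfVar r L (Edge (2 * m)) → Fin L → Bool) (hcode : Function.Injective code)
    (g : (Edge (2 * m) → Bool) → Bool) (hg : ∀ u, g u = true ↔ HasClique m u)
    (U : Finset (SelfVar r L (Edge (2 * m)))) (C : Circuit (SelfVar r L (Edge (2 * m))))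
    (out : Wire (SelfVar r L (Edge (2 * m))))
    (hf : ∀ x : SelfVar r L (Edge (2 * m)) → Bool,
      Circuit.val C x out = true ↔ SelfHard code g x)
    (hC : ChangesOn U (fun x => Circuit.notVals C x)
      (U.card / (4 * Fintype.card (Edge (2 * m)) * L))) :
    2 ^ w ≤ Circuit.size C := by
  have hw : 1 ≤ w := by omega
  have hm1 : 1 ≤ m := by
    have : 1 ≤ 2 ^ 21 * w ^ 5 := Nat.succ_le_of_lt (by positivity)
    omega
  have hl : Nat.log 2 (2 * m) = Nat.log 2 m + 1 := by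
    rw [mul_comm]
    exact Nat.log_mul_base (by norm_num) (by omega)
  have hhalf : 2 * m / 2 = m := by omega
  refine clique_self hw (by rw [hl]; omega) ?_ code hcode g (by rw [hhalf]; exact hg) U C out hf hC
  rw [hl]
  have h1 : Nat.log 2 m + 1 + 1 ≤ 2 * w := by omega
  calc 2 ^ 37 * w ^ 4 * (Nat.log 2 m + 1 + 1) ^ 6 ≤ 2 ^ 37 * w ^ 4 * (2 * w) ^ 6 := by gcongr
    _ = 2 ^ 43 * w ^ 10 := by ring
    _ ≤ 2 ^ 44 * w ^ 10 := by gcongr <;> norm_num
    _ = (2 * (2 ^ 21 * w ^ 5)) ^ 2 := by ring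
    _ ≤ (2 * m) ^ 2 := by gcongr

end Pool.Agent.NTR
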