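import Pool.Agent.NTR.GenMain

/-!
# Adaptive queries to a class of monotone functions
-/

namespace Pool.Agent.NTR

open Finset Gen

variable {ι β : Type}

/-- The answers to adaptive queries at the input `x`: each round chooses, depending on the list
`v` of all answers so far, a list of Boolean functions; their values at `x` are appended. -/
def answers (x : ι → Bool) : List (List Bool → List ((ι → Bool) → Bool)) → List Bool → List Bool
  | [], v => v
  | q :: qs, v => answers x qs (v ++ (q v).map fun F => F x)

/-- The queries asked at `x₀` whose answer is `false`. -/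
def falseQ (x₀ : ι → Bool) :
    List (List Bool → List ((ι → Bool) → Bool)) → List Bool → List ((ι → Bool) → Bool)
  | [], _ => []
  | q :: qs, v => ((q v).filter fun F => !F x₀) ++ falseQ x₀ qs (v ++ (q v).map fun F => F x₀)

theorem length_falseQ (x₀ : ι → Bool) (qs : List (List Bool → List ((ι → Bool) → Bool)))
    (ts : List ℕ) (h : List.Forall₂ (fun q t => ∀ v, (q v).length ≤ t) qs ts) :
    ∀ v, (falseQ x₀ qs v).length ≤ ts.sum := by
  induction h with
  | nil => intro v; simp [falseQ]
  | @cons q t qs ts hq _ ih =>
    intro v
    rw [falseQ, List.length_append, List.sum_cons]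
    exact Nat.add_le_add ((List.length_filter_le _ _).trans (hq v)) (ih _)

theorem answers_eq_append (x : ι → Bool) (qs : List (List Bool → List ((ι → Bool) → Bool))) :
    ∀ v, ∃ u, answers x qs v = v ++ u := by
  induction qs with
  | nil => exact fun v => ⟨[], by simp [answers]⟩
  | cons q qs ih =>
    intro v
    obtain ⟨u, hu⟩ := ih (v ++ (q v).map fun F => F x)
    exact ⟨((q v).map fun F => F x) ++ u, by rw [answers, hu, List.append_assoc]⟩

/-- If no query answered `false` at `x₀` is `true` at `x ≥ x₀`, the answers are the same. -/
theorem answers_eq_of_falseQ {x₀ x : ι → Bool} (hx : x₀ ≤ x)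
    (qs : List (List Bool → List ((ι → Bool) → Bool)))
    (hm : ∀ q ∈ qs, ∀ v, ∀ F ∈ q v, Monotone F) :
    ∀ v, (∀ G ∈ falseQ x₀ qs v, G x = false) → answers x qs v = answers x₀ qs v := by
  induction qs with
  | nil => intro v _; rfl
  | cons q qs ih =>
    intro v hG
    have hl : ((q v).map fun F => F x) = (q v).map fun F => F x₀ := by
      refine List.map_congr_left fun F hF => ?_
      cases h0 : F x₀ with
      | false =>
        exact hG F (by
          rw [falseQ]
          exact List.mem_append_left _ (List.mem_filter.2 ⟨hF, by simp [h0]⟩))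
      | true =>
        have := hm q (by simp) v F hF hx
        rw [h0] at this
        exact top_le_iff.mp this
    rw [answers, answers, hl]
    refine ih (fun q' h' => hm q' (List.mem_cons_of_mem _ h')) _ fun G hG' => hG G ?_
    rw [falseQ]
    exact List.mem_append_right _ hG'

/-- If the answers at `x` and `x₀` are the same, no query answered `false` at `x₀` is `true`
at `x`. -/
theorem falseQ_of_answers_eq {x₀ x : ι → Bool}
    (qs : List (List Bool → List ((ι → Bool) → Bool))) :
    ∀ v, answers x qs v = answers x₀ qs v → ∀ G ∈ falseQ x₀ qs v, G x = false := by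
  induction qs with
  | nil => intro v _ G hG; simp [falseQ] at hG
  | cons q qs ih =>
    intro v h G hG
    rw [answers, answers] at h
    have hl : ((q v).map fun F => F x) = (q v).map fun F => F x₀ := by
      obtain ⟨u, hu⟩ := answers_eq_append x qs (v ++ (q v).map fun F => F x)
      obtain ⟨u', hu'⟩ := answers_eq_append x₀ qs (v ++ (q v).map fun F => F x₀)
      rw [hu, hu', List.append_assoc, List.append_assoc] at h
      exact (List.append_inj (List.append_cancel_left h) (by simp)).1
    rw [hl] at h
    rw [falseQ] at hG
    rcases List.mem_append.1 hG with hG | hG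
    · obtain ⟨hF, h0⟩ := List.mem_filter.1 hG
      have h1 : G x = G x₀ := List.map_inj_left.1 hl G hF
      rw [h1]
      simpa using h0
    · exact ih _ h G hG

theorem mem_falseQ (P : ((ι → Bool) → Bool) → Prop) (x₀ : ι → Bool)
    (qs : List (List Bool → List ((ι → Bool) → Bool)))
    (hm : ∀ q ∈ qs, ∀ v, ∀ F ∈ q v, P F) : ∀ v, ∀ G ∈ falseQ x₀ qs v, P G := by
  induction qs with
  | nil => intro v G hG; simp [falseQ] at hG
  | cons q qs ih =>
    intro v G hG
    rw [falseQ] at hG
    rcases List.mem_append.1 hG with hG | hG
    · exact hm q (by simp) v G (List.mem_filter.1 hG).1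
    · exact ih (fun q' h' => hm q' (List.mem_cons_of_mem _ h')) _ G hG

theorem count_map_mono {x y : ι → Bool} (hxy : x ≤ y) (L : List ((ι → Bool) → Bool))
    (hm : ∀ F ∈ L, Monotone F) :
    (L.map fun F => F x).count true ≤ (L.map fun F => F y).count true ∧
      ((L.map fun F => F x) ≠ (L.map fun F => F y) →
        (L.map fun F => F x).count true < (L.map fun F => F y).count true) := by
  induction L with
  | nil => simp
  | cons F L ih =>
    obtain ⟨h1, h2⟩ := ih fun G hG => hm G (List.mem_cons_of_mem _ hG)
    have h3 := hm F (by simp) hxy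
    simp only [List.map_cons, List.count_cons]
    cases hx : F x <;> cases hy : F y
    · refine ⟨by simpa using h1, fun h => ?_⟩
      have : (L.map fun F => F x) ≠ (L.map fun F => F y) := fun h' => h (by rw [h'])
      simpa using h2 this
    · refine ⟨by simp; omega, fun _ => by simp; omega⟩
    · rw [hx, hy] at h3
      exact absurd h3 (by decide)
    · refine ⟨by simpa using h1, fun h => ?_⟩
      have : (L.map fun F => F x) ≠ (L.map fun F => F y) := fun h' => h (by rw [h'])
      simpa using h2 this

/-- A rank which grows whenever the answers change. -/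
theorem exists_rank (qs : List (List Bool → List ((ι → Bool) → Bool))) (ts : List ℕ)
    (h : List.Forall₂ (fun q t => ∀ v, (q v).length ≤ t) qs ts)
    (hm : ∀ q ∈ qs, ∀ v, ∀ F ∈ q v, Monotone F) :
    ∀ v, ∃ ρ : (ι → Bool) → ℕ, (∀ x, ρ x < (ts.map (· + 1)).prod) ∧
      ∀ x y, x ≤ y → ρ x ≤ ρ y ∧ (answers x qs v ≠ answers y qs v → ρ x < ρ y) := by
  induction h with
  | nil => exact fun v => ⟨fun _ => 0, by simp, fun x y _ => ⟨le_rfl, by simp [answers]⟩⟩
  | @cons q t qs ts hq _ ih =>
    intro v
    have ih' := ih fun q' h' => hm q' (List.mem_cons_of_mem _ h')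
    choose ρ h1 h2 using ih'
    set P := (ts.map (· + 1)).prod with hP
    refine ⟨fun x => ((q v).map fun F => F x).count true * P
      + ρ (v ++ (q v).map fun F => F x) x, fun x => ?_, fun x y hxy => ?_⟩
    · have h3 : ((q v).map fun F => F x).count true ≤ t :=
        (List.count_le_length.trans (by rw [List.length_map])).trans (hq v)
      have h4 := h1 (v ++ (q v).map fun F => F x) x
      rw [List.map_cons, List.prod_cons, ← hP]
      calc _ < ((q v).map fun F => F x).count true * P + P := by
              exact Nat.add_lt_add_left h4 _
        _ ≤ t * P + P := by gcongr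
        _ = (t + 1) * P := by ring
    · obtain ⟨h3, h4⟩ := count_map_mono hxy (q v) (hm q (by simp) v)
      have h5 := h1 (v ++ (q v).map fun F => F x) x
      by_cases he : ((q v).map fun F => F x) = (q v).map fun F => F y
      · rw [answers, answers, ← he]
        have h6 := h2 (v ++ (q v).map fun F => F x) x y hxy
        simp only [← he]
        exact ⟨by have := h6.1; omega, fun h => by have := h6.2 h; omega⟩
      · have h6 := h4 he
        have : ((q v).map fun F => F x).count true * P + P
            ≤ ((q v).map fun F => F y).count true * P := by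
          calc _ = (((q v).map fun F => F x).count true + 1) * P := by ring
            _ ≤ _ := Nat.mul_le_mul_right _ h6
        simp only
        exact ⟨by omega, fun _ => by omega⟩

/-- **Few changes.** If the rounds have at most `t₁, t₂, ...` queries, the answers change at most
`(t₁ + 1) (t₂ + 1) ... - 1` times along every increasing sequence. -/
theorem answers_changes (qs : List (List Bool → List ((ι → Bool) → Bool))) (ts : List ℕ)
    (h : List.Forall₂ (fun q t => ∀ v, (q v).length ≤ t) qs ts)
    (hm : ∀ q ∈ qs, ∀ v, ∀ F ∈ q v, Monotone F) :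
    ChangesLe (fun x => answers x qs []) ((ts.map (· + 1)).prod - 1) := by
  intro x hx n
  obtain ⟨ρ, h1, h2⟩ := exists_rank qs ts h hm []
  have key : ∀ n, {k | k < n ∧ answers (x k) qs [] ≠ answers (x (k + 1)) qs []}.ncard
      + ρ (x 0) ≤ ρ (x n) := by
    intro n
    induction n with
    | zero => simp
    | succ n ih =>
      have hx' := h2 (x n) (x (n + 1)) (hx (Nat.le_succ n))
      by_cases he : answers (x n) qs [] = answers (x (n + 1)) qs []
      · have : {k | k < n + 1 ∧ answers (x k) qs [] ≠ answers (x (k + 1)) qs []}
            = {k | k < n ∧ answers (x k) qs [] ≠ answers (x (k + 1)) qs []} := by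
          ext k
          constructor
          · rintro ⟨hk, hne⟩
            refine ⟨lt_of_le_of_ne (Nat.lt_succ_iff.1 hk) ?_, hne⟩
            rintro rfl
            exact hne he
          · rintro ⟨hk, hne⟩
            exact ⟨by omega, hne⟩
        rw [this]
        exact ih.trans hx'.1
      · have hfin : {k | k < n ∧ answers (x k) qs [] ≠ answers (x (k + 1)) qs []}.Finite :=
          (Set.finite_Iio n).subset fun k hk => hk.1
        have : {k | k < n + 1 ∧ answers (x k) qs [] ≠ answers (x (k + 1)) qs []}
            ⊆ insert n {k | k < n ∧ answers (x k) qs [] ≠ answers (x (k + 1)) qs []} := by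
          rintro k ⟨hk, hne⟩
          rcases Nat.lt_succ_iff_lt_or_eq.1 hk with h | h
          · exact Or.inr ⟨h, hne⟩
          · exact Or.inl h
        have h3 := Set.ncard_le_ncard this (hfin.insert n)
        have h4 := Set.ncard_insert_le n
          {k | k < n ∧ answers (x k) qs [] ≠ answers (x (k + 1)) qs []}
        have h5 := hx'.2 he
        omega
  have h3 := key n
  have h4 := h1 (x n)
  simp only [ge_iff_le]
  omega

/-- **Transfer theorem, adaptive queries.** Rounds of queries to functions of the class `M` are
asked, each chosen arbitrarily depending on the answers so far; if `v` is the list of all answers,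
the result is the value of a function `P v` of the class. If the result is the OR of `r` copies of
`g` and the list of answers changes less than `r` times along every increasing sequence of inputs,
then `g` is an OR of functions of the class, one more than the number of queries. -/
theorem transfer_query (M : MonoClass) {r a : ℕ} (g : (β → Bool) → Bool)
    (hg : g (fun _ => false) = false)
    (qs : List (List Bool → List ((Fin r × β → Bool) → Bool))) (ts : List ℕ)
    (hts : List.Forall₂ (fun q t => ∀ v, (q v).length ≤ t) qs ts)
    (hqs : ∀ q ∈ qs, ∀ v, ∀ F ∈ q v, M.mem _ F) (P : List Bool → (Fin r × β → Bool) → Bool)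
    (hP : ∀ v, M.mem _ (P v)) (har : a < r) (ha : ChangesLe (fun x => answers x qs []) a)
    (hf : ∀ x, P (answers x qs []) x = true ↔ ∃ i, g (fun b => x (i, b)) = true) :
    ∃ Gs : List ((β → Bool) → Bool), Gs.length ≤ ts.sum + 1 ∧
      (∀ G ∈ Gs, M.mem β G) ∧ ∀ u, g u = true ↔ ∃ G ∈ Gs, G u = true := by
  obtain ⟨Zs, hlen, hz, hw⟩ := exists_prefix (fun x => answers x qs []) g ha har
  set x₀ := fill r Zs with hx₀
  have hblock : ∀ (u : β → Bool), g u = false →
      ¬ ∃ i : Fin r, g (fun b => fill r (Zs ++ [u]) (i, b)) = true := by
    rintro u hu ⟨i, hi⟩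
    have : g (fun b => (Zs ++ [u]).getD i (fun _ => false) b) = false := by
      rcases lt_or_ge (i : ℕ) (Zs ++ [u]).length with h | h
      · rw [List.getD_eq_getElem _ _ h]
        rcases List.mem_append.1 (List.getElem_mem h) with h' | h'
        · exact hz _ h'
        · rw [List.mem_singleton.1 h']
          exact hu
      · rw [List.getD_eq_default _ _ h]
        exact hg
    exact absurd hi (by rw [show (fun b => fill r (Zs ++ [u]) (i, b))
      = fun b => (Zs ++ [u]).getD i (fun _ => false) b from rfl, this]; simp)
  have hle : ∀ u, x₀ ≤ fill r (Zs ++ [u]) := fun u => fill_append_le r Zs [u]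
  refine ⟨(fun u => P (answers x₀ qs []) (fill r (Zs ++ [u]))) ::
    (falseQ x₀ qs []).map fun G u => G (fill r (Zs ++ [u])), ?_, ?_, fun u => ?_⟩
  · rw [List.length_cons, List.length_map]
    exact Nat.succ_le_succ (length_falseQ x₀ qs ts hts [])
  · intro G hG
    rcases List.mem_cons.1 hG with rfl | hG
    · exact mem_fill M r Zs _ (hP _)
    · obtain ⟨G', hG', rfl⟩ := List.mem_map.1 hG
      exact mem_fill M r Zs _ (mem_falseQ (M.mem _) x₀ qs hqs _ G' hG')
  · constructor
    · intro hu
      by_contra hno
      push Not at hno
      have h1 : ∀ G ∈ falseQ x₀ qs [], G (fill r (Zs ++ [u])) = false := by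
        intro G hG
        have := hno (fun u => G (fill r (Zs ++ [u])))
          (List.mem_cons_of_mem _ (List.mem_map.2 ⟨G, hG, rfl⟩))
        simpa using this
      have h2 := answers_eq_of_falseQ (hle u) qs
        (fun q hq v F hF => M.mono _ F (hqs q hq v F hF)) [] h1
      have h3 := hno _ List.mem_cons_self
      rw [← h2] at h3
      refine h3 ((hf _).2 ⟨⟨Zs.length, hlen⟩, ?_⟩)
      have : (fun b => fill r (Zs ++ [u]) (⟨Zs.length, hlen⟩, b)) = u := by
        funext b
        rw [fill_append_eq]
        simp
      rw [this]
      exact hu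
    · rintro ⟨G, hG, hGu⟩
      by_contra hu
      have hu : g u = false := by simpa using hu
      have h2 : answers (fill r (Zs ++ [u])) qs [] = answers x₀ qs [] := hw u hu
      rcases List.mem_cons.1 hG with rfl | hG
      · have h3 : P (answers (fill r (Zs ++ [u])) qs []) (fill r (Zs ++ [u])) = true := by
          rw [h2]
          exact hGu
        exact hblock u hu ((hf _).1 h3)
      · obtain ⟨G', hG', rfl⟩ := List.mem_map.1 hG
        have := falseQ_of_answers_eq qs [] h2 G' hG'
        have hGu' : G' (fill r (Zs ++ [u])) = true := hGu
        rw [this] at hGu'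
        exact absurd hGu' (by simp)

end Pool.Agent.NTR
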