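import Pool.Agent.NTR.FullDefs
import Pool.Agent.NTR.Query

/-!
# Algorithms with adaptive queries to a class of monotone functions
-/

namespace Pool.Agent.NTR

/-- The Boolean function `f` is found by an algorithm of unlimited power which knows the values of
the variables outside `U` and asks adaptive queries to functions of the class `K`, in rounds of at
most `t₁, t₂, ...` queries (`ts` is the list of these numbers) followed by one last query whose
answer is the value of `f`; the answers of the rounds change fewer than `r` times along every
increasing sequence of inputs which agree outside `U`. -/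
def Finds (K : Gen.MonoClass) {ι : Type} (U : Finset ι) (ts : List ℕ) (r : ℕ)
    (f : (ι → Bool) → Prop) : Prop :=
  ∃ (Q : (ι → Bool) → List (List Bool → List ((ι → Bool) → Bool)))
    (P : (ι → Bool) → List Bool → (ι → Bool) → Bool),
    (∀ x y, (∀ v, v ∉ U → x v = y v) → Q x = Q y ∧ P x = P y) ∧
    (∀ x, List.Forall₂ (fun q t => ∀ v, (q v).length ≤ t ∧ ∀ F ∈ q v, K.mem ι F) (Q x) ts) ∧
    (∀ x v, K.mem ι (P x v)) ∧
    ChangesOn U (fun x => answers x (Q x) []) r ∧
    ∀ x, P x (answers x (Q x) []) x = true ↔ f x

end Pool.Agent.NTR
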