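import Pool.Agent.NTR.Core

/-!
# The transfer theorem for circuits, exact form
-/

namespace Pool.Agent.NTR

open Pool.Agent.NegLim Finset

set_option linter.unusedSectionVars false

section

variable {V : Type} [Fintype V] [DecidableEq V]

/-- Local description of a circuit at `x`, with an exact count of the gates. -/
lemma local_fam_sharp (C : Circuit V) (x : Finset V) :
    ∃ (s : ℕ) (D : Set (Set (Finset V))) (fs : List (Set (Finset V))) (F : Set (Finset V)),
      (F = ∅ ∧ s ≤ Circuit.size C ∨ s + 1 ≤ Circuit.size C) ∧ MonComp s D ∧
      (∀ f ∈ fs, f ∈ D) ∧ F ∈ D ∧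
      (∀ z, x ⊆ z → (z ∈ F ↔ Circuit.notVals C (chi z) ≠ Circuit.notVals C (chi x))) ∧
      (∀ z, x ⊆ z → z ∉ F → gateVals (chi z) C [] = fs.map (mb z)) := by
  induction C using List.reverseRecOn with
  | nil =>
    refine ⟨0, _, [], ∅, Or.inl ⟨rfl, by simp [Circuit.size]⟩, MonComp.base, by simp,
      Or.inr (Or.inr rfl), ?_, ?_⟩
    · intro z _
      simp [Circuit.notVals]
    · intro z _ _
      rfl
  | append_singleton C a ih =>
    obtain ⟨s, D, fs, F, hs, hD, hfs, hF, hnot, hval⟩ := ih
    have hsz : Circuit.size (C ++ [a]) = Circuit.size C + 1 := by simp [Circuit.size]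
    have hxF : x ∉ F := by
      rw [hnot x (Finset.Subset.refl x)]
      simp
    have hrun : ∀ z : Finset V, gateVals (chi z) (C ++ [a]) []
        = gateVals (chi z) C [] ++ [a.val (chi z) (gateVals (chi z) C [])] := by
      intro z
      rw [gateVals_append]
      rfl
    cases a with
    | and a b =>
      refine ⟨s + 1, _, fs ++ [a.fam fs ∩ b.fam fs], F,
        by rw [hsz]; exact hs.imp (fun h => ⟨h.1, by omega⟩) (fun h => by omega),
        MonComp.and hD (Wire.fam_mem hD.base_subset hfs a) (Wire.fam_mem hD.base_subset hfs b),
        ?_, Or.inr hF, ?_, ?_⟩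
      · intro f hf
        rw [List.mem_append, List.mem_singleton] at hf
        rcases hf with hf | hf
        · exact Or.inr (hfs f hf)
        · exact Or.inl hf
      · intro z hz
        rw [notVals_snoc, notVals_snoc]
        simp only [Gate.isNot, Bool.false_eq_true, if_false, List.append_nil]
        exact hnot z hz
      · intro z hz hzF
        rw [hrun z, hval z hz hzF, List.map_append, List.map_singleton]
        congr 2
        rw [Gate.val, Wire.val_fam, Wire.val_fam, Bool.eq_iff_iff, Bool.and_eq_true, mb_iff,
          mb_iff, mb_iff, Set.mem_inter_iff]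
    | or a b =>
      refine ⟨s + 1, _, fs ++ [a.fam fs ∪ b.fam fs], F,
        by rw [hsz]; exact hs.imp (fun h => ⟨h.1, by omega⟩) (fun h => by omega),
        MonComp.or hD (Wire.fam_mem hD.base_subset hfs a) (Wire.fam_mem hD.base_subset hfs b),
        ?_, Or.inr hF, ?_, ?_⟩
      · intro f hf
        rw [List.mem_append, List.mem_singleton] at hf
        rcases hf with hf | hf
        · exact Or.inr (hfs f hf)
        · exact Or.inl hf
      · intro z hz
        rw [notVals_snoc, notVals_snoc]
        simp only [Gate.isNot, Bool.false_eq_true, if_false, List.append_nil]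
        exact hnot z hz
      · intro z hz hzF
        rw [hrun z, hval z hz hzF, List.map_append, List.map_singleton]
        congr 2
        rw [Gate.val, Wire.val_fam, Wire.val_fam, Bool.eq_iff_iff, Bool.or_eq_true, mb_iff,
          mb_iff, mb_iff, Set.mem_union]
    | not a =>
      have hup : IsUpperSet (a.fam fs) :=
        hD.upper _ (Wire.fam_mem hD.base_subset hfs a)
      have hFup : IsUpperSet F := hD.upper _ hF
      -- the value of the new gate away from `F`
      have hnv : ∀ z, x ⊆ z → z ∉ F →
          (Gate.not a).val (chi z) (gateVals (chi z) C []) = !mb z (a.fam fs) := by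
        intro z hz hzF
        rw [hval z hz hzF, Gate.val, Wire.val_fam]
      have hxv := hnv x (Finset.Subset.refl x) hxF
      by_cases hx : x ∈ a.fam fs
      · refine ⟨s, D, fs ++ [∅], F, by rw [hsz]; omega, hD, ?_, hF, ?_, ?_⟩
        · intro f hf
          rw [List.mem_append, List.mem_singleton] at hf
          rcases hf with hf | hf
          · exact hfs f hf
          · rw [hf]; exact hD.base_subset (Or.inr (Or.inr rfl))
        · intro z hz
          rw [notVals_snoc, notVals_snoc]
          simp only [Gate.isNot, if_true]
          rw [hnot z hz]
          constructor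
          · intro h h2
            exact h (List.append_inj' h2 rfl).1
          · intro h h2
            apply h
            have hzF : z ∉ F := by rw [hnot z hz]; simpa using h2
            rw [h2, hnv z hz hzF, hxv]
            have e1 : mb x (a.fam fs) = true := mb_iff.mpr hx
            have e2 : mb z (a.fam fs) = true := mb_iff.mpr (hup hz hx)
            rw [e1, e2]
        · intro z hz hzF
          rw [hrun z, hnv z hz hzF, hval z hz hzF, List.map_append, List.map_singleton]
          congr 2
          have e2 : mb z (a.fam fs) = true := mb_iff.mpr (hup hz hx)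
          have e3 : mb z ∅ = false := by
            rw [Bool.eq_false_iff]
            intro h
            exact absurd (mb_iff.mp h) (Set.notMem_empty z)
          rw [e2, e3]; rfl
      · obtain ⟨s', D', hs', hD', hsub, hF'⟩ : ∃ (s' : ℕ) (D' : Set (Set (Finset V))),
            s' ≤ Circuit.size C ∧ MonComp s' D' ∧ D ⊆ D' ∧ F ∪ a.fam fs ∈ D' := by
          rcases hs with ⟨hF0, hs⟩ | hs
          · refine ⟨s, D, hs, hD, le_refl _, ?_⟩
            rw [hF0, Set.empty_union]
            exact Wire.fam_mem hD.base_subset hfs a
          · exact ⟨s + 1, _, hs, MonComp.or hD hF (Wire.fam_mem hD.base_subset hfs a),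
              fun f hf => Or.inr hf, Or.inl rfl⟩
        refine ⟨s', D', fs ++ [Set.univ], F ∪ a.fam fs, Or.inr (by rw [hsz]; omega),
          hD', ?_, hF', ?_, ?_⟩
        · intro f hf
          rw [List.mem_append, List.mem_singleton] at hf
          rcases hf with hf | hf
          · exact hsub (hfs f hf)
          · rw [hf]; exact hD'.base_subset (Or.inr (Or.inl rfl))
        · intro z hz
          rw [notVals_snoc, notVals_snoc]
          simp only [Gate.isNot, if_true]
          have e1 : mb x (a.fam fs) = false := by
            rw [Bool.eq_false_iff]
            intro h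
            exact hx (mb_iff.mp h)
          rw [hxv, e1]
          constructor
          · rintro (h | h) h2
            · rw [hnot z hz] at h
              exact h (List.append_inj' h2 rfl).1
            · have h3 := List.append_inj' h2 rfl
              have hzF : z ∉ F := by rw [hnot z hz]; simpa using h3.1
              have h4 := h3.2
              rw [hnv z hz hzF, mb_iff.mpr h] at h4
              simp at h4
          · intro h
            by_contra hcon
            rw [Set.mem_union, not_or] at hcon
            apply h
            have h3 : Circuit.notVals C (chi z) = Circuit.notVals C (chi x) := by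
              have := hcon.1
              rw [hnot z hz] at this
              simpa using this
            have e2 : mb z (a.fam fs) = false := by
              rw [Bool.eq_false_iff]
              intro h
              exact hcon.2 (mb_iff.mp h)
            rw [h3, hnv z hz hcon.1, e2]
        · intro z hz hzF
          rw [Set.mem_union, not_or] at hzF
          rw [hrun z, hnv z hz hzF.1, hval z hz hzF.1, List.map_append, List.map_singleton]
          congr 2
          have e2 : mb z (a.fam fs) = false := by
            rw [Bool.eq_false_iff]
            intro h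
            exact hzF.2 (mb_iff.mp h)
          have e3 : mb z Set.univ = true := mb_iff.mpr (Set.mem_univ z)
          rw [e2, e3]; rfl

/-- **Key lemma.** Let `x` be an input of the circuit `C`. For the inputs `z ≥ x` the statement
the values of the NOT gates at `z` and at `x` differ, or the output at `z` is true is computed
by a circuit without NOT gates with at most as many gates as `C`. -/
lemma key_sharp (C : Circuit V) (out : Wire V) (x : V → Bool) :
    ∃ (M : Circuit V) (o : Wire V), Circuit.negs M = 0 ∧ Circuit.size M ≤ Circuit.size C ∧
      ∀ z : V → Bool, x ≤ z → (Circuit.val M z o = true ↔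
        (Circuit.notVals C z ≠ Circuit.notVals C x ∨ Circuit.val C z out = true)) := by
  classical
  let S : (V → Bool) → Finset V := fun y => univ.filter fun v => y v = true
  have hS : ∀ y, chi (S y) = y := by
    intro y
    funext v
    unfold chi
    rw [Bool.eq_iff_iff, decide_eq_true_iff]
    simp [S]
  have hmono : ∀ y z : V → Bool, y ≤ z → S y ⊆ S z := by
    intro y z h v hv
    simp only [S, mem_filter, mem_univ, true_and] at hv ⊢
    have h2 := h v
    rw [hv] at h2
    exact top_le_iff.mp h2
  obtain ⟨s, D, fs, F, hs, hD, hfs, hF, hnot, hval⟩ := local_fam_sharp C (S x)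
  obtain ⟨s', D', hs', hD', hF'⟩ : ∃ (s' : ℕ) (D' : Set (Set (Finset V))),
      s' ≤ Circuit.size C ∧ MonComp s' D' ∧ F ∪ out.fam fs ∈ D' := by
    rcases hs with ⟨hF0, hs⟩ | hs
    · refine ⟨s, D, hs, hD, ?_⟩
      rw [hF0, Set.empty_union]
      exact Wire.fam_mem hD.base_subset hfs out
    · exact ⟨s + 1, _, hs, MonComp.or hD hF (Wire.fam_mem hD.base_subset hfs out), Or.inl rfl⟩
  obtain ⟨M, hlen, hneg, hM⟩ := monComp_circuit hD'
  obtain ⟨o, ho, hov⟩ := hM _ hF'
  refine ⟨M, o, hneg, ?_, fun z hz => ?_⟩
  · unfold Circuit.size at hs' ⊢
    rw [hlen]
    exact hs'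
  · have h1 := hov (S z)
    rw [hS] at h1
    rw [h1, Set.mem_union]
    have h2 := hnot (S z) (hmono x z hz)
    rw [hS, hS] at h2
    by_cases hzF : S z ∈ F
    · exact ⟨fun _ => Or.inl (h2.mp hzF), fun _ => Or.inl hzF⟩
    · have h3 := hval (S z) (hmono x z hz) hzF
      rw [hS] at h3
      have h4 : Circuit.val C z out = mb (S z) (out.fam fs) := by
        unfold Circuit.val
        rw [h3]
        nth_rewrite 1 [← hS z]
        rw [Wire.val_fam]
      rw [h4, mb_iff]
      constructor
      · rintro (h | h)
        · exact absurd h hzF
        · exact Or.inr h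
      · rintro (h | h)
        · exact Or.inl (h2.mpr h)
        · exact Or.inr h

end

/-- **Transfer, circuits, exact form.** Let `g` be a monotone function. A circuit for the
disjunction of `r` copies of `g`, the values of whose NOT gates change fewer than `r` times along
every increasing sequence of inputs, has at least as many gates as the smallest circuit without
NOT gates for `g`. -/
theorem transfer_sharp {β : Type} [Finite β] (g : (β → Bool) → Bool) (hg : Monotone g) (r a : ℕ)
    (har : a < r) (C : Circuit (Fin r × β)) (out : Wire (Fin r × β)) (hC : C.FlipsAtMost a)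
    (hf : ∀ x : Fin r × β → Bool, C.val x out = true ↔ OrCopies g x) :
    ∃ (M : Circuit β) (o : Wire β), Circuit.negs M = 0 ∧ Circuit.size M ≤ Circuit.size C ∧
      ∀ u : β → Bool, Circuit.val M u o = g u := by
  classical
  have : Fintype β := Fintype.ofFinite β
  by_cases h0 : g (fun _ => false) = true
  · refine ⟨[], .const true, by simp [Circuit.negs], by simp [Circuit.size], fun u => ?_⟩
    have : g (fun _ => false) ≤ g u := hg (fun _ => Bool.false_le _)
    rw [h0] at this
    exact (top_le_iff.mp this).symm
  have h0 : g (fun _ => false) = false := by simpa using h0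
  obtain ⟨L, hL, hr, hfix⟩ := greedy g r a har (fun x => Circuit.notVals C x) (by
    intro x hx n hn
    have h1 := hC x hx n
    have h2 : (range n).filter (fun k => C.notVals (x k) ≠ C.notVals (x (k + 1))) = range n :=
      Finset.filter_true_of_mem fun k hk => hn k (Finset.mem_range.mp hk)
    rw [h2, Finset.card_range] at h1
    exact h1)
  obtain ⟨M, o, hneg, hsize, hM⟩ := key_sharp C out (blocks r L)
  let σ : Fin r × β → Lit β :=
    fun p => if (p.1 : ℕ) = L.length then Lit.var p.2 else Lit.const (blocks r L p)
  have hσ : ∀ u : β → Bool, (fun v => (σ v).val u) = blocks r (L ++ [u]) := by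
    intro u
    funext p
    simp only [σ]
    split_ifs with h
    · simp only [Lit.val, blocks]
      rw [h, List.getD_eq_getElem _ _ (by simp)]
      simp
    · simp only [Lit.val, blocks]
      by_cases h' : (p.1 : ℕ) < L.length
      · rw [List.getD_eq_getElem _ _ h',
          List.getD_eq_getElem _ _ (by rw [List.length_append]; omega),
          List.getElem_append_left h']
      · rw [List.getD_eq_default _ _ (not_lt.mp h'), List.getD_eq_default]
        rw [List.length_append, List.length_singleton]
        omega
  refine ⟨M.map (Gate.subst σ), o.subst σ, ?_, ?_, fun u => ?_⟩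
  · rw [Circuit.subst_negs]; exact hneg
  · rw [Circuit.subst_size]; exact hsize
  · rw [Circuit.subst_val, hσ, Bool.eq_iff_iff, hM _ (blocks_le_snoc r L u), hf]
    constructor
    · intro h
      by_contra hu
      have hu : g u = false := by simpa using hu
      rcases h with h | h
      · exact h (hfix u hu)
      · refine orCopies_blocks h0 ?_ h
        intro Z hZ
        rcases List.mem_append.mp hZ with h' | h'
        · exact hL _ h'
        · rw [List.mem_singleton.mp h']; exact hu
    · intro h
      exact Or.inr (orCopies_snoc hr h)

end Pool.Agent.NTR
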