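import Pool.Agent.NTR.FullDefs
import Pool.Agent.NTR.Sharp
import Pool.Agent.NegLim.CliqueAvg

/-!
# The transfer theorem with free negations
-/

namespace Pool.Agent.NTR

open Pool.Agent.NegLim Finset

theorem hard_restrict {r L : ℕ} {β : Type} (g : (β → Bool) → Bool)
    (φ : SelVar r L β → (Fin r × β) ⊕ Bool)
    (hφ : ∀ (y : (Fin r × β) → Bool) (k : Fin r × β),
        selVal (fun v => Sum.elim y id (φ v)) k ↔ y k = true) (y : Fin r × β → Bool) :
    Hard g (fun v => Sum.elim y id (φ v)) ↔ ∃ i, g (fun b => y (i, b)) = true := by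
  unfold Hard
  constructor
  · rintro ⟨i, u, hu, hg⟩
    refine ⟨i, ?_⟩
    have : (fun b => y (i, b)) = u := by
      funext b
      rw [Bool.eq_iff_iff, hu b, hφ]
    rw [this]
    exact hg
  · rintro ⟨i, hi⟩
    exact ⟨i, fun b => y (i, b), fun b => (hφ y (i, b)).symm, hi⟩

/-- The substitution as literals. -/
def litOf {κ : Type} : κ ⊕ Bool → Lit κ
  | .inl k => .var k
  | .inr c => .const c

theorem litOf_val {κ : Type} (y : κ → Bool) (s : κ ⊕ Bool) :
    (litOf s).val y = Sum.elim y id s := by
  cases s <;> rfl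

theorem elim_mono {κ : Type} {y z : κ → Bool} (h : y ≤ z) (s : κ ⊕ Bool) :
    Sum.elim y id s ≤ Sum.elim z id s := by
  cases s with
  | inl k => exact h k
  | inr c => exact le_rfl

/-- **Circuits.** -/
theorem circuits {β : Type} [Fintype β] (g : (β → Bool) → Bool) (hg : Monotone g) {r L : ℕ}
    (U : Finset (SelVar r L β)) (hU : r * Fintype.card β * (2 * L + 1) ≤ U.card)
    (C : Circuit (SelVar r L β)) (out : Wire (SelVar r L β))
    (hC : ChangesOn U (fun x => Circuit.notVals C x) r)
    (hf : ∀ x : SelVar r L β → Bool, Circuit.val C x out = true ↔ Hard g x) :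
    ∃ (M : Circuit β) (o : Wire β), Circuit.negs M = 0 ∧ Circuit.size M ≤ Circuit.size C ∧
      ∀ u : β → Bool, Circuit.val M u o = g u := by
  classical
  obtain ⟨φ, hφU, hφ⟩ := exists_restriction U hU
  have hr : 0 < r := (Nat.zero_le _).trans_lt
    (hC (fun _ _ => false) monotone_const (fun _ _ _ => rfl) 0)
  set σ : SelVar r L β → Lit (Fin r × β) := fun v => litOf (φ v) with hσ
  have hσv : ∀ y : Fin r × β → Bool, (fun v => (σ v).val y) = fun v => Sum.elim y id (φ v) :=
    fun y => funext fun v => litOf_val y (φ v)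
  have hflips : Circuit.FlipsAtMost (C.map (Gate.subst σ)) (r - 1) := by
    intro x hx n
    have h1 := hC (fun k v => Sum.elim (x k) id (φ v))
      (fun i j hij v => elim_mono (hx hij) (φ v)) (by
        intro k v hv
        obtain ⟨c, hc⟩ := hφU v hv
        simp only [hc, Sum.elim_inr]) n
    have h2 : {k | k < n ∧ Circuit.notVals C (fun v => Sum.elim (x k) id (φ v))
        ≠ Circuit.notVals C (fun v => Sum.elim (x (k + 1)) id (φ v))}
        = ↑((range n).filter (fun k => Circuit.notVals (C.map (Gate.subst σ)) (x k)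
          ≠ Circuit.notVals (C.map (Gate.subst σ)) (x (k + 1)))) := by
      ext k
      simp only [Set.mem_ofPred_eq, coe_filter, mem_range, notVals_subst, hσv]
    rw [h2, Set.ncard_coe_finset] at h1
    omega
  obtain ⟨M, o, h1, h2, h3⟩ := transfer_sharp g hg r (r - 1) (by omega) (C.map (Gate.subst σ))
    (out.subst σ) hflips (by
      intro y
      rw [Circuit.subst_val, hσv, hf, hard_restrict g φ hφ]
      rfl)
  exact ⟨M, o, h1, h2.trans (Circuit.subst_size σ C).le, h3⟩

/-- Restriction of the queries. -/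
theorem answers_subst {ι κ : Type} (φ : ι → κ ⊕ Bool)
    (qs : List (List Bool → List ((ι → Bool) → Bool))) (y : κ → Bool) : ∀ v,
    answers y (qs.map fun q v => (q v).map fun F y => F fun i => Sum.elim y id (φ i)) v
      = answers (fun i => Sum.elim y id (φ i)) qs v := by
  induction qs with
  | nil => intro v; rfl
  | cons q qs ih =>
    intro v
    rw [List.map_cons, answers, answers, ih]
    simp only [List.map_map]
    rfl

theorem forall₂_mem_left {α γ : Type*} {R : α → γ → Prop} {l : List α} {l' : List γ}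
    (h : List.Forall₂ R l l') : ∀ a ∈ l, ∃ c, R a c := by
  induction h with
  | nil => intro a ha; simp at ha
  | cons h _ ih =>
    intro a ha
    rcases List.mem_cons.1 ha with rfl | ha
    · exact ⟨_, h⟩
    · exact ih a ha

/-- **Classes of functions.** -/
theorem classes (K : MonoClass) {β : Type} [Fintype β] (g : (β → Bool) → Bool)
    (hg : g (fun _ => false) = false) {r L : ℕ}
    (U : Finset (SelVar r L β)) (hU : r * Fintype.card β * (2 * L + 1) ≤ U.card) (ts : List ℕ)
    (hF : Finds K U ts r (Hard g)) :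
    ∃ Gs : List ((β → Bool) → Bool), Gs.length ≤ ts.sum + 1 ∧
      (∀ G ∈ Gs, K.mem β G) ∧ ∀ u, g u = true ↔ ∃ G ∈ Gs, G u = true := by
  classical
  obtain ⟨φ, hφU, hφ⟩ := exists_restriction U hU
  obtain ⟨Q, P, hQP, hts, hP, hch, hf⟩ := hF
  have hr : 0 < r := (Nat.zero_le _).trans_lt
    (hch (fun _ _ => false) monotone_const (fun _ _ _ => rfl) 0)
  set c₀ : SelVar r L β → Bool := fun v => Sum.elim (fun _ => false) id (φ v) with hc₀
  have hsame : ∀ y : Fin r × β → Bool, Q (fun v => Sum.elim y id (φ v)) = Q c₀ ∧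
      P (fun v => Sum.elim y id (φ v)) = P c₀ := by
    intro y
    refine hQP _ _ fun v hv => ?_
    obtain ⟨c, hc⟩ := hφU v hv
    simp only [hc₀, hc, Sum.elim_inr]
  refine transfer_query K (a := r - 1) (r := r) g hg
    ((Q c₀).map fun q v => (q v).map fun F y => F fun i => Sum.elim y id (φ i)) ts ?_ ?_
    (fun v y => P c₀ v fun i => Sum.elim y id (φ i)) ?_ (by omega) ?_ ?_
  · rw [List.forall₂_map_left_iff]
    refine (hts c₀).imp fun q t h v => ?_
    rw [List.length_map]
    exact (h v).1
  · intro q hq v F hF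
    obtain ⟨q', hq', rfl⟩ := List.mem_map.1 hq
    obtain ⟨F', hF', rfl⟩ := List.mem_map.1 hF
    refine K.subst _ _ F' φ ?_
    obtain ⟨t, h⟩ := forall₂_mem_left (hts c₀) q' hq'
    exact (h v).2 F' hF'
  · intro v
    exact K.subst _ _ (P c₀ v) φ (hP c₀ v)
  · intro x hx n
    have h1 := hch (fun k v => Sum.elim (x k) id (φ v))
      (fun i j hij v => elim_mono (hx hij) (φ v)) (by
        intro k v hv
        obtain ⟨c, hc⟩ := hφU v hv
        simp only [hc, Sum.elim_inr]) n
    simp only [(hsame _).1] at h1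
    simp only [answers_subst]
    exact Nat.le_sub_one_of_lt h1
  · intro y
    have h1 := hf (fun v => Sum.elim y id (φ v))
    rw [(hsame y).1, (hsame y).2, hard_restrict g φ hφ] at h1
    rw [answers_subst]
    exact h1

end Pool.Agent.NTR
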