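import Pool.Agent.NTR.GenDefs

/-!
# The OR of `r` copies of `g` is as hard with few changes of the NOT gates as `g` without NOT gates
-/

namespace Pool.Agent.NTR.Gen

open Finset

variable {ι β : Type}

/-- `r` blocks of variables: the blocks `0, 1, ...` are filled with the members of a list. -/
def fill (r : ℕ) (Zs : List (β → Bool)) : Fin r × β → Bool :=
  fun p => Zs.getD p.1 (fun _ => false) p.2

theorem fill_append_zero (r : ℕ) (Zs : List (β → Bool)) :
    fill r (Zs ++ [fun _ => false]) = fill r Zs := by
  funext p
  unfold fill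
  rcases lt_trichotomy (p.1 : ℕ) Zs.length with h | h | h
  · rw [List.getD_append _ _ _ _ h]
  · rw [List.getD_append_right _ _ _ _ h.ge, h]
    simp
  · rw [List.getD_append_right _ _ _ _ h.le, List.getD_eq_default _ _ h.le]
    rw [List.getD_eq_default]
    simp only [List.length_singleton]
    omega

theorem fill_append_le (r : ℕ) (Zs Ys : List (β → Bool)) : fill r Zs ≤ fill r (Zs ++ Ys) := by
  intro p
  unfold fill
  rcases lt_or_ge (p.1 : ℕ) Zs.length with h | h
  · rw [List.getD_append _ _ _ _ h]
  · rw [List.getD_eq_default _ _ h]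
    exact Bool.false_le _

theorem fill_take_mono (r : ℕ) (Zs : List (β → Bool)) : Monotone fun k => fill r (Zs.take k) := by
  intro k l h
  have : Zs.take l = Zs.take k ++ (Zs.take l).drop k := by
    conv_lhs => rw [← List.take_append_drop k (Zs.take l), List.take_take, min_eq_left h]
  show fill r (Zs.take k) ≤ fill r (Zs.take l)
  rw [this]
  exact fill_append_le r _ _

/-- The greedy prefix of zeros. -/
theorem exists_prefix {W : Type} {r a : ℕ} (w : (Fin r × β → Bool) → W) (g : (β → Bool) → Bool)
    (hw : ChangesLe w a) (har : a < r) :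
    ∃ Zs : List (β → Bool), Zs.length < r ∧ (∀ Z ∈ Zs, g Z = false) ∧
      ∀ Z, g Z = false → w (fill r (Zs ++ [Z])) = w (fill r Zs) := by
  classical
  let P : ℕ → Prop := fun i => ∃ Zs : List (β → Bool), Zs.length = i ∧ (∀ Z ∈ Zs, g Z = false) ∧
    ∀ k < i, w (fill r (Zs.take k)) ≠ w (fill r (Zs.take (k + 1)))
  have h0 : P 0 := ⟨[], rfl, by simp, by simp⟩
  have hb : ∀ i, P i → i ≤ a := by
    rintro i ⟨Zs, -, -, h⟩
    have := hw (fun k => fill r (Zs.take k)) (fill_take_mono r Zs) i
    have he : {k | k < i ∧ w (fill r (Zs.take k)) ≠ w (fill r (Zs.take (k + 1)))}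
        = Set.Iio i := by
      ext k
      exact ⟨fun hk => hk.1, fun hk => ⟨hk, h k hk⟩⟩
    rw [he] at this
    simpa using this
  obtain ⟨i, hi, hmax⟩ : ∃ i, P i ∧ ¬ P (i + 1) := by
    by_contra hcon
    push Not at hcon
    have : ∀ i, P i := fun i => Nat.rec h0 (fun i hi => hcon i hi) i
    have := hb (a + 1) (this (a + 1))
    omega
  obtain ⟨Zs, hl, hz, hk⟩ := hi
  refine ⟨Zs, by have := hb i ⟨Zs, hl, hz, hk⟩; omega, hz, fun Z hZ => ?_⟩
  by_contra hne
  refine hmax ⟨Zs ++ [Z], by simp [hl], ?_, ?_⟩
  · intro Y hY
    rcases List.mem_append.1 hY with h | h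
    · exact hz Y h
    · rw [List.mem_singleton.1 h]
      exact hZ
  · intro k hki
    rcases Nat.lt_succ_iff_lt_or_eq.1 hki with h | h
    · rw [List.take_append_of_le_length (by omega), List.take_append_of_le_length (by omega)]
      exact hk k h
    · subst h
      rw [List.take_append_of_le_length (by omega), List.take_of_length_le (by omega),
        List.take_of_length_le (by simp [hl])]
      exact fun h => hne h.symm

/-- The functions feeding those NOT gates which have the value `true` at `x₀`, with the outputs of
the earlier NOT gates replaced by their values at `x₀`. -/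
def guards (x₀ : ι → Bool) :
    List (List ((ι ⊕ ℕ → Bool) → Bool)) → List Bool → List ((ι → Bool) → Bool)
  | [], _ => []
  | l :: ls, v => ((l.filter fun F => !F (seen x₀ v)).map fun F x => F (seen x v)) ++
      guards x₀ ls (v ++ l.map fun F => !F (seen x₀ v))

theorem length_guards (x₀ : ι → Bool) (ls : List (List ((ι ⊕ ℕ → Bool) → Bool))) :
    ∀ v, (guards x₀ ls v).length ≤ (ls.map List.length).sum := by
  induction ls with
  | nil => intro v; simp [guards]
  | cons l ls ih =>
    intro v
    rw [guards, List.length_append, List.length_map, List.map_cons, List.sum_cons]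
    exact Nat.add_le_add (List.length_filter_le _ _) (ih _)

theorem nots_eq_append (x : ι → Bool) (ls : List (List ((ι ⊕ ℕ → Bool) → Bool))) :
    ∀ v, ∃ u, nots x ls v = v ++ u := by
  induction ls with
  | nil => exact fun v => ⟨[], by simp [nots]⟩
  | cons l ls ih =>
    intro v
    obtain ⟨u, hu⟩ := ih (v ++ l.map fun F => !F (seen x v))
    exact ⟨(l.map fun F => !F (seen x v)) ++ u, by rw [nots, hu, List.append_assoc]⟩

theorem seen_mono {x y : ι → Bool} (h : x ≤ y) (v : List Bool) : seen x v ≤ seen y v := by
  intro i
  rcases i with i | i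
  · exact h i
  · exact le_rfl

/-- If no guard is `true` at `x ≥ x₀`, the NOT gates have the same values at `x` and `x₀`. -/
theorem nots_eq_of_guards {x₀ x : ι → Bool} (hx : x₀ ≤ x)
    (ls : List (List ((ι ⊕ ℕ → Bool) → Bool))) (hm : ∀ l ∈ ls, ∀ F ∈ l, Monotone F) :
    ∀ v, (∀ G ∈ guards x₀ ls v, G x = false) → nots x ls v = nots x₀ ls v := by
  induction ls with
  | nil => intro v _; rfl
  | cons l ls ih =>
    intro v hG
    have hl : (l.map fun F => !F (seen x v)) = l.map fun F => !F (seen x₀ v) := by
      refine List.map_congr_left fun F hF => ?_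
      cases h0 : F (seen x₀ v) with
      | false =>
        rw [hG (fun x => F (seen x v)) ?_]
        rw [guards]
        refine List.mem_append_left _ (List.mem_map.2 ⟨F, List.mem_filter.2 ⟨hF, ?_⟩, rfl⟩)
        simp [h0]
      | true =>
        have := hm l (by simp) F hF (seen_mono hx v)
        rw [h0] at this
        rw [show F (seen x v) = true from by
          cases h : F (seen x v)
          · rw [h] at this; exact absurd this (by decide)
          · rfl]
    rw [nots, nots, hl]
    refine ih (fun l' h' => hm l' (List.mem_cons_of_mem _ h')) _ fun G hG' => hG G ?_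
    rw [guards]
    exact List.mem_append_right _ hG'

/-- If the NOT gates have the same values at `x` and `x₀`, no guard is `true` at `x`. -/
theorem guards_of_nots_eq {x₀ x : ι → Bool} (ls : List (List ((ι ⊕ ℕ → Bool) → Bool))) :
    ∀ v, nots x ls v = nots x₀ ls v → ∀ G ∈ guards x₀ ls v, G x = false := by
  induction ls with
  | nil => intro v _ G hG; simp [guards] at hG
  | cons l ls ih =>
    intro v h G hG
    rw [nots, nots] at h
    have hl : (l.map fun F => !F (seen x v)) = l.map fun F => !F (seen x₀ v) := by
      obtain ⟨u, hu⟩ := nots_eq_append x ls (v ++ l.map fun F => !F (seen x v))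
      obtain ⟨u', hu'⟩ := nots_eq_append x₀ ls (v ++ l.map fun F => !F (seen x₀ v))
      rw [hu, hu', List.append_assoc, List.append_assoc] at h
      exact (List.append_inj (List.append_cancel_left h) (by simp)).1
    rw [hl] at h
    rw [guards] at hG
    rcases List.mem_append.1 hG with hG | hG
    · obtain ⟨F, hF, rfl⟩ := List.mem_map.1 hG
      obtain ⟨hF, h0⟩ := List.mem_filter.1 hF
      have h1 : (!F (seen x v)) = !F (seen x₀ v) := List.map_inj_left.1 hl F hF
      rw [h0] at h1
      simpa using h1
    · exact ih _ h G hG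

end Pool.Agent.NTR.Gen
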