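import Pool.Agent.NTR.Gen

/-!
# The number of changes of the outputs of levels of NOT gates (Markov, Fischer)
-/

namespace Pool.Agent.NTR.Gen

open Finset

variable {ι W : Type}

open Classical in
/-- The number of changes of a sequence before time `n`. -/
noncomputable def chg (w : ℕ → W) : ℕ → ℕ
  | 0 => 0
  | n + 1 => chg w n + if w n ≠ w (n + 1) then 1 else 0

theorem ncard_eq_chg (w : ℕ → W) (n : ℕ) : {k | k < n ∧ w k ≠ w (k + 1)}.ncard = chg w n := by
  classical
  have h : ∀ n, {k | k < n ∧ w k ≠ w (k + 1)}
      = (((range n).filter fun k => w k ≠ w (k + 1) : Finset ℕ) : Set ℕ) := by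
    intro n
    ext k
    simp
  rw [h, Set.ncard_coe_finset]
  clear h
  induction n with
  | zero => simp [chg]
  | succ n ih =>
    rw [range_add_one, filter_insert, chg, ← ih]
    by_cases hn : w n ≠ w (n + 1)
    · rw [if_pos hn, if_pos hn, card_insert_of_notMem]
      simp
    · rw [if_neg hn, if_neg hn, add_zero]

theorem countP_lt {α : Type} (l : List α) (p q : α → Bool) (h : ∀ F ∈ l, p F = true → q F = true) :
    l.countP p ≤ l.countP q ∧ (l.map p ≠ l.map q → l.countP p + 1 ≤ l.countP q) := by
  induction l with
  | nil => simp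
  | cons F l ih =>
    obtain ⟨h1, h2⟩ := ih fun G hG => h G (List.mem_cons_of_mem _ hG)
    have hF := h F (by simp)
    rw [List.countP_cons, List.countP_cons, List.map_cons, List.map_cons]
    cases hp : p F <;> cases hq : q F
    · simp only [Bool.false_eq_true, if_false, add_zero]
      refine ⟨h1, fun hne => h2 fun he => hne (by rw [he])⟩
    · simp only [Bool.false_eq_true, if_false, if_true, add_zero]
      exact ⟨by omega, fun _ => by omega⟩
    · rw [hp, hq] at hF
      exact absurd (hF rfl) (by simp)
    · simp only [if_true]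
      refine ⟨by omega, fun hne => ?_⟩
      have := h2 fun he => hne (by rw [he])
      omega

theorem chg_level (l : List ((ι ⊕ ℕ → Bool) → Bool)) (hm : ∀ F ∈ l, Monotone F)
    (x : ℕ → ι → Bool) (hx : Monotone x) (v : ℕ → List Bool) (n : ℕ) :
    chg (fun k => v k ++ l.map fun F => !F (seen (x k) (v k))) n
      ≤ chg v n * (l.length + 1) + l.countP fun F => F (seen (x n) (v n)) := by
  classical
  induction n with
  | zero => simp [chg]
  | succ n ih =>
    have hle : (l.countP fun F => F (seen (x n) (v n))) ≤ l.length := List.countP_le_length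
    rw [chg, chg]
    by_cases hv : v n = v (n + 1)
    · rw [if_neg (show ¬ v n ≠ v (n + 1) from fun h => h hv), add_zero, ← hv]
      obtain ⟨h1, h2⟩ := countP_lt l (fun F => F (seen (x n) (v n)))
        (fun F => F (seen (x (n + 1)) (v n))) (by
          intro F hF hp
          have := hm F hF (seen_mono (hx (Nat.le_succ n)) (v n))
          rw [hp] at this
          exact top_le_iff.1 this)
      by_cases hw : (v n ++ l.map fun F => !F (seen (x n) (v n)))
          ≠ v n ++ l.map fun F => !F (seen (x (n + 1)) (v n))
      · rw [if_pos hw]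
        have h3 := h2 fun he => hw (by
          congr 1
          refine List.map_congr_left fun F hF => ?_
          rw [List.map_inj_left.1 he F hF])
        omega
      · rw [if_neg hw]
        omega
    · rw [if_pos hv]
      have hone : ∀ (c : Prop) (_ : Decidable c), (if c then 1 else 0 : ℕ) ≤ 1 := by
        intro c _
        split <;> simp
      refine (Nat.add_le_add ih (hone _ _)).trans ?_
      have h4 : (chg v n + 1) * (l.length + 1) = chg v n * (l.length + 1) + (l.length + 1) := by
        ring
      omega

/-- Levels of `t₁, t₂, ...` NOT gates: at most `∏ (tᵢ + 1) - 1` changes (Fischer, Markov). -/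
theorem chg_nots (ls : List (List ((ι ⊕ ℕ → Bool) → Bool))) (hm : ∀ l ∈ ls, ∀ F ∈ l, Monotone F)
    (x : ℕ → ι → Bool) (hx : Monotone x) (n : ℕ) : ∀ v : ℕ → List Bool,
    chg (fun k => nots (x k) ls (v k)) n + 1
      ≤ (chg v n + 1) * (ls.map fun l => l.length + 1).prod := by
  induction ls with
  | nil => intro v; simp [nots]
  | cons l ls ih =>
    intro v
    have h1 := ih (fun l' h' => hm l' (List.mem_cons_of_mem _ h'))
      (fun k => v k ++ l.map fun F => !F (seen (x k) (v k)))
    have h2 := chg_level l (hm l (by simp)) x hx v n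
    have h3 : (l.countP fun F => F (seen (x n) (v n))) ≤ l.length := List.countP_le_length
    rw [List.map_cons, List.prod_cons, ← mul_assoc]
    refine h1.trans (Nat.mul_le_mul_right _ ?_)
    have h4 : (chg v n + 1) * (l.length + 1) = chg v n * (l.length + 1) + (l.length + 1) := by
      ring
    omega

theorem changesLe_nots (ls : List (List ((ι ⊕ ℕ → Bool) → Bool)))
    (hm : ∀ l ∈ ls, ∀ F ∈ l, Monotone F) :
    ChangesLe (fun x => nots x ls []) ((ls.map fun l => l.length + 1).prod - 1) := by
  intro x hx n
  rw [ncard_eq_chg (fun k => nots (x k) ls []) n]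
  have h1 := chg_nots ls hm x hx n (fun _ => [])
  have h2 : ∀ m, chg (fun _ : ℕ => ([] : List Bool)) m = 0 := by
    intro m
    induction m with
    | zero => rfl
    | succ m ih => rw [chg, ih]; simp
  rw [h2] at h1
  omega

/-- `T` more functions of the variables and of the NOT outputs: together they change at most
`(T + 1) (a + 1) - 1` times. -/
theorem changesLe_out (ls : List (List ((ι ⊕ ℕ → Bool) → Bool)))
    (l : List ((ι ⊕ ℕ → Bool) → Bool)) (hl : ∀ F ∈ l, Monotone F) {a : ℕ}
    (ha : ChangesLe (fun x => nots x ls []) a) :
    ChangesLe (fun x => nots x ls [] ++ l.map fun F => !F (seen x (nots x ls [])))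
      ((l.length + 1) * (a + 1) - 1) := by
  intro x hx n
  rw [ncard_eq_chg (fun k => nots (x k) ls [] ++ l.map fun F => !F (seen (x k) (nots (x k) ls [])))
    n]
  have h1 := chg_level l hl x hx (fun k => nots (x k) ls []) n
  have h2 := ha x hx n
  rw [ncard_eq_chg (fun k => nots (x k) ls []) n] at h2
  have h3 : (l.countP fun F => F (seen (x n) (nots (x n) ls []))) ≤ l.length :=
    List.countP_le_length
  have h4 : (l.length + 1) * (a + 1) = a * (l.length + 1) + (l.length + 1) := by ring
  have h5 := Nat.mul_le_mul_right (l.length + 1) h2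
  omega

end Pool.Agent.NTR.Gen
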