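import Pool.Agent.NTR.Gen

/-!
# The transfer theorem for NOT gates fed by a class of monotone functions
-/

namespace Pool.Agent.NTR.Gen

open Finset

variable {ι β : Type}

/-- The input with the blocks of `Zs` followed by the block `u`, as a substitution. -/
theorem fill_append_eq (r : ℕ) (Zs : List (β → Bool)) (u : β → Bool) :
    fill r (Zs ++ [u]) = fun p => Sum.elim u id
      (if (p.1 : ℕ) = Zs.length then Sum.inl p.2
        else (Sum.inr (fill r Zs p) : β ⊕ Bool)) := by
  funext p
  rcases lt_trichotomy (p.1 : ℕ) Zs.length with h | h | h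
  · rw [if_neg h.ne]
    show (Zs ++ [u]).getD p.1 (fun _ => false) p.2 = Zs.getD p.1 (fun _ => false) p.2
    rw [List.getD_append _ _ _ _ h]
  · rw [if_pos h]
    show (Zs ++ [u]).getD p.1 (fun _ => false) p.2 = u p.2
    rw [List.getD_append_right _ _ _ _ h.ge, h]
    simp
  · rw [if_neg h.ne']
    show (Zs ++ [u]).getD p.1 (fun _ => false) p.2 = Zs.getD p.1 (fun _ => false) p.2
    rw [List.getD_append_right _ _ _ _ h.le, List.getD_eq_default _ _ h.le,
      List.getD_eq_default]
    simp only [List.length_singleton]
    omega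

theorem mem_fill (M : MonoClass) (r : ℕ) (Zs : List (β → Bool))
    (G : (Fin r × β → Bool) → Bool) (hG : M.mem _ G) :
    M.mem β fun u => G (fill r (Zs ++ [u])) := by
  have := M.subst (Fin r × β) β G (fun p => if (p.1 : ℕ) = Zs.length then Sum.inl p.2
        else Sum.inr (fill r Zs p)) hG
  convert this using 3 with u
  exact fill_append_eq r Zs u

theorem mem_seen (M : MonoClass) (v : List Bool) (F : (ι ⊕ ℕ → Bool) → Bool) (hF : M.mem _ F) :
    M.mem ι fun x => F (seen x v) := by
  have := M.subst (ι ⊕ ℕ) ι F (Sum.elim Sum.inl fun i => Sum.inr (v.getD i false)) hF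
  convert this using 3 with x
  funext i
  rcases i with i | i <;> rfl

theorem mem_guards (M : MonoClass) (x₀ : ι → Bool) (ls : List (List ((ι ⊕ ℕ → Bool) → Bool)))
    (hm : ∀ l ∈ ls, ∀ F ∈ l, M.mem _ F) : ∀ v, ∀ G ∈ guards x₀ ls v, M.mem ι G := by
  induction ls with
  | nil => intro v G hG; simp [guards] at hG
  | cons l ls ih =>
    intro v G hG
    rw [guards] at hG
    rcases List.mem_append.1 hG with hG | hG
    · obtain ⟨F, hF, rfl⟩ := List.mem_map.1 hG
      exact mem_seen M v F (hm l (by simp) F (List.mem_filter.1 hF).1)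
    · exact ih (fun l' h' => hm l' (List.mem_cons_of_mem _ h')) _ G hG

/-- The core of the transfer theorem: the answer `P v x` may depend arbitrarily on the list `v` of
the outputs of the NOT gates and on the input `x`. -/
theorem transfer_core {r a : ℕ} (g : (β → Bool) → Bool)
    (hg : g (fun _ => false) = false) (ls : List (List ((Fin r × β ⊕ ℕ → Bool) → Bool)))
    (hls : ∀ l ∈ ls, ∀ F ∈ l, Monotone F) (P : List Bool → (Fin r × β → Bool) → Bool)
    (har : a < r) (ha : ChangesLe (fun x => nots x ls []) a)
    (hf : ∀ x, P (nots x ls []) x = true ↔ ∃ i, g (fun b => x (i, b)) = true) :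
    ∃ Zs : List (β → Bool), P (nots (fill r Zs) ls []) (fill r Zs) = false ∧
      ∀ u, g u = true ↔ P (nots (fill r Zs) ls []) (fill r (Zs ++ [u])) = true ∨
        ∃ G ∈ guards (fill r Zs) ls [], G (fill r (Zs ++ [u])) = true := by
  obtain ⟨Zs, hlen, hz, hw⟩ := exists_prefix (fun x => nots x ls []) g ha har
  have hblock : ∀ (u : β → Bool), g u = false →
      ¬ ∃ i : Fin r, g (fun b => fill r (Zs ++ [u]) (i, b)) = true := by
    rintro u hu ⟨i, hi⟩
    have : g (fun b => (Zs ++ [u]).getD i (fun _ => false) b) = false := by
      rcases lt_or_ge (i : ℕ) (Zs ++ [u]).length with h | h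
      · rw [List.getD_eq_getElem _ _ h]
        rcases List.mem_append.1 (List.getElem_mem h) with h' | h'
        · exact hz _ h'
        · rw [List.mem_singleton.1 h']
          exact hu
      · rw [List.getD_eq_default _ _ h]
        exact hg
    exact absurd hi (by rw [show (fun b => fill r (Zs ++ [u]) (i, b))
      = fun b => (Zs ++ [u]).getD i (fun _ => false) b from rfl, this]; simp)
  have hle : ∀ u, fill r Zs ≤ fill r (Zs ++ [u]) := fun u => fill_append_le r Zs [u]
  refine ⟨Zs, ?_, fun u => ?_⟩
  · have h1 := hblock _ hg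
    rw [fill_append_zero] at h1
    by_contra h2
    exact h1 ((hf _).1 (by simpa using h2))
  · constructor
    · intro hu
      by_contra hno
      push Not at hno
      obtain ⟨hP, hG⟩ := hno
      have h2 := nots_eq_of_guards (hle u) ls hls [] fun G hGm => by
        have := hG G hGm
        simpa using this
      rw [← h2] at hP
      refine hP ((hf _).2 ⟨⟨Zs.length, hlen⟩, ?_⟩)
      have : (fun b => fill r (Zs ++ [u]) (⟨Zs.length, hlen⟩, b)) = u := by
        funext b
        rw [fill_append_eq]
        simp
      rw [this]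
      exact hu
    · intro hor
      by_contra hu
      have hu : g u = false := by simpa using hu
      have h2 : nots (fill r (Zs ++ [u])) ls [] = nots (fill r Zs) ls [] := hw u hu
      rcases hor with hPu | ⟨G, hG, hGu⟩
      · rw [← h2] at hPu
        exact hblock u hu ((hf _).1 hPu)
      · rw [guards_of_nots_eq ls [] h2 G hG] at hGu
        exact absurd hGu (by simp)

/-- **Transfer theorem, one output.** `N` NOT gates are fed by functions of the class `M` of the
variables and of the outputs of NOT gates of earlier levels; if `v` lists the outputs of the NOT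
gates, the answer is the value of a function `P v` of the class. If the answer is the OR of `r`
copies of `g` and `v` changes less than `r` times along every increasing sequence of inputs, then
`g` is an OR of at most `N + 1` functions of the class. -/
theorem transfer (M : MonoClass) {r a : ℕ} (g : (β → Bool) → Bool)
    (hg : g (fun _ => false) = false) (ls : List (List ((Fin r × β ⊕ ℕ → Bool) → Bool)))
    (hls : ∀ l ∈ ls, ∀ F ∈ l, M.mem _ F) (P : List Bool → (Fin r × β → Bool) → Bool)
    (hP : ∀ v, M.mem _ (P v)) (har : a < r) (ha : ChangesLe (fun x => nots x ls []) a)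
    (hf : ∀ x, P (nots x ls []) x = true ↔ ∃ i, g (fun b => x (i, b)) = true) :
    ∃ Gs : List ((β → Bool) → Bool), Gs.length ≤ (ls.map List.length).sum + 1 ∧
      (∀ G ∈ Gs, M.mem β G) ∧ ∀ u, g u = true ↔ ∃ G ∈ Gs, G u = true := by
  obtain ⟨Zs, -, h⟩ := transfer_core g hg ls (fun l hl F hF => M.mono _ F (hls l hl F hF)) P har
    ha hf
  refine ⟨(fun u => P (nots (fill r Zs) ls []) (fill r (Zs ++ [u]))) ::
    (guards (fill r Zs) ls []).map fun G u => G (fill r (Zs ++ [u])), ?_, ?_, fun u => ?_⟩
  · rw [List.length_cons, List.length_map]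
    exact Nat.succ_le_succ (length_guards _ ls [])
  · intro G hG
    rcases List.mem_cons.1 hG with rfl | hG
    · exact mem_fill M r Zs _ (hP _)
    · obtain ⟨G', hG', rfl⟩ := List.mem_map.1 hG
      exact mem_fill M r Zs _ (mem_guards M _ ls hls _ G' hG')
  · rw [h u]
    simp only [List.mem_cons, List.mem_map, exists_eq_or_imp, exists_exists_and_eq_and]

end Pool.Agent.NTR.Gen
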