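import Pool.Agent.NTR.GenMain
import Pool.Agent.NTR.GenLev

/-!
# The transfer theorem for several outputs and any function of them
-/

namespace Pool.Agent.NTR.Gen

open Finset

variable {β : Type}

theorem nots_append {ι : Type} (x : ι → Bool) (ls ls' : List (List ((ι ⊕ ℕ → Bool) → Bool))) :
    ∀ v, nots x (ls ++ ls') v = nots x ls' (nots x ls v) := by
  induction ls with
  | nil => intro v; rfl
  | cons l ls ih => intro v; exact ih _

theorem length_nots {ι : Type} (x : ι → Bool) (ls : List (List ((ι ⊕ ℕ → Bool) → Bool))) :
    ∀ v, (nots x ls v).length = v.length + (ls.map List.length).sum := by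
  induction ls with
  | nil => intro v; simp [nots]
  | cons l ls ih =>
    intro v
    rw [nots, ih, List.length_append, List.length_map, List.map_cons, List.sum_cons, add_assoc]

/-- **Transfer theorem, several outputs.** `N` NOT gates and `T` outputs are fed by functions of
the class `M` of the variables and of the outputs of NOT gates of earlier levels. If an arbitrary
function `h` of the `T` outputs is the OR of `r` copies of `g`, the list of the outputs of the NOT
gates changes at most `a` times along every increasing sequence of inputs, and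
`(T + 1) (a + 1) ≤ r`, then `g` is an OR of at most `N + T` functions of the class. -/
theorem transfer_out (M : MonoClass) {r T a : ℕ} (g : (β → Bool) → Bool)
    (hg : g (fun _ => false) = false) (ls : List (List ((Fin r × β ⊕ ℕ → Bool) → Bool)))
    (hls : ∀ l ∈ ls, ∀ F ∈ l, M.mem _ F) (o : Fin T → (Fin r × β ⊕ ℕ → Bool) → Bool)
    (ho : ∀ i, M.mem _ (o i)) (h : (Fin T → Bool) → Bool)
    (har : (T + 1) * (a + 1) ≤ r) (ha : ChangesLe (fun x => nots x ls []) a)
    (hf : ∀ x, h (fun i => o i (seen x (nots x ls []))) = true ↔
      ∃ i, g (fun b => x (i, b)) = true) :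
    ∃ Gs : List ((β → Bool) → Bool), Gs.length ≤ (ls.map List.length).sum + T ∧
      (∀ G ∈ Gs, M.mem β G) ∧ ∀ u, g u = true ↔ ∃ G ∈ Gs, G u = true := by
  have hm : ∀ l ∈ ls ++ [List.ofFn o], ∀ F ∈ l, M.mem _ F := by
    intro l hl F hF
    rcases List.mem_append.1 hl with hl | hl
    · exact hls l hl F hF
    · rw [List.mem_singleton.1 hl] at hF
      obtain ⟨i, rfl⟩ := (List.mem_ofFn' _ _).1 hF
      exact ho i
  have hmm : ∀ l ∈ ls ++ [List.ofFn o], ∀ F ∈ l, Monotone F :=
    fun l hl F hF => M.mono _ F (hm l hl F hF)
  have hn : ∀ x : Fin r × β → Bool, nots x (ls ++ [List.ofFn o]) []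
      = nots x ls [] ++ (List.ofFn o).map fun F => !F (seen x (nots x ls [])) := by
    intro x
    rw [nots_append]
    rfl
  have hc : ChangesLe (fun x => nots x (ls ++ [List.ofFn o]) []) ((T + 1) * (a + 1) - 1) := by
    have := changesLe_out ls (List.ofFn o) (fun F hF => hmm _ (by simp) F hF) ha
    rw [List.length_ofFn] at this
    have he : (fun x => nots x (ls ++ [List.ofFn o]) []) = fun x => nots x ls [] ++
        (List.ofFn o).map fun F => !F (seen x (nots x ls [])) := funext hn
    rw [he]
    exact this
  have hpos : 0 < (T + 1) * (a + 1) := by positivity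
  set P : List Bool → (Fin r × β → Bool) → Bool := fun v _ =>
    h fun i => !(v.getD ((ls.map List.length).sum + i) false) with hPdef
  have hP : ∀ x, P (nots x (ls ++ [List.ofFn o]) []) x
      = h fun i => o i (seen x (nots x ls [])) := by
    intro x
    rw [hPdef, hn]
    simp only
    congr 1
    funext i
    have h1 : (nots x ls []).length = (ls.map List.length).sum := by
      rw [length_nots, List.length_nil, zero_add]
    rw [List.getD_append_right _ _ _ _ (by rw [h1]; omega), h1, Nat.add_sub_cancel_left,
      List.getD_eq_getElem _ _ (by simp), List.getElem_map, List.getElem_ofFn, Bool.not_not]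
  obtain ⟨Zs, h0, hu⟩ := transfer_core g hg (ls ++ [List.ofFn o]) hmm P
    (a := (T + 1) * (a + 1) - 1) (by omega) hc (fun x => by rw [hP]; exact hf x)
  refine ⟨(guards (fill r Zs) (ls ++ [List.ofFn o]) []).map fun G u => G (fill r (Zs ++ [u])),
    ?_, ?_, fun u => ?_⟩
  · rw [List.length_map]
    refine (length_guards _ _ []).trans (le_of_eq ?_)
    simp
  · intro G hG
    obtain ⟨G', hG', rfl⟩ := List.mem_map.1 hG
    exact mem_fill M r Zs _ (mem_guards M _ _ hm _ G' hG')
  · rw [hu u]
    have h1 : P (nots (fill r Zs) (ls ++ [List.ofFn o]) []) (fill r (Zs ++ [u])) = false := h0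
    rw [h1]
    simp only [Bool.false_eq_true, false_or, List.mem_map, exists_exists_and_eq_and]

end Pool.Agent.NTR.Gen
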