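import Pool.Agent.NTR.Grid
import Pool.Agent.NTR.Nets

/-!
# Layered path systems with NOT gates fed by directed networks
-/

set_option autoImplicit false

namespace Pool.Agent.NTR.Gen

open Pool.Agent.TeleNeg Finset

/-- Without rules nothing is solvable. -/
theorem not_solvable_zero {r H M : ℕ} : ¬ Solvable (fun _ : Rule r H M => false) := by
  rintro ⟨k, c, hc, -⟩
  exact absurd hc (by simp)

/-- **One block bound.** If path systems on six blocks are the OR of at most `q` functions computed by directed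
networks with `S` nodes, then the numbers satisfy the inequality. -/
theorem solvable_members {H S q : ℕ} (hH : 6 ≤ H)
    (Gs : List ((Rule 6 H (2 ^ 8 * (H + 1) ^ 3) → Bool) → Bool)) (hlen : Gs.length ≤ q)
    (hmem : ∀ G ∈ Gs, (dnetClass S).mem _ G) (hG : ∀ u, Solvable u ↔ ∃ G ∈ Gs, G u = true) :
    2 ^ H < 36 * (2 ^ 24 * (H + 1) ^ 11) * (2 * (q * S + 2)) ^ Nat.clog 2 (q * S + 2) := by
  classical
  choose N hN using fun k : Fin Gs.length => hmem (Gs.get k) (List.get_mem _ _)
  have h1 := dnet_lower_or H S Gs.length hH N (fun x => by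
    rw [hG x]
    constructor
    · rintro ⟨G, hG, hGx⟩
      obtain ⟨k, rfl⟩ := List.get_of_mem hG
      exact ⟨k, by rw [hN k]; exact hGx⟩
    · rintro ⟨k, hk⟩
      exact ⟨Gs.get k, List.get_mem _ _, by rw [← hN k]; exact hk⟩)
  refine h1.trans_le (Nat.mul_le_mul_left _ ?_)
  have h2 : Gs.length * S + 2 ≤ q * S + 2 := by gcongr
  calc (2 * (Gs.length * S + 2)) ^ Nat.clog 2 (Gs.length * S + 2)
      ≤ (2 * (q * S + 2)) ^ Nat.clog 2 (Gs.length * S + 2) :=
        Nat.pow_le_pow_left (Nat.mul_le_mul_left _ h2) _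
    _ ≤ _ := Nat.pow_le_pow_right (by omega) (Nat.clog_mono_right _ h2)

/-- **Path systems with NOT gates fed by directed networks** with `S` nodes: for any answer `P v` of the class, where
`v` lists the outputs of the NOT gates. -/
theorem transfer_solvable {H S r a : ℕ} (hH : 6 ≤ H)
    (ls : List (List ((Fin r × Rule 6 H (2 ^ 8 * (H + 1) ^ 3) ⊕ ℕ → Bool) → Bool)))
    (hls : ∀ l ∈ ls, ∀ F ∈ l, (dnetClass S).mem _ F)
    (P : List Bool → (Fin r × Rule 6 H (2 ^ 8 * (H + 1) ^ 3) → Bool) → Bool)
    (hP : ∀ v, (dnetClass S).mem _ (P v)) (har : a < r) (ha : ChangesLe (fun x => nots x ls []) a)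
    (hf : ∀ x, P (nots x ls []) x = true ↔ ∃ i, Solvable (fun e => x (i, e))) :
    2 ^ H < 36 * (2 ^ 24 * (H + 1) ^ 11) * (2 * (((ls.map List.length).sum + 1) * S + 2)) ^
      Nat.clog 2 (((ls.map List.length).sum + 1) * S + 2) := by
  classical
  obtain ⟨Gs, hlen, hmem, hG⟩ := transfer (dnetClass S)
    (fun x : Rule 6 H (2 ^ 8 * (H + 1) ^ 3) → Bool => decide (Solvable x))
    (by simpa using not_solvable_zero) ls hls P hP har ha (fun x => by rw [hf]; simp)
  exact solvable_members hH Gs hlen hmem fun u => by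
    have h2 := hG u
    simpa only [decide_eq_true_eq] using h2

end Pool.Agent.NTR.Gen
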