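import Pool.Agent.NegLim.Circuit

/-!
# Functions computed together by a circuit without NOT gates
-/

set_option autoImplicit false

namespace Pool.Agent.NTR

open Pool.Agent.NegLim

/-- the wire refers to one of the first `n` gates or to no gate -/
def Bel {V : Type} (n : ℕ) : Wire V → Prop
  | .gate i => i < n
  | _ => True

/-- some circuit without NOT gates with at most `n` gates computes all functions of the family -/
def Has {V : Type} (n : ℕ) (Φ : Set ((V → Bool) → Prop)) : Prop :=
  ∃ C : Circuit V, C.negs = 0 ∧ C.size ≤ n ∧ ∀ F ∈ Φ, ∃ w : Wire V, Bel C.length w ∧ ∀ x, C.val x w = true ↔ F x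

/-- variables and constants -/
def bas (V : Type) : Set ((V → Bool) → Prop) :=
  {F | (∃ v, F = fun x => x v = true) ∨ F = (fun _ => True) ∨ F = fun _ => False}

theorem gv_length {V : Type} (x : V → Bool) (C : Circuit V) (p : List Bool) :
    (gateVals x C p).length = p.length + C.length := by
  induction C generalizing p with
  | nil => simp [gateVals]
  | cons g C ih => rw [gateVals, ih]; simp; omega

theorem gv_snoc {V : Type} (x : V → Bool) (C : Circuit V) (g : Gate V) (p : List Bool) :
    gateVals x (C ++ [g]) p = gateVals x C p ++ [g.val x (gateVals x C p)] := by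
  rw [gateVals_append]
  rfl

theorem wv_append {V : Type} (x : V → Bool) (l l' : List Bool) (a : Wire V) (h : Bel l.length a) :
    a.val x (l ++ l') = a.val x l := by
  cases a with
  | var v => rfl
  | const b => rfl
  | gate i =>
    simp only [Bel] at h
    simp only [Wire.val]
    rw [List.getD_eq_getElem _ _ h, List.getD_eq_getElem _ _ (by rw [List.length_append]; omega),
      List.getElem_append_left h]

theorem Bel.mono {V : Type} {n m : ℕ} (h : n ≤ m) {w : Wire V} (hw : Bel n w) : Bel m w := by
  cases w with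
  | var v => trivial
  | const b => trivial
  | gate i => exact lt_of_lt_of_le (show i < n from hw) h

theorem Has.mono {V : Type} {n m : ℕ} {Φ Ψ : Set ((V → Bool) → Prop)} (h : Has n Φ) (hnm : n ≤ m) (hs : Ψ ⊆ Φ) :
    Has m Ψ := by
  obtain ⟨C, h1, h2, h3⟩ := h
  exact ⟨C, h1, h2.trans hnm, fun F hF => h3 F (hs hF)⟩

theorem has_bas (V : Type) : Has 0 (bas V) := by
  refine ⟨[], by simp [Circuit.negs], by simp [Circuit.size], ?_⟩
  rintro F (⟨v, rfl⟩ | rfl | rfl)
  · exact ⟨.var v, trivial, fun x => by simp [Circuit.val, Wire.val]⟩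
  · exact ⟨.const true, trivial, fun x => by simp [Circuit.val, Wire.val]⟩
  · exact ⟨.const false, trivial, fun x => by simp [Circuit.val, Wire.val]⟩

theorem Has.snoc {V : Type} {n : ℕ} {Φ : Set ((V → Bool) → Prop)} (g : Wire V → Wire V → Gate V)
    (op : Prop → Prop → Prop) (hg : ∀ a b, (g a b).isNot = false)
    (hv : ∀ a b x p, (g a b).val x p = true ↔ op (a.val x p = true) (b.val x p = true))
    (h : Has n Φ) {F G : (V → Bool) → Prop} (hF : F ∈ Φ) (hG : G ∈ Φ) :
    Has (n + 1) (insert (fun x => op (F x) (G x)) Φ) := by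
  obtain ⟨C, h1, h2, h3⟩ := h
  obtain ⟨a, ha, hav⟩ := h3 F hF
  obtain ⟨b, hb, hbv⟩ := h3 G hG
  refine ⟨C ++ [g a b], ?_, ?_, ?_⟩
  · unfold Circuit.negs at h1 ⊢
    rw [List.countP_append, h1]
    simp [hg]
  · unfold Circuit.size at h2 ⊢
    simp
    exact h2
  · rintro E (rfl | hE)
    · refine ⟨.gate C.length, by simp [Bel], fun x => ?_⟩
      have hl : (gateVals x C []).length = C.length := by rw [gv_length]; simp
      have e1 := hav x
      have e2 := hbv x
      unfold Circuit.val at e1 e2 ⊢
      rw [gv_snoc]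
      simp only [Wire.val]
      rw [List.getD_eq_getElem _ _ (by rw [List.length_append, hl]; simp),
        List.getElem_append_right (by rw [hl])]
      simp only [hl, Nat.sub_self, List.getElem_cons_zero]
      rw [hv, e1, e2]
    · obtain ⟨c, hc, hcv⟩ := h3 E hE
      refine ⟨c, hc.mono (by simp), fun x => ?_⟩
      rw [← hcv x]
      unfold Circuit.val
      rw [gv_snoc, wv_append]
      rw [gv_length]
      simpa using hc

theorem Has.and {V : Type} {n : ℕ} {Φ : Set ((V → Bool) → Prop)} (h : Has n Φ) {F G : (V → Bool) → Prop}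
    (hF : F ∈ Φ) (hG : G ∈ Φ) : Has (n + 1) (insert (fun x => F x ∧ G x) Φ) :=
  h.snoc Gate.and And (fun _ _ => rfl) (fun a b x p => by simp [Gate.val]) hF hG

theorem Has.or {V : Type} {n : ℕ} {Φ : Set ((V → Bool) → Prop)} (h : Has n Φ) {F G : (V → Bool) → Prop}
    (hF : F ∈ Φ) (hG : G ∈ Φ) : Has (n + 1) (insert (fun x => F x ∨ G x) Φ) :=
  h.snoc Gate.or Or (fun _ _ => rfl) (fun a b x p => by simp [Gate.val]) hF hG

/-- a disjunction of conjunctions of three functions -/
theorem Has.bigOr {V J : Type} {n : ℕ} {Φ : Set ((V → Bool) → Prop)} (h : Has n Φ) (hb : bas V ⊆ Φ)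
    (s : Finset J) (p q t : J → (V → Bool) → Prop) (hp : ∀ j ∈ s, p j ∈ Φ) (hq : ∀ j ∈ s, q j ∈ Φ)
    (ht : ∀ j ∈ s, t j ∈ Φ) :
    Has (n + 3 * s.card) (insert (fun x => ∃ j ∈ s, p j x ∧ q j x ∧ t j x) Φ) := by
  classical
  induction s using Finset.induction_on with
  | empty =>
    have h1 : (fun _ : V → Bool => ∃ j ∈ (∅ : Finset J), (False : Prop)) ∈ bas V := Or.inr (Or.inr (by simp))
    refine h.mono (by simp) ?_
    rintro E (rfl | hE)
    · have : (fun x : V → Bool => ∃ j ∈ (∅ : Finset J), p j x ∧ q j x ∧ t j x) ∈ bas V :=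
        Or.inr (Or.inr (by simp))
      exact hb this
    · exact hE
  | insert j s hj ih =>
    have h1 := ih (fun i hi => hp i (Finset.mem_insert_of_mem hi)) (fun i hi => hq i (Finset.mem_insert_of_mem hi))
      (fun i hi => ht i (Finset.mem_insert_of_mem hi))
    have h2 := h1.and (Or.inr (hq j (Finset.mem_insert_self j s))) (Or.inr (ht j (Finset.mem_insert_self j s)))
    have h3 := h2.and (Or.inr (Or.inr (hp j (Finset.mem_insert_self j s)))) (Or.inl rfl)
    have h4 := h3.or (Or.inl rfl) (Or.inr (Or.inr (Or.inl rfl)))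
    refine h4.mono (by rw [Finset.card_insert_of_notMem hj]; omega) ?_
    rintro E (rfl | hE)
    · refine Or.inl ?_
      funext x
      refine propext ?_
      simp only [Finset.mem_insert, exists_eq_or_imp]
    · exact Or.inr (Or.inr (Or.inr (Or.inr hE)))

/-- one function after another -/
theorem Has.family {V K : Type} {n c : ℕ} {Φ : Set ((V → Bool) → Prop)} (h : Has n Φ) (s : Finset K)
    (G : K → (V → Bool) → Prop)
    (hG : ∀ k ∈ s, ∀ (m : ℕ) (Ψ : Set ((V → Bool) → Prop)), Φ ⊆ Ψ → Has m Ψ → Has (m + c) (insert (G k) Ψ)) :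
    Has (n + c * s.card) (Φ ∪ {F | ∃ k ∈ s, F = G k}) := by
  classical
  induction s using Finset.induction_on with
  | empty =>
    refine h.mono (by simp) ?_
    rintro E (hE | ⟨k, hk, _⟩)
    · exact hE
    · exact absurd hk (Finset.notMem_empty k)
  | insert k s hk ih =>
    have h1 := ih fun i hi => hG i (Finset.mem_insert_of_mem hi)
    have h2 := hG k (Finset.mem_insert_self k s) _ _ Set.subset_union_left h1
    refine h2.mono (by rw [Finset.card_insert_of_notMem hk]; ring_nf; omega) ?_
    rintro E (hE | ⟨i, hi, rfl⟩)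
    · exact Or.inr (Or.inl hE)
    · rcases Finset.mem_insert.mp hi with rfl | hi
      · exact Or.inl rfl
      · exact Or.inr (Or.inr ⟨i, hi, rfl⟩)

end Pool.Agent.NTR
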