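import Pool.Agent.TeleNeg.DirDefs
import Pool.Agent.NTR.GenDefs

/-!
# Monotone formulas and monotone depth: classes of functions, and the passage to networks
-/

namespace Pool.Agent.NTR

open Pool.Agent.TeleNeg Gen

/-- Monotone formulas with constants. -/
inductive MF (ι : Type) : Type
  | tt : MF ι
  | ff : MF ι
  | var (e : ι) : MF ι
  | and (φ ψ : MF ι) : MF ι
  | or (φ ψ : MF ι) : MF ι

private theorem rtg_mono {α : Type} {r p : α → α → Prop} {a b : α} (h : ∀ u v, r u v → p u v)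
    (hab : Relation.ReflTransGen r a b) : Relation.ReflTransGen p a b := by
  induction hab with
  | refl => exact .refl
  | tail _ h2 ih => exact ih.tail (h _ _ h2)

namespace MF

variable {ι κ : Type}

/-- Truth value. -/
def Holds (x : ι → Bool) : MF ι → Prop
  | .tt => True
  | .ff => False
  | .var e => x e = true
  | .and φ ψ => φ.Holds x ∧ ψ.Holds x
  | .or φ ψ => φ.Holds x ∨ ψ.Holds x

/-- Number of leaves (variables and constants). -/
def size : MF ι → ℕ
  | .tt => 1
  | .ff => 1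
  | .var _ => 1
  | .and φ ψ => φ.size + ψ.size
  | .or φ ψ => φ.size + ψ.size

/-- Depth: the largest number of gates on a path. -/
def depth : MF ι → ℕ
  | .tt => 0
  | .ff => 0
  | .var _ => 0
  | .and φ ψ => max φ.depth ψ.depth + 1
  | .or φ ψ => max φ.depth ψ.depth + 1

theorem one_le_size (φ : MF ι) : 1 ≤ φ.size := by
  induction φ with
  | tt => exact le_rfl
  | ff => exact le_rfl
  | var e => exact le_rfl
  | and φ ψ h1 h2 => show 1 ≤ φ.size + ψ.size; omega
  | or φ ψ h1 h2 => show 1 ≤ φ.size + ψ.size; omega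

theorem size_le (φ : MF ι) : φ.size ≤ 2 ^ φ.depth := by
  induction φ with
  | tt => exact le_rfl
  | ff => exact le_rfl
  | var e => exact le_rfl
  | and φ ψ h1 h2 =>
    show φ.size + ψ.size ≤ 2 ^ (max φ.depth ψ.depth + 1)
    have e1 := Nat.pow_le_pow_right (show 0 < 2 by norm_num) (le_max_left φ.depth ψ.depth)
    have e2 := Nat.pow_le_pow_right (show 0 < 2 by norm_num) (le_max_right φ.depth ψ.depth)
    rw [pow_succ]
    omega
  | or φ ψ h1 h2 =>
    show φ.size + ψ.size ≤ 2 ^ (max φ.depth ψ.depth + 1)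
    have e1 := Nat.pow_le_pow_right (show 0 < 2 by norm_num) (le_max_left φ.depth ψ.depth)
    have e2 := Nat.pow_le_pow_right (show 0 < 2 by norm_num) (le_max_right φ.depth ψ.depth)
    rw [pow_succ]
    omega

theorem holds_mono {x x' : ι → Bool} (h : ∀ e, x e = true → x' e = true) (φ : MF ι) :
    φ.Holds x → φ.Holds x' := by
  induction φ with
  | tt => exact id
  | ff => exact id
  | var e => exact h e
  | and φ ψ ih1 ih2 => exact fun hh => ⟨ih1 hh.1, ih2 hh.2⟩
  | or φ ψ ih1 ih2 => exact fun hh => hh.imp ih1 ih2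

/-- Replace the variables by variables or constants. -/
def sub (f : ι → κ ⊕ Bool) : MF ι → MF κ
  | .tt => .tt
  | .ff => .ff
  | .var e => match f e with
    | .inl k => .var k
    | .inr true => .tt
    | .inr false => .ff
  | .and φ ψ => .and (φ.sub f) (ψ.sub f)
  | .or φ ψ => .or (φ.sub f) (ψ.sub f)

theorem sub_holds (f : ι → κ ⊕ Bool) (φ : MF ι) (y : κ → Bool) :
    (φ.sub f).Holds y ↔ φ.Holds fun i => Sum.elim y id (f i) := by
  induction φ with
  | tt => exact Iff.rfl
  | ff => exact Iff.rfl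
  | var e =>
    show (match f e with
      | .inl k => MF.var k
      | .inr true => MF.tt
      | .inr false => MF.ff : MF κ).Holds y ↔ Sum.elim y id (f e) = true
    rcases f e with k | b
    · exact Iff.rfl
    · cases b
      · exact ⟨fun h => h.elim, fun h => Bool.noConfusion h⟩
      · exact ⟨fun _ => rfl, fun _ => trivial⟩
  | and φ ψ h1 h2 => exact and_congr h1 h2
  | or φ ψ h1 h2 => exact or_congr h1 h2

theorem sub_size (f : ι → κ ⊕ Bool) (φ : MF ι) : (φ.sub f).size = φ.size := by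
  induction φ with
  | tt => rfl
  | ff => rfl
  | var e =>
    show (match f e with
      | .inl k => MF.var k
      | .inr true => MF.tt
      | .inr false => MF.ff : MF κ).size = 1
    rcases f e with k | b
    · rfl
    · cases b <;> rfl
  | and φ ψ h1 h2 => show (φ.sub f).size + (ψ.sub f).size = φ.size + ψ.size; rw [h1, h2]
  | or φ ψ h1 h2 => show (φ.sub f).size + (ψ.sub f).size = φ.size + ψ.size; rw [h1, h2]

theorem sub_depth (f : ι → κ ⊕ Bool) (φ : MF ι) : (φ.sub f).depth = φ.depth := by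
  induction φ with
  | tt => rfl
  | ff => rfl
  | var e =>
    show (match f e with
      | .inl k => MF.var k
      | .inr true => MF.tt
      | .inr false => MF.ff : MF κ).depth = 0
    rcases f e with k | b
    · rfl
    · cases b <;> rfl
  | and φ ψ h1 h2 =>
    show max (φ.sub f).depth (ψ.sub f).depth + 1 = max φ.depth ψ.depth + 1
    rw [h1, h2]
  | or φ ψ h1 h2 =>
    show max (φ.sub f).depth (ψ.sub f).depth + 1 = max φ.depth ψ.depth + 1
    rw [h1, h2]

/-! ### The network of a formula -/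

/-- number of inner nodes -/
def inn : MF ι → ℕ
  | .tt => 0
  | .ff => 0
  | .var _ => 0
  | .and φ ψ => φ.inn + ψ.inn + 1
  | .or φ ψ => φ.inn + ψ.inn

theorem inn_lt (φ : MF ι) : φ.inn + 1 ≤ φ.size := by
  induction φ with
  | tt => exact le_rfl
  | ff => exact le_rfl
  | var e => exact le_rfl
  | and φ ψ h1 h2 => show φ.inn + ψ.inn + 1 + 1 ≤ φ.size + ψ.size; omega
  | or φ ψ h1 h2 => show φ.inn + ψ.inn + 1 ≤ φ.size + ψ.size; omega

/-- the contacts between the nodes `a` and `b`, with the inner nodes `n, n + 1, ...` -/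
def con : MF ι → ℕ → ℕ → ℕ → ℕ → ℕ → Option ι → Prop
  | .tt, a, b, _, u, v, l => u = a ∧ v = b ∧ l = none
  | .ff, _, _, _, _, _, _ => False
  | .var e, a, b, _, u, v, l => u = a ∧ v = b ∧ l = some e
  | .and φ ψ, a, b, n, u, v, l => φ.con a n (n + 1) u v l ∨ ψ.con n b (n + 1 + φ.inn) u v l
  | .or φ ψ, a, b, n, u, v, l => φ.con a b n u v l ∨ ψ.con a b (n + φ.inn) u v l

theorem con_range (φ : MF ι) : ∀ a b n u v : ℕ, ∀ l : Option ι, φ.con a b n u v l →
    (u = a ∨ u = b ∨ (n ≤ u ∧ u < n + φ.inn)) ∧ (v = a ∨ v = b ∨ (n ≤ v ∧ v < n + φ.inn)) := by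
  induction φ with
  | tt =>
    rintro a b n u v l ⟨rfl, rfl, -⟩
    exact ⟨Or.inl rfl, Or.inr (Or.inl rfl)⟩
  | ff => exact fun a b n u v l h => h.elim
  | var e =>
    rintro a b n u v l ⟨rfl, rfl, -⟩
    exact ⟨Or.inl rfl, Or.inr (Or.inl rfl)⟩
  | and φ ψ h1 h2 =>
    intro a b n u v l h
    show (u = a ∨ u = b ∨ (n ≤ u ∧ u < n + (φ.inn + ψ.inn + 1))) ∧
      (v = a ∨ v = b ∨ (n ≤ v ∧ v < n + (φ.inn + ψ.inn + 1)))
    rcases h with h | h
    · have := h1 _ _ _ _ _ _ h
      omega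
    · have := h2 _ _ _ _ _ _ h
      omega
  | or φ ψ h1 h2 =>
    intro a b n u v l h
    show (u = a ∨ u = b ∨ (n ≤ u ∧ u < n + (φ.inn + ψ.inn))) ∧
      (v = a ∨ v = b ∨ (n ≤ v ∧ v < n + (φ.inn + ψ.inn)))
    rcases h with h | h
    · have := h1 _ _ _ _ _ _ h
      omega
    · have := h2 _ _ _ _ _ _ h
      omega

/-- a closed contact -/
def CC (φ : MF ι) (a b n : ℕ) (x : ι → Bool) (u v : ℕ) : Prop :=
  ∃ l : Option ι, φ.con a b n u v l ∧ ∀ e ∈ l, x e = true

theorem complete (φ : MF ι) (x : ι → Bool) : ∀ a b n : ℕ, φ.Holds x →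
    Relation.ReflTransGen (φ.CC a b n x) a b := by
  induction φ with
  | tt => exact fun a b n _ => .single ⟨none, ⟨rfl, rfl, rfl⟩, fun e he => by simp at he⟩
  | ff => exact fun a b n h => h.elim
  | var e =>
    refine fun a b n h => .single ⟨some e, ⟨rfl, rfl, rfl⟩, fun e' he => ?_⟩
    rw [Option.mem_some_iff] at he
    rw [← he]
    exact h
  | and φ ψ h1 h2 =>
    intro a b n h
    refine Relation.ReflTransGen.trans (b := n) ?_ ?_
    · exact rtg_mono (fun u v ⟨l, hl, hx⟩ => ⟨l, Or.inl hl, hx⟩) (h1 a n (n + 1) h.1)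
    · exact rtg_mono (fun u v ⟨l, hl, hx⟩ => ⟨l, Or.inr hl, hx⟩) (h2 n b (n + 1 + φ.inn) h.2)
  | or φ ψ h1 h2 =>
    intro a b n h
    rcases h with h | h
    · exact rtg_mono (fun u v ⟨l, hl, hx⟩ => ⟨l, Or.inl hl, hx⟩) (h1 a b n h)
    · exact rtg_mono (fun u v ⟨l, hl, hx⟩ => ⟨l, Or.inr hl, hx⟩)
        (h2 a b (n + φ.inn) h)

theorem sound (φ : MF ι) (x : ι → Bool) : ∀ a b n : ℕ, a ≠ b → ¬ (n ≤ a ∧ a < n + φ.inn) →
    ¬ (n ≤ b ∧ b < n + φ.inn) → ¬ φ.Holds x → ∃ U : Set ℕ, a ∈ U ∧ b ∉ U ∧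
      (∀ u ∈ U, u = a ∨ (n ≤ u ∧ u < n + φ.inn)) ∧ ∀ u v, φ.CC a b n x u v → (u ∈ U ↔ v ∈ U) := by
  induction φ with
  | tt => exact fun a b n _ _ _ h => (h trivial).elim
  | ff =>
    refine fun a b n hab _ _ _ => ⟨{a}, rfl, fun h => hab (Set.mem_singleton_iff.1 h).symm,
      fun u hu => Or.inl hu, ?_⟩
    rintro u v ⟨l, hl, -⟩
    exact hl.elim
  | var e =>
    refine fun a b n hab _ _ h => ⟨{a}, rfl, fun h => hab (Set.mem_singleton_iff.1 h).symm,
      fun u hu => Or.inl hu, ?_⟩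
    rintro u v ⟨l, ⟨-, -, rfl⟩, hx⟩
    exact (h (hx e rfl)).elim
  | and φ ψ h1 h2 =>
    intro a b n hab ha hb h
    change ¬ (n ≤ a ∧ a < n + (φ.inn + ψ.inn + 1)) at ha
    change ¬ (n ≤ b ∧ b < n + (φ.inn + ψ.inn + 1)) at hb
    by_cases hφ : φ.Holds x
    · have hψ : ¬ ψ.Holds x := fun hψ => h ⟨hφ, hψ⟩
      obtain ⟨U, hn, hbU, hU, hc⟩ := h2 n b (n + 1 + φ.inn) (by omega) (by omega) (by omega) hψ
      refine ⟨U ∪ {u | u = a ∨ (n + 1 ≤ u ∧ u < n + 1 + φ.inn)}, Or.inr (Or.inl rfl), ?_, ?_, ?_⟩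
      · rintro (h3 | h3)
        · exact hbU h3
        · rcases h3 with h3 | h3
          · exact hab h3.symm
          · omega
      · show ∀ u ∈ _, u = a ∨ (n ≤ u ∧ u < n + (φ.inn + ψ.inn + 1))
        rintro u (h3 | h3)
        · have := hU u h3
          omega
        · rcases h3 with h3 | h3 <;> omega
      · rintro u v ⟨l, hl, hx⟩
        rcases hl with hl | hl
        · have h4 := con_range φ _ _ _ _ _ _ hl
          have h5 : ∀ w : ℕ, (w = a ∨ w = n ∨ (n + 1 ≤ w ∧ w < n + 1 + φ.inn)) →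
              w ∈ U ∪ {u | u = a ∨ (n + 1 ≤ u ∧ u < n + 1 + φ.inn)} := by
            rintro w (h6 | h6 | h6)
            · exact Or.inr (Or.inl h6)
            · exact Or.inl (h6 ▸ hn)
            · exact Or.inr (Or.inr h6)
          exact ⟨fun _ => h5 v h4.2, fun _ => h5 u h4.1⟩
        · have h4 := con_range ψ _ _ _ _ _ _ hl
          have h5 : ∀ w : ℕ, (w = n ∨ w = b ∨ (n + 1 + φ.inn ≤ w ∧ w < n + 1 + φ.inn + ψ.inn)) →
              (w ∈ U ∪ {u | u = a ∨ (n + 1 ≤ u ∧ u < n + 1 + φ.inn)} ↔ w ∈ U) := by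
            intro w h6
            refine ⟨fun h7 => ?_, Or.inl⟩
            rcases h7 with h7 | h7
            · exact h7
            · exfalso
              rcases h7 with h7 | h7 <;> rcases h6 with h6 | h6 | h6 <;> omega
          rw [h5 u h4.1, h5 v h4.2]
          exact hc u v ⟨l, hl, hx⟩
    · obtain ⟨U, hn, hbU, hU, hc⟩ := h1 a n (n + 1) (by omega) (by omega) (by omega) hφ
      refine ⟨U, hn, ?_, ?_, ?_⟩
      · intro h3
        have := hU b h3
        omega
      · intro u hu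
        show u = a ∨ (n ≤ u ∧ u < n + (φ.inn + ψ.inn + 1))
        have := hU u hu
        omega
      · rintro u v ⟨l, hl, hx⟩
        rcases hl with hl | hl
        · exact hc u v ⟨l, hl, hx⟩
        · have h4 := con_range ψ _ _ _ _ _ _ hl
          have h5 : ∀ w : ℕ, (w = n ∨ w = b ∨ (n + 1 + φ.inn ≤ w ∧ w < n + 1 + φ.inn + ψ.inn)) →
              w ∉ U := by
            intro w h6 h7
            have := hU w h7
            rcases h6 with h6 | h6 | h6
            · exact hbU (h6 ▸ h7)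
            · omega
            · omega
          exact ⟨fun h6 => (h5 u h4.1 h6).elim, fun h6 => (h5 v h4.2 h6).elim⟩
  | or φ ψ h1 h2 =>
    intro a b n hab ha hb h
    change ¬ (n ≤ a ∧ a < n + (φ.inn + ψ.inn)) at ha
    change ¬ (n ≤ b ∧ b < n + (φ.inn + ψ.inn)) at hb
    have hφ : ¬ φ.Holds x := fun h' => h (Or.inl h')
    have hψ : ¬ ψ.Holds x := fun h' => h (Or.inr h')
    obtain ⟨U, hn, hbU, hU, hc⟩ := h1 a b n hab (by omega) (by omega) hφ
    obtain ⟨U', hn', hbU', hU', hc'⟩ := h2 a b (n + φ.inn) hab (by omega) (by omega) hψ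
    refine ⟨U ∪ U', Or.inl hn, fun h3 => h3.elim hbU hbU', ?_, ?_⟩
    · show ∀ u ∈ _, u = a ∨ (n ≤ u ∧ u < n + (φ.inn + ψ.inn))
      rintro u (h3 | h3)
      · have := hU u h3
        omega
      · have := hU' u h3
        omega
    · rintro u v ⟨l, hl, hx⟩
      rcases hl with hl | hl
      · have h4 := con_range φ _ _ _ _ _ _ hl
        have h5 : ∀ w : ℕ, (w = a ∨ w = b ∨ (n ≤ w ∧ w < n + φ.inn)) →
            (w ∈ U ∪ U' ↔ w ∈ U) := by
          intro w h6
          refine ⟨fun h7 => ?_, Or.inl⟩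
          rcases h7 with h7 | h7
          · exact h7
          · rcases h6 with h6 | h6 | h6
            · exact h6 ▸ hn
            · exact (hbU' (h6 ▸ h7)).elim
            · have := hU' w h7
              exfalso
              omega
        rw [h5 u h4.1, h5 v h4.2]
        exact hc u v ⟨l, hl, hx⟩
      · have h4 := con_range ψ _ _ _ _ _ _ hl
        have h5 : ∀ w : ℕ, (w = a ∨ w = b ∨ (n + φ.inn ≤ w ∧ w < n + φ.inn + ψ.inn)) →
            (w ∈ U ∪ U' ↔ w ∈ U') := by
          intro w h6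
          refine ⟨fun h7 => ?_, Or.inr⟩
          rcases h7 with h7 | h7
          · rcases h6 with h6 | h6 | h6
            · exact h6 ▸ hn'
            · exact (hbU (h6 ▸ h7)).elim
            · have := hU w h7
              exfalso
              omega
          · exact h7
        rw [h5 u h4.1, h5 v h4.2]
        exact hc' u v ⟨l, hl, hx⟩

/-- **A monotone formula with at most `s` leaves is a network with `s + 1` nodes**, read as an
undirected and as a directed network. -/
theorem exists_net (φ : MF ι) {s : ℕ} (hs : φ.size ≤ s) : ∃ N : Net ι (s + 1),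
    (∀ x, N.Accepts x ↔ φ.Holds x) ∧ ∀ x, N.DAccepts x ↔ φ.Holds x := by
  have h1 := φ.inn_lt
  have hlt : ∀ u : ℕ, (u = 0 ∨ u = 1 ∨ (2 ≤ u ∧ u < 2 + φ.inn)) → u < s + 1 := by omega
  let N : Net ι (s + 1) :=
    { contacts := {c | φ.con 0 1 2 c.1 c.2.1 c.2.2}
      src := ⟨0, by omega⟩
      tgt := ⟨1, by omega⟩ }
  have hcomp : ∀ x, φ.Holds x → N.DAccepts x := by
    intro x hx
    have h2 := φ.complete x 0 1 2 hx
    have key : ∀ v : ℕ, Relation.ReflTransGen (φ.CC 0 1 2 x) 0 v →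
        ∀ hv : v < s + 1, Relation.ReflTransGen (N.Step x) N.src ⟨v, hv⟩ := by
      intro v hv
      induction hv with
      | refl => exact fun _ => .refl
      | @tail u v h3 h4 ih =>
        intro hv
        obtain ⟨l, hl, hx⟩ := h4
        have h5 := con_range φ _ _ _ _ _ _ hl
        exact (ih (hlt u h5.1)).tail ⟨l, hl, hx⟩
    exact key 1 h2 (by omega)
  have hsub : ∀ x, N.DAccepts x → N.Accepts x := by
    intro x hx
    exact rtg_mono (fun u v ⟨l, hl, hx⟩ => ⟨l, Or.inl hl, hx⟩) hx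
  have hsound : ∀ x, N.Accepts x → φ.Holds x := by
    intro x hx
    by_contra hc
    obtain ⟨U, h0, h1', -, hU⟩ := φ.sound x 0 1 2 (by norm_num) (by omega) (by omega) hc
    have key : ∀ v : Fin (s + 1), Relation.ReflTransGen (N.Linked x) N.src v → (v : ℕ) ∈ U := by
      intro v hv
      induction hv with
      | refl => exact h0
      | @tail u v _ h4 ih =>
        obtain ⟨l, hl | hl, hx⟩ := h4
        · exact (hU u v ⟨l, hl, hx⟩).1 ih
        · exact (hU v u ⟨l, hl, hx⟩).2 ih
    exact h1' (key _ hx)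
  exact ⟨N, fun x => ⟨hsound x, fun h => hsub x (hcomp x h)⟩,
    fun x => ⟨fun h => hsound x (hsub x h), hcomp x⟩⟩

end MF

/-- the functions with a monotone formula with at most `s` leaves -/
def formulaClass (s : ℕ) : MonoClass where
  mem ι F := ∃ φ : MF ι, φ.size ≤ s ∧ ∀ x, F x = true ↔ φ.Holds x
  mono ι F := by
    rintro ⟨φ, -, hφ⟩ x y hxy
    by_cases h : F x = true
    · rw [h]
      have h1 : F y = true := (hφ y).2 (φ.holds_mono (fun e he => by
        have := hxy e
        rw [he] at this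
        exact top_le_iff.1 this) ((hφ x).1 h))
      rw [h1]
    · rw [Bool.not_eq_true] at h
      rw [h]
      exact Bool.false_le _
  subst ι κ F f := by
    rintro ⟨φ, hs, hφ⟩
    refine ⟨φ.sub f, by rwa [MF.sub_size], fun x => ?_⟩
    rw [MF.sub_holds]
    exact hφ _

/-- the functions with a monotone formula (that is, a monotone circuit) of depth at most `d` -/
def depthClass (d : ℕ) : MonoClass where
  mem ι F := ∃ φ : MF ι, φ.depth ≤ d ∧ ∀ x, F x = true ↔ φ.Holds x
  mono ι F := by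
    rintro ⟨φ, -, hφ⟩ x y hxy
    by_cases h : F x = true
    · rw [h]
      have h1 : F y = true := (hφ y).2 (φ.holds_mono (fun e he => by
        have := hxy e
        rw [he] at this
        exact top_le_iff.1 this) ((hφ x).1 h))
      rw [h1]
    · rw [Bool.not_eq_true] at h
      rw [h]
      exact Bool.false_le _
  subst ι κ F f := by
    rintro ⟨φ, hs, hφ⟩
    refine ⟨φ.sub f, by rwa [MF.sub_depth], fun x => ?_⟩
    rw [MF.sub_holds]
    exact hφ _

theorem formulaClass_of_depthClass {d : ℕ} {ι : Type} {F : (ι → Bool) → Bool}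
    (h : (depthClass d).mem ι F) : (formulaClass (2 ^ d)).mem ι F := by
  obtain ⟨φ, hd, hφ⟩ := h
  exact ⟨φ, φ.size_le.trans (Nat.pow_le_pow_right (by norm_num) hd), hφ⟩

/-- **from formulas to networks** -/
theorem exists_net_of_formulaClass {s : ℕ} {ι : Type} {F : (ι → Bool) → Bool}
    (h : (formulaClass s).mem ι F) :
    ∃ N : Net ι (s + 1), (∀ x, N.val x = F x) ∧ ∀ x, N.dval x = F x := by
  obtain ⟨φ, hs, hφ⟩ := h
  obtain ⟨N, h1, h2⟩ := φ.exists_net hs
  refine ⟨N, fun x => ?_, fun x => ?_⟩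
  · rw [Bool.eq_iff_iff, hφ x, ← h1 x, Net.val]
    exact @decide_eq_true_iff _ (_)
  · rw [Bool.eq_iff_iff, hφ x, ← h2 x, Net.dval]
    exact @decide_eq_true_iff _ (_)

/-- **from depth to networks**: depth `d` gives `2 ^ d + 1` nodes -/
theorem exists_net_of_depthClass {d : ℕ} {ι : Type} {F : (ι → Bool) → Bool}
    (h : (depthClass d).mem ι F) :
    ∃ N : Net ι (2 ^ d + 1), (∀ x, N.val x = F x) ∧ ∀ x, N.dval x = F x :=
  exists_net_of_formulaClass (formulaClass_of_depthClass h)

end Pool.Agent.NTR
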