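import Pool.Agent.NTR.Finds
import Pool.Agent.NTR.Sharp
import Pool.Agent.NegLim.CliqueAvg

/-!
# The transfer theorem on a set of variables
-/

namespace Pool.Agent.NTR

open Pool.Agent.NegLim Finset

/-- The substitution as literals. -/
def litOfSum {κ : Type} : κ ⊕ Bool → Lit κ
  | .inl k => .var k
  | .inr c => .const c

theorem litOfSum_val {κ : Type} (y : κ → Bool) (s : κ ⊕ Bool) :
    (litOfSum s).val y = Sum.elim y id s := by
  cases s <;> rfl

theorem sumElim_mono {κ : Type} {y z : κ → Bool} (h : y ≤ z) (s : κ ⊕ Bool) :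
    Sum.elim y id s ≤ Sum.elim z id s := by
  cases s with
  | inl k => exact h k
  | inr c => exact le_rfl

/-- **Circuits.** If `f` becomes the disjunction of `r` copies of `g` by substituting constants for
the variables outside `U` and variables or constants for the variables in `U`, then a circuit for
`f` whose NOT gates change their values fewer than `r` times on `U` yields a circuit without NOT
gates for `g` of at most the same size. -/
theorem circuits_main {ι β : Type} [Finite β] (g : (β → Bool) → Bool) (hg : Monotone g) {r : ℕ}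
    (f : (ι → Bool) → Prop) (U : Finset ι) (φ : ι → (Fin r × β) ⊕ Bool)
    (hφU : ∀ v, v ∉ U → ∃ c, φ v = .inr c)
    (hφ : ∀ y : Fin r × β → Bool, f (fun v => Sum.elim y id (φ v)) ↔
      ∃ i, g (fun b => y (i, b)) = true)
    (C : Circuit ι) (out : Wire ι) (hC : ChangesOn U (fun x => Circuit.notVals C x) r)
    (hf : ∀ x : ι → Bool, Circuit.val C x out = true ↔ f x) :
    ∃ (M : Circuit β) (o : Wire β), Circuit.negs M = 0 ∧ Circuit.size M ≤ Circuit.size C ∧
      ∀ u : β → Bool, Circuit.val M u o = g u := by
  classical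
  have hr : 0 < r := (Nat.zero_le _).trans_lt
    (hC (fun _ _ => false) monotone_const (fun _ _ _ => rfl) 0)
  set σ : ι → Lit (Fin r × β) := fun v => litOfSum (φ v) with hσ
  have hσv : ∀ y : Fin r × β → Bool, (fun v => (σ v).val y) = fun v => Sum.elim y id (φ v) :=
    fun y => funext fun v => litOfSum_val y (φ v)
  have hflips : Circuit.FlipsAtMost (C.map (Gate.subst σ)) (r - 1) := by
    intro x hx n
    have h1 := hC (fun k v => Sum.elim (x k) id (φ v))
      (fun i j hij v => sumElim_mono (hx hij) (φ v)) (by
        intro k v hv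
        obtain ⟨c, hc⟩ := hφU v hv
        simp only [hc, Sum.elim_inr]) n
    have h2 : {k | k < n ∧ Circuit.notVals C (fun v => Sum.elim (x k) id (φ v))
        ≠ Circuit.notVals C (fun v => Sum.elim (x (k + 1)) id (φ v))}
        = ↑((range n).filter (fun k => Circuit.notVals (C.map (Gate.subst σ)) (x k)
          ≠ Circuit.notVals (C.map (Gate.subst σ)) (x (k + 1)))) := by
      ext k
      simp only [Set.mem_ofPred_eq, coe_filter, mem_range, notVals_subst, hσv]
    rw [h2, Set.ncard_coe_finset] at h1
    omega
  obtain ⟨M, o, h1, h2, h3⟩ := transfer_sharp g hg r (r - 1) (by omega) (C.map (Gate.subst σ))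
    (out.subst σ) hflips (by
      intro y
      rw [Circuit.subst_val, hσv, hf, hφ]
      rfl)
  exact ⟨M, o, h1, h2.trans (Circuit.subst_size σ C).le, h3⟩

/-- Restriction of the queries. -/
theorem answers_sub {ι κ : Type} (φ : ι → κ ⊕ Bool)
    (qs : List (List Bool → List ((ι → Bool) → Bool))) (y : κ → Bool) : ∀ v,
    answers y (qs.map fun q v => (q v).map fun F y => F fun i => Sum.elim y id (φ i)) v
      = answers (fun i => Sum.elim y id (φ i)) qs v := by
  induction qs with
  | nil => intro v; rfl
  | cons q qs ih =>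
    intro v
    rw [List.map_cons, answers, answers, ih]
    simp only [List.map_map]
    rfl

theorem forall₂_mem {α γ : Type*} {R : α → γ → Prop} {l : List α} {l' : List γ}
    (h : List.Forall₂ R l l') : ∀ a ∈ l, ∃ c, R a c := by
  induction h with
  | nil => intro a ha; simp at ha
  | cons h _ ih =>
    intro a ha
    rcases List.mem_cons.1 ha with rfl | ha
    · exact ⟨_, h⟩
    · exact ih a ha

/-- **Classes of functions.** If `f` becomes the disjunction of `r` copies of `g` by substituting
constants for the variables outside `U` and variables or constants for the variables in `U`, and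
`f` is found by adaptive queries to the class `K` whose answers change fewer than `r` times on `U`,
then `g` is a disjunction of functions of the class, one more than the number of queries. -/
theorem classes_main (K : Gen.MonoClass) {ι β : Type} (g : (β → Bool) → Bool)
    (hg : g (fun _ => false) = false) {r : ℕ}
    (f : (ι → Bool) → Prop) (U : Finset ι) (φ : ι → (Fin r × β) ⊕ Bool)
    (hφU : ∀ v, v ∉ U → ∃ c, φ v = .inr c)
    (hφ : ∀ y : Fin r × β → Bool, f (fun v => Sum.elim y id (φ v)) ↔
      ∃ i, g (fun b => y (i, b)) = true)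
    (ts : List ℕ) (hF : Finds K U ts r f) :
    ∃ Gs : List ((β → Bool) → Bool), Gs.length ≤ ts.sum + 1 ∧
      (∀ G ∈ Gs, K.mem β G) ∧ ∀ u, g u = true ↔ ∃ G ∈ Gs, G u = true := by
  classical
  obtain ⟨Q, P, hQP, hts, hP, hch, hf⟩ := hF
  have hr : 0 < r := (Nat.zero_le _).trans_lt
    (hch (fun _ _ => false) monotone_const (fun _ _ _ => rfl) 0)
  set c₀ : ι → Bool := fun v => Sum.elim (fun _ => false) id (φ v) with hc₀
  have hsame : ∀ y : Fin r × β → Bool, Q (fun v => Sum.elim y id (φ v)) = Q c₀ ∧
      P (fun v => Sum.elim y id (φ v)) = P c₀ := by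
    intro y
    refine hQP _ _ fun v hv => ?_
    obtain ⟨c, hc⟩ := hφU v hv
    simp only [hc₀, hc, Sum.elim_inr]
  refine transfer_query K (a := r - 1) (r := r) g hg
    ((Q c₀).map fun q v => (q v).map fun F y => F fun i => Sum.elim y id (φ i)) ts ?_ ?_
    (fun v y => P c₀ v fun i => Sum.elim y id (φ i)) ?_ (by omega) ?_ ?_
  · rw [List.forall₂_map_left_iff]
    refine (hts c₀).imp fun q t h v => ?_
    rw [List.length_map]
    exact (h v).1
  · intro q hq v F hF
    obtain ⟨q', hq', rfl⟩ := List.mem_map.1 hq
    obtain ⟨F', hF', rfl⟩ := List.mem_map.1 hF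
    refine K.subst _ _ F' φ ?_
    obtain ⟨t, h⟩ := forall₂_mem (hts c₀) q' hq'
    exact (h v).2 F' hF'
  · intro v
    exact K.subst _ _ (P c₀ v) φ (hP c₀ v)
  · intro x hx n
    have h1 := hch (fun k v => Sum.elim (x k) id (φ v))
      (fun i j hij v => sumElim_mono (hx hij) (φ v)) (by
        intro k v hv
        obtain ⟨c, hc⟩ := hφU v hv
        simp only [hc, Sum.elim_inr]) n
    simp only [(hsame _).1] at h1
    simp only [answers_sub]
    exact Nat.le_sub_one_of_lt h1
  · intro y
    have h1 := hf (fun v => Sum.elim y id (φ v))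
    rw [(hsame y).1, (hsame y).2, hφ] at h1
    rw [answers_sub]
    exact h1

/-- Rounds of at most `t₁, t₂, ...` queries to monotone functions change their answers on `U` at
most `(t₁ + 1) (t₂ + 1) ... - 1` times. -/
theorem changesOn_queries {ι : Type} (U : Finset ι)
    (Q : (ι → Bool) → List (List Bool → List ((ι → Bool) → Bool)))
    (hQ : ∀ x y, (∀ v, v ∉ U → x v = y v) → Q x = Q y) (ts : List ℕ)
    (hts : ∀ x, List.Forall₂ (fun q t => ∀ v, (q v).length ≤ t) (Q x) ts)
    (hm : ∀ x, ∀ q ∈ Q x, ∀ v, ∀ F ∈ q v, Monotone F) {r : ℕ}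
    (hr : (ts.map (· + 1)).prod ≤ r) : ChangesOn U (fun x => answers x (Q x) []) r := by
  intro x hx hU n
  have h1 := answers_changes (Q (x 0)) ts (hts _) (hm _) x hx n
  have h2 : ∀ k, Q (x k) = Q (x 0) := fun k => hQ _ _ fun v hv => hU k v hv
  have h3 : 0 < (ts.map (· + 1)).prod := List.prod_pos (by simp)
  simp only [h2]
  exact lt_of_le_of_lt h1 (by omega)

section self

variable {r L : ℕ} {β : Type} [Fintype β] [Nonempty β]

/-- **Circuits and the self-addressing function.** -/
theorem circuits_self (hL : 2 ≤ L) (code : SelfVar r L β → Fin L → Bool)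
    (hcode : Function.Injective code) (g : (β → Bool) → Bool) (hg : Monotone g)
    (C : Circuit (SelfVar r L β)) (out : Wire (SelfVar r L β))
    (hf : ∀ x : SelfVar r L β → Bool, Circuit.val C x out = true ↔ SelfHard code g x)
    (U : Finset (SelfVar r L β))
    (hC : ChangesOn U (fun x => Circuit.notVals C x) (U.card / (4 * Fintype.card β * L))) :
    ∃ (M : Circuit β) (o : Wire β), Circuit.negs M = 0 ∧ Circuit.size M ≤ Circuit.size C ∧
      ∀ u : β → Bool, Circuit.val M u o = g u := by
  by_cases h0 : g (fun _ => false) = true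
  · refine ⟨[], .const true, by simp [Circuit.negs], by simp [Circuit.size], fun u => ?_⟩
    have : g (fun _ => false) ≤ g u := hg (fun _ => Bool.false_le _)
    rw [h0] at this
    exact (top_le_iff.mp this).symm
  · obtain ⟨φ, hφU, hφ⟩ := exists_selfHard_restriction hL code hcode g (by simpa using h0) U
      (U.card / (4 * Fintype.card β * L)) (Nat.div_mul_le_self _ _)
    exact circuits_main g hg _ U φ hφU hφ C out hC hf

/-- **Classes of functions and the self-addressing function.** -/
theorem classes_self (K : Gen.MonoClass) (hL : 2 ≤ L) (code : SelfVar r L β → Fin L → Bool)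
    (hcode : Function.Injective code) (g : (β → Bool) → Bool) (hg : g (fun _ => false) = false)
    (U : Finset (SelfVar r L β)) (ts : List ℕ)
    (hF : Finds K U ts (U.card / (4 * Fintype.card β * L)) (SelfHard code g)) :
    ∃ Gs : List ((β → Bool) → Bool), Gs.length ≤ ts.sum + 1 ∧
      (∀ G ∈ Gs, K.mem β G) ∧ ∀ u, g u = true ↔ ∃ G ∈ Gs, G u = true := by
  obtain ⟨φ, hφU, hφ⟩ := exists_selfHard_restriction hL code hcode g hg U
      (U.card / (4 * Fintype.card β * L)) (Nat.div_mul_le_self _ _)
  exact classes_main K g hg _ U φ hφU hφ ts hF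

end self

end Pool.Agent.NTR
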