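import Pool.Agent.NTR.Final
import Pool.Agent.NTR.MatchInst

/-!
# The local transfer theorem for perfect matchings: NL versus P
-/

namespace Pool.Agent.NTR

open Pool.Agent.NegLim Pool.Agent.TeleNeg Pool.Agent.PMB Finset

/-- **NL vs P, circuits.** -/
theorem match_self_circuit {m w r L : ℕ} (hw : 1 ≤ w)
    (hm : 2 ^ 80 * w ^ 5 * (Nat.log 2 m + 1) ^ 2 ≤ m)
    (code : SelfVar r L (Fin m × Fin m) → Fin L → Bool) (hcode : Function.Injective code)
    (g : (Fin m × Fin m → Bool) → Bool) (hg : ∀ u, g u = true ↔ HasPM u)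
    (U : Finset (SelfVar r L (Fin m × Fin m))) (C : Circuit (SelfVar r L (Fin m × Fin m)))
    (out : Wire (SelfVar r L (Fin m × Fin m)))
    (hf : ∀ x : SelfVar r L (Fin m × Fin m) → Bool,
      Circuit.val C x out = true ↔ SelfHard code g x)
    (hC : ChangesOn U (fun x => Circuit.notVals C x)
      (U.card / (4 * Fintype.card (Fin m × Fin m) * L))) :
    2 ^ w ≤ Circuit.size C := by
  have hmono : Monotone g := by
    intro u v huv
    rw [Bool.le_iff_imp]
    intro h
    rw [hg] at h ⊢
    exact hasPM_mono huv h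
  obtain ⟨M, o, h1, h2, h3⟩ := circuits_all code hcode g hmono U C out hf hC
  exact (match_circuit' m w hw hm M o h1 fun u => by rw [h3 u, hg]).trans h2

/-- **NL vs P, directed networks.** -/
theorem match_self_net {m w S r L : ℕ}
    (hm : 2 ^ 80 * w ^ 5 * (Nat.log 2 m + 1) ^ 2 ≤ m)
    (code : SelfVar r L (Fin m × Fin m) → Fin L → Bool) (hcode : Function.Injective code)
    (g : (Fin m × Fin m → Bool) → Bool) (hg : ∀ u, g u = true ↔ HasPM u)
    (U : Finset (SelfVar r L (Fin m × Fin m))) (ts : List ℕ)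
    (hF : Finds (Gen.dnetClass S) U ts
      (U.card / (4 * Fintype.card (Fin m × Fin m) * L)) (SelfHard code g)) :
    2 ^ w ≤ ((ts.sum + 1) * S) ^ 4 := by
  have hmono : Monotone g := by
    intro u v huv
    rw [Bool.le_iff_imp]
    intro h
    rw [hg] at h ⊢
    exact hasPM_mono huv h
  obtain ⟨Gs, h1, h2, h3⟩ := classes_all (Gen.dnetClass S) code hcode g hmono U ts hF
  exact inst_match hm Gs h1 h2 fun u => by rw [← hg u, h3 u]

end Pool.Agent.NTR
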