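import Pool.Agent.NTR.Core

/-!
# The transfer theorem for circuits with several outputs followed by an arbitrary function
-/

namespace Pool.Agent.NTR

open Pool.Agent.NegLim Finset

section

variable {V : Type} [Fintype V] [DecidableEq V]

/-- The set of the variables which are true. -/
def supp (y : V → Bool) : Finset V := univ.filter fun v => y v = true

lemma chi_supp (y : V → Bool) : chi (supp y) = y := by
  funext v
  unfold chi supp
  rw [Bool.eq_iff_iff, decide_eq_true_iff]
  simp

omit [DecidableEq V] in
lemma supp_mono {y z : V → Bool} (h : y ≤ z) : supp y ⊆ supp z := by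
  intro v hv
  simp only [supp, mem_filter, mem_univ, true_and] at hv ⊢
  have h2 := h v
  rw [hv] at h2
  exact top_le_iff.mp h2

/-- Outputs only grow as long as the NOT gates keep their values. -/
lemma val_le_of_notVals (C : Circuit V) {x z : V → Bool} (hxz : x ≤ z)
    (h : C.notVals z = C.notVals x) (o : Wire V) : C.val x o ≤ C.val z o := by
  intro ho
  have := val_mono_of_notVals C (supp_mono hxz) (by rw [chi_supp, chi_supp]; exact h) o
    (by rw [chi_supp]; exact ho)
  rwa [chi_supp] at this

/-- Let `x` be an input of the circuit `C`. For the inputs `z ≥ x` the statement that the values of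
the NOT gates or the outputs at `z` and at `x` differ is computed by a circuit without NOT gates
with at most `T` gates more than `C`. -/
lemma key_multi (C : Circuit V) {T : ℕ} (out : Fin T → Wire V) (x : V → Bool) :
    ∃ (M : Circuit V) (o : Wire V), Circuit.negs M = 0 ∧ Circuit.size M ≤ Circuit.size C + T ∧
      ∀ z : V → Bool, x ≤ z → (Circuit.val M z o = true ↔
        (Circuit.notVals C z, fun i => Circuit.val C z (out i))
          ≠ (Circuit.notVals C x, fun i => Circuit.val C x (out i))) := by
  obtain ⟨s, D, fs, F, hs, hD, hfs, hF, hmem, hval⟩ :=
    local_fam_out C (supp x) (List.ofFn out)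
  obtain ⟨M, hlen, hneg, hM⟩ := monComp_circuit hD
  obtain ⟨o, ho, hov⟩ := hM F hF
  refine ⟨M, o, hneg, ?_, fun z hz => ?_⟩
  · unfold Circuit.size at hs ⊢
    rw [hlen]
    simpa using hs
  · have h1 := hov (supp z)
    rw [chi_supp] at h1
    rw [h1, hmem (supp z) (supp_mono hz), chi_supp, chi_supp]
    constructor
    · rintro (h | ⟨a, ha, h⟩) h2
      · exact h (Prod.ext_iff.mp h2).1
      · rw [List.mem_ofFn] at ha
        obtain ⟨i, rfl⟩ := ha
        exact h (congrFun (Prod.ext_iff.mp h2).2 i)
    · intro h
      by_contra hcon
      rw [not_or] at hcon
      apply h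
      have h3 : Circuit.notVals C z = Circuit.notVals C x := by simpa using hcon.1
      refine Prod.ext h3 ?_
      funext i
      by_contra h2
      exact hcon.2 ⟨out i, by rw [List.mem_ofFn]; exact ⟨i, rfl⟩, h2⟩

/-- Along an increasing sequence the vector of the values of the NOT gates and of the outputs
changes at most `(T + 1) (a + 1) - 1` times, if the values of the NOT gates change at most `a`
times. -/
lemma changes_multi (C : Circuit V) {T a : ℕ} (out : Fin T → Wire V) (hC : C.FlipsAtMost a)
    (x : ℕ → V → Bool) (hx : Monotone x) (n : ℕ)
    (hn : ∀ k < n, (C.notVals (x k), fun i => C.val (x k) (out i))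
      ≠ (C.notVals (x (k + 1)), fun i => C.val (x (k + 1)) (out i))) :
    n ≤ (T + 1) * (a + 1) - 1 := by
  have key : ∀ m ≤ n, m ≤ (T + 1) *
      ((range m).filter (fun k => C.notVals (x k) ≠ C.notVals (x (k + 1)))).card
        + (univ.filter (fun i : Fin T => C.val (x m) (out i) = true)).card := by
    intro m
    induction m with
    | zero => intro _; exact Nat.zero_le _
    | succ m ih =>
      intro hm
      have h1 := ih (by omega)
      rw [range_add_one, filter_insert]
      by_cases h2 : C.notVals (x m) = C.notVals (x (m + 1))
      · rw [if_neg (by simpa using h2)]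
        have hle : ∀ i, C.val (x m) (out i) ≤ C.val (x (m + 1)) (out i) := fun i =>
          val_le_of_notVals C (hx (Nat.le_succ m)) h2.symm (out i)
        have hss : univ.filter (fun i : Fin T => C.val (x m) (out i) = true)
            ⊂ univ.filter (fun i : Fin T => C.val (x (m + 1)) (out i) = true) := by
          refine Finset.ssubset_iff_subset_ne.mpr ⟨fun i hi => ?_, fun he => ?_⟩
          · simp only [mem_filter, mem_univ, true_and] at hi ⊢
            exact hle i hi
          · refine hn m (by omega) (Prod.ext h2 (funext fun i => ?_))
            have h3 : (i ∈ univ.filter (fun i : Fin T => C.val (x m) (out i) = true)) ↔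
                i ∈ univ.filter (fun i : Fin T => C.val (x (m + 1)) (out i) = true) := by
              rw [he]
            simp only [mem_filter, mem_univ, true_and] at h3
            exact Bool.eq_iff_iff.mpr h3
        have h4 := card_lt_card hss
        omega
      · rw [if_pos h2, card_insert_of_notMem (by simp)]
        have h3 : (univ.filter (fun i : Fin T => C.val (x m) (out i) = true)).card ≤ T :=
          (card_le_univ _).trans (by simp)
        have h4 : (T + 1) * (((range m).filter
            (fun k => C.notVals (x k) ≠ C.notVals (x (k + 1)))).card + 1)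
            = (T + 1) * ((range m).filter
            (fun k => C.notVals (x k) ≠ C.notVals (x (k + 1)))).card + (T + 1) := by ring
        omega
  have h1 := key n le_rfl
  have h2 := hC x hx n
  have h3 : (univ.filter (fun i : Fin T => C.val (x n) (out i) = true)).card ≤ T :=
    (card_le_univ _).trans (by simp)
  have h4 : (T + 1) * ((range n).filter
      (fun k => C.notVals (x k) ≠ C.notVals (x (k + 1)))).card ≤ (T + 1) * a :=
    Nat.mul_le_mul_left _ h2
  have h5 : (T + 1) * (a + 1) = (T + 1) * a + T + 1 := by ring
  omega

end

/-- **Transfer, several outputs.** Let `g` be a monotone function. A circuit with `T` outputs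
which, followed by any function `h`, computes the disjunction of `r` copies of `g`, and the values
of whose NOT gates change at most `a` times along every increasing sequence of inputs,
`(T + 1) (a + 1) ≤ r`, yields a circuit without NOT gates for `g` with `T` gates more. -/
theorem transfer_multi {β : Type} [Finite β] (g : (β → Bool) → Bool) (hg : Monotone g)
    (r a : ℕ) {T : ℕ} (har : (T + 1) * (a + 1) ≤ r) (C : Circuit (Fin r × β))
    (out : Fin T → Wire (Fin r × β)) (h : (Fin T → Bool) → Bool) (hC : C.FlipsAtMost a)
    (hf : ∀ x : Fin r × β → Bool, h (fun i => C.val x (out i)) = true ↔ OrCopies g x) :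
    ∃ (M : Circuit β) (o : Wire β), Circuit.negs M = 0 ∧ Circuit.size M ≤ Circuit.size C + T ∧
      ∀ u : β → Bool, Circuit.val M u o = g u := by
  classical
  have : Fintype β := Fintype.ofFinite β
  by_cases h0 : g (fun _ => false) = true
  · refine ⟨[], .const true, by simp [Circuit.negs], by simp [Circuit.size], fun u => ?_⟩
    have : g (fun _ => false) ≤ g u := hg (fun _ => Bool.false_le _)
    rw [h0] at this
    exact (top_le_iff.mp this).symm
  have h0 : g (fun _ => false) = false := by simpa using h0
  have hpos : 0 < (T + 1) * (a + 1) := by positivity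
  obtain ⟨L, hL, hr, hfix⟩ := greedy g r ((T + 1) * (a + 1) - 1) (by omega)
    (fun x => (Circuit.notVals C x, fun i => Circuit.val C x (out i)))
    (fun x hx n hn => changes_multi C out hC x hx n hn)
  obtain ⟨M, o, hneg, hsize, hM⟩ := key_multi C out (blocks r L)
  let σ : Fin r × β → Lit β :=
    fun p => if (p.1 : ℕ) = L.length then Lit.var p.2 else Lit.const (blocks r L p)
  have hσ : ∀ u : β → Bool, (fun v => (σ v).val u) = blocks r (L ++ [u]) := by
    intro u
    funext p
    simp only [σ]
    split_ifs with h
    · simp only [Lit.val, blocks]
      rw [h, List.getD_eq_getElem _ _ (by simp)]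
      simp
    · simp only [Lit.val, blocks]
      by_cases h' : (p.1 : ℕ) < L.length
      · rw [List.getD_eq_getElem _ _ h',
          List.getD_eq_getElem _ _ (by rw [List.length_append]; omega),
          List.getElem_append_left h']
      · rw [List.getD_eq_default _ _ (not_lt.mp h'), List.getD_eq_default]
        rw [List.length_append, List.length_singleton]
        omega
  refine ⟨M.map (Gate.subst σ), o.subst σ, ?_, ?_, fun u => ?_⟩
  · rw [Circuit.subst_negs]; exact hneg
  · rw [Circuit.subst_size]; exact hsize
  · rw [Circuit.subst_val, hσ, Bool.eq_iff_iff, hM _ (blocks_le_snoc r L u)]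
    constructor
    · intro h'
      by_contra hu
      have hu : g u = false := by simpa using hu
      exact h' (hfix u hu)
    · intro hu h'
      have h1 : (fun i => Circuit.val C (blocks r (L ++ [u])) (out i))
          = fun i => Circuit.val C (blocks r L) (out i) := (Prod.ext_iff.mp h').2
      have h2 : OrCopies g (blocks r (L ++ [u])) := orCopies_snoc hr hu
      rw [← hf, h1, hf] at h2
      exact orCopies_blocks h0 hL h2

end Pool.Agent.NTR
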