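import Mathlib

set_option autoImplicit false

/-!
# Selectors with double rail addresses

`selVal x k` holds when the variable `x_j` whose address `j` is written in the double rail bits
`z_(k,l,c)` of the selector `k` is true: `∃ j, x_j ∧ ∀ l, z_(k,l,j_l)`.  For every set `U` of at
least `r |B| (2 L + 1)` variables the selectors can be pointed to distinct variables of `U`, all
variables outside `U` being constants.
-/

namespace Pool.Agent.NTR

/-- The variables: `2 ^ L` variables `x_j` and, for each selector `k` and each `l < L`, two address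
variables. -/
abbrev SelVar (r L : ℕ) (B : Type) := (Fin L → Bool) ⊕ ((Fin r × B) × Fin L × Bool)

/-- The value of the selector `k`: `∃ j, x_j ∧ ∀ l, z_(k,l,j_l)`. -/
def selVal {r L : ℕ} {B : Type} (x : SelVar r L B → Bool) (k : Fin r × B) : Prop :=
  ∃ j : Fin L → Bool, x (.inl j) = true ∧ ∀ l, x (.inr (k, l, j l)) = true

theorem exists_restriction {r L : ℕ} {B : Type} [Fintype B] (U : Finset (SelVar r L B))
    (hU : r * Fintype.card B * (2 * L + 1) ≤ U.card) :
    ∃ φ : SelVar r L B → (Fin r × B) ⊕ Bool,
      (∀ v, v ∉ U → ∃ c, φ v = .inr c) ∧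
      ∀ (y : (Fin r × B) → Bool) (k : Fin r × B),
        selVal (fun v => Sum.elim y id (φ v)) k ↔ y k = true := by
  classical
  have hR : U.toRight.card ≤ r * Fintype.card B * (L * 2) := by
    refine (Finset.card_le_univ _).trans (le_of_eq ?_)
    simp [Fintype.card_prod]
  have hL : Fintype.card (Fin r × B) ≤ Fintype.card {j // j ∈ U.toLeft} := by
    have h := Finset.card_toLeft_add_card_toRight (u := U)
    rw [Fintype.card_coe, Fintype.card_prod, Fintype.card_fin]
    nlinarith [h, hR, hU]
  obtain ⟨e⟩ := Function.Embedding.nonempty_of_card_le hL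
  refine ⟨fun v => match v with
    | .inl j => if h : ∃ k, (e k : Fin L → Bool) = j then .inl h.choose else .inr false
    | .inr (k, l, c) => .inr (decide (c = (e k : Fin L → Bool) l)), ?_, ?_⟩
  · rintro (j | ⟨k, l, c⟩) hv
    · refine ⟨false, ?_⟩
      have h : ¬ ∃ k, (e k : Fin L → Bool) = j := by
        rintro ⟨k, rfl⟩
        exact hv (Finset.mem_toLeft.1 (e k).2)
      simp only [h, dite_false]
    · exact ⟨_, rfl⟩
  · intro y k
    have key : ∀ j : Fin L → Bool, (∀ l, (decide (j l = (e k : Fin L → Bool) l)) = true) ↔
        j = (e k : Fin L → Bool) := by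
      intro j
      simp only [decide_eq_true_eq]
      exact ⟨fun h => funext h, fun h l => by rw [h]⟩
    have hk : ∃ k', (e k' : Fin L → Bool) = (e k : Fin L → Bool) := ⟨k, rfl⟩
    have hk' : hk.choose = k := e.injective (Subtype.ext hk.choose_spec)
    unfold selVal
    simp only [Sum.elim_inr, id]
    constructor
    · rintro ⟨j, h1, h2⟩
      have hj := (key j).1 h2
      subst hj
      simp only [hk, dite_true, Sum.elim_inl] at h1
      rwa [hk'] at h1
    · intro h
      refine ⟨(e k : Fin L → Bool), ?_, (key _).2 rfl⟩
      simp only [hk, dite_true, Sum.elim_inl]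
      rwa [hk']

end Pool.Agent.NTR
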